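import Mathlib
import Pool.Graph.R_pool_sql_team_seeded_f0cf7b00.H262R3.Lk.Fn7
import Pool.Graph.R_seed8.TH423.SH.FLLP

set_option autoImplicit false

/-! Elementary facts for the sieve: residue classes, counting, prime powers. -/

open Finset Filter

namespace Pool.Agent.H92.F

open Pool.Agent.H262R3.Lk Pool.Agent.H378R2 Pool.Agent.H262R2.UM Pool.Agent.H262R2.UP

/-- combining residue classes modulo the primes of `T` with a class modulo `Q` -/
theorem crt (Q : ℕ) (β : ℕ) (c : ℕ → ℕ) (T : Finset ℕ) (hT : ∀ p ∈ T, p.Prime ∧ ¬ p ∣ Q)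
    (hc : ∀ p ∈ T, c p < p) :
    ∃ γ : ℕ, ∀ m : ℕ, (m ≡ β [MOD Q] ∧ ∀ p ∈ T, m % p = c p) ↔ m ≡ γ [MOD Q * ∏ p ∈ T, p] := by
  classical
  induction T using Finset.induction_on with
  | empty => exact ⟨β, fun m => by simp⟩
  | @insert p T hpT ih =>
    obtain ⟨γ', hγ'⟩ := ih (fun q hq => hT q (mem_insert_of_mem hq)) (fun q hq => hc q (mem_insert_of_mem hq))
    have hp := hT p (mem_insert_self _ _)
    have hcop : (Q * ∏ q ∈ T, q).Coprime p := by
      apply Nat.Coprime.mul_left
      · exact ((Nat.Prime.coprime_iff_not_dvd hp.1).2 hp.2).symm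
      · apply Nat.Coprime.prod_left
        intro q hq
        rw [Nat.coprime_primes (hT q (mem_insert_of_mem hq)).1 hp.1]
        rintro rfl
        exact hpT hq
    obtain ⟨γ, h1, h2⟩ := Nat.chineseRemainder hcop γ' (c p)
    refine ⟨γ, fun m => ?_⟩
    rw [prod_insert hpT]
    have e : Q * (p * ∏ q ∈ T, q) = (Q * ∏ q ∈ T, q) * p := by ring
    rw [e, ← Nat.modEq_and_modEq_iff_modEq_mul hcop]
    constructor
    · rintro ⟨h3, h4⟩
      refine ⟨((hγ' m).1 ⟨h3, fun q hq => h4 q (mem_insert_of_mem hq)⟩).trans h1.symm, ?_⟩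
      have h5 := h4 p (mem_insert_self _ _)
      have h6 : m ≡ c p [MOD p] := by
        unfold Nat.ModEq
        rw [h5, Nat.mod_eq_of_lt (hc p (mem_insert_self _ _))]
      exact h6.trans h2.symm
    · rintro ⟨h3, h4⟩
      obtain ⟨h5, h6⟩ := (hγ' m).2 (h3.trans h1)
      refine ⟨h5, fun q hq => ?_⟩
      rcases mem_insert.1 hq with rfl | hq
      · have h7 : m ≡ c q [MOD q] := h4.trans h2
        unfold Nat.ModEq at h7
        rw [h7, Nat.mod_eq_of_lt (hc q (mem_insert_self _ _))]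
      · exact h6 q hq

/-- the number of members of a class -/
theorem card_class (N Q γ : ℕ) (hQ : 0 < Q) :
    |(((Icc 1 N).filter (fun m => m ≡ γ [MOD Q])).card : ℝ) - (N : ℝ) / Q| ≤ 1 := by
  have h1 : ((Icc 1 N).filter (fun m => m ≡ γ [MOD Q])).card = Nat.count (· ≡ γ [MOD Q]) (N + 1) -
      Nat.count (· ≡ γ [MOD Q]) 1 := by
    rw [Nat.count_eq_card_filter_range, Nat.count_eq_card_filter_range]
    have : (Icc 1 N).filter (fun m => m ≡ γ [MOD Q]) = ((range (N + 1)).filter (fun m => m ≡ γ [MOD Q])) \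
        ((range 1).filter (fun m => m ≡ γ [MOD Q])) := by
      ext m
      simp only [mem_filter, mem_Icc, Finset.mem_sdiff, mem_range]
      constructor
      · rintro ⟨⟨h1, h2⟩, h3⟩
        exact ⟨⟨by omega, h3⟩, fun h => by omega⟩
      · rintro ⟨⟨h1, h2⟩, h3⟩
        refine ⟨⟨?_, by omega⟩, h2⟩
        by_contra h4
        exact h3 ⟨by omega, h2⟩
    rw [this, card_sdiff_of_subset]
    apply filter_subset_filter
    apply range_subset_range.2
    omega
  have h2 := Nat.Ioc_filter_modEq_card 0 N hQ γ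
  have h3 : (Ioc 0 N) = Icc 1 N := by
    ext m; simp only [mem_Ioc, mem_Icc]; omega
  rw [h3] at h2
  have h4 : ((((Icc 1 N).filter (fun m => m ≡ γ [MOD Q])).card : ℤ) : ℝ) =
      ((max (⌊((N : ℚ) - γ) / Q⌋ - ⌊(((0 : ℕ) : ℚ) - γ) / Q⌋) 0 : ℤ) : ℝ) := by
    rw [h2]
  have h5 : (((Icc 1 N).filter (fun m => m ≡ γ [MOD Q])).card : ℝ) =
      ((((Icc 1 N).filter (fun m => m ≡ γ [MOD Q])).card : ℤ) : ℝ) := by push_cast; rfl
  rw [h5, h4]
  have hQr : (0 : ℚ) < Q := by exact_mod_cast hQ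
  set u : ℚ := ((N : ℚ) - γ) / Q with hu
  set v : ℚ := (((0 : ℕ) : ℚ) - γ) / Q with hv
  have huv : u - v = (N : ℚ) / Q := by rw [hu, hv]; push_cast; ring
  have h6 : ((N : ℝ) / Q) = ((u - v : ℚ) : ℝ) := by rw [huv]; push_cast; rfl
  rw [h6]
  have hle : v ≤ u := by
    have : 0 ≤ u - v := by rw [huv]; positivity
    linarith
  have hmax : max (⌊u⌋ - ⌊v⌋) 0 = ⌊u⌋ - ⌊v⌋ := by
    apply max_eq_left
    have := Int.floor_le_floor hle
    omega
  rw [hmax]
  have a1 := Int.floor_le u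
  have a2 := Int.lt_floor_add_one u
  have a3 := Int.floor_le v
  have a4 := Int.lt_floor_add_one v
  have b1 : |(((⌊u⌋ - ⌊v⌋ : ℤ) : ℚ)) - (u - v)| ≤ 1 := by
    rw [abs_le]; push_cast
    constructor <;> linarith
  have b2 : ((|(((⌊u⌋ - ⌊v⌋ : ℤ) : ℚ)) - (u - v)| : ℚ) : ℝ) ≤ ((1 : ℚ) : ℝ) := by exact_mod_cast b1
  push_cast at b2 ⊢
  exact b2

/-- the contribution of the prime powers with base in `L` -/
theorem pp_sum (N : ℕ) (L : Finset ℕ) (hL : ∀ p ∈ L, p.Prime) :
    ∑ m ∈ (Icc 1 N).filter (fun m => m.minFac ∈ L), ArithmeticFunction.vonMangoldt m ≤ #L * Real.log N := by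
  classical
  rcases Nat.eq_zero_or_pos N with h0 | hN
  · subst h0; simp
  have h1 : ∑ m ∈ (Icc 1 N).filter (fun m => m.minFac ∈ L), ArithmeticFunction.vonMangoldt m ≤
      ∑ p ∈ L, ∑ e ∈ Icc 1 (Nat.log p N), Real.log p := by
    have h2 : ∑ m ∈ (Icc 1 N).filter (fun m => m.minFac ∈ L), ArithmeticFunction.vonMangoldt m =
        ∑ m ∈ ((Icc 1 N).filter (fun m => m.minFac ∈ L)).filter (fun m => IsPrimePow m),
          ArithmeticFunction.vonMangoldt m := by
      rw [sum_filter (s := (Icc 1 N).filter (fun m => m.minFac ∈ L))]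
      apply sum_congr rfl
      intro m _
      split_ifs with h
      · rfl
      · exact ArithmeticFunction.vonMangoldt_eq_zero_iff.2 h
    rw [h2]
    rw [sum_sigma']
    refine le_of_eq_of_le ?_ (sum_le_sum_of_subset_of_nonneg (s := (((Icc 1 N).filter (fun m => m.minFac ∈ L)).filter
      (fun m => IsPrimePow m)).image (fun m => (⟨m.minFac, m.factorization m.minFac⟩ : Σ _ : ℕ, ℕ))) ?_ ?_)
    · rw [sum_image]
      · apply sum_congr rfl
        intro m hm
        rw [mem_filter] at hm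
        rw [ArithmeticFunction.vonMangoldt_apply, if_pos hm.2]
      · intro m hm m' hm' h
        rw [mem_coe, mem_filter] at hm hm'
        simp only [Sigma.mk.injEq, heq_eq_eq] at h
        calc m = m.minFac ^ m.factorization m.minFac := hm.2.minFac_pow_factorization_eq.symm
          _ = m'.minFac ^ m'.factorization m'.minFac := by rw [h.2, h.1]
          _ = m' := hm'.2.minFac_pow_factorization_eq
    · intro x hx
      rw [mem_image] at hx
      obtain ⟨m, hm, rfl⟩ := hx
      rw [mem_filter, mem_filter, mem_Icc] at hm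
      rw [mem_sigma, mem_Icc]
      have h3 := hm.2.minFac_pow_factorization_eq
      refine ⟨hm.1.2, ?_, ?_⟩
      · by_contra h4
        have h5 : m.factorization m.minFac = 0 := by simpa using h4
        rw [h5, pow_zero] at h3
        rw [← h3] at hm
        exact hm.2.ne_one rfl
      · apply Nat.le_log_of_pow_le (hL _ hm.1.2).one_lt
        rw [h3]
        exact hm.1.1.2
    · intro x hx _
      exact Real.log_natCast_nonneg _
  refine h1.trans ?_
  rw [← nsmul_eq_mul]
  apply sum_le_card_nsmul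
  intro p hp
  rw [sum_const, nsmul_eq_mul, Nat.card_Icc, Nat.add_sub_cancel]
  have h2 := Nat.pow_log_le_self p hN.ne'
  have h3 : ((p : ℝ)) ^ (Nat.log p N) ≤ N := by exact_mod_cast h2
  have hp0 : (0 : ℝ) < p := by exact_mod_cast (hL p hp).pos
  have h4 := Real.log_le_log (by positivity) h3
  rwa [Real.log_pow] at h4

end Pool.Agent.H92.F
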