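import Pool.Agent.H92.F.Sets
import Pool.Graph.R_pool_sql_team_seeded_2aa45f1a.Q46.SV.Sieve

set_option autoImplicit false

/-! The number of admissible classes, and the size of the density. -/

open Finset Filter

namespace Pool.Agent.H92.F

open Pool.Agent.H262R3.Lk Pool.Agent.H378R2 Pool.Agent.H262R2.UM Pool.Agent.H262R2.UP

theorem nu_le_self {k : ℕ} (a b : Fin k → ℕ) (p : ℕ) : nu a b p ≤ p := by
  unfold nu
  refine (card_filter_le _ _).trans ?_
  rw [card_range]

theorem card_good {k : ℕ} (a b : Fin k → ℕ) (p : ℕ) :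
    #((range p).filter (fun n => ∀ j, ¬ p ∣ a j * n + b j)) = p - nu a b p := by
  have h1 := card_filter_add_card_filter_not (s := range p) (fun n => ∃ j, p ∣ a j * n + b j)
  rw [card_range] at h1
  have h2 : (range p).filter (fun n => ∀ j, ¬ p ∣ a j * n + b j) =
      (range p).filter (fun n => ¬ ∃ j, p ∣ a j * n + b j) := by
    apply filter_congr
    intro n _
    rw [not_exists]
  rw [h2]
  unfold nu
  omega

theorem dvd_mod_iff {aj bj p n m : ℕ} (h : n ≡ m [MOD p]) : p ∣ aj * n + bj ↔ p ∣ aj * m + bj := by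
  have h1 : aj * n + bj ≡ aj * m + bj [MOD p] := Nat.ModEq.add_right _ (Nat.ModEq.mul_left _ h)
  exact h1.dvd_iff (dvd_refl p)

theorem card_classes {k : ℕ} (a b : Fin k → ℕ) (S : Finset ℕ) (hS : ∀ p ∈ S, p.Prime) :
    ∏ p ∈ S, (p - nu a b p) ≤
      #((range (∏ p ∈ S, p)).filter (fun n => ∀ p ∈ S, ∀ j, ¬ p ∣ a j * n + b j)) := by
  classical
  induction S using Finset.induction_on with
  | empty => simp
  | @insert p S hpS ih =>
    have hp := hS p (mem_insert_self _ _)
    have ih' := ih (fun q hq => hS q (mem_insert_of_mem hq))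
    have hcop : p.Coprime (∏ q ∈ S, q) := by
      apply Nat.Coprime.prod_right
      intro q hq
      rw [Nat.coprime_primes hp (hS q (mem_insert_of_mem hq))]
      rintro rfl
      exact hpS hq
    rw [prod_insert hpS, prod_insert hpS]
    refine (Nat.mul_le_mul_left _ ih').trans ?_
    rw [← card_good, ← card_product]
    have hm0 : ∏ q ∈ S, q ≠ 0 := (prod_pos fun q hq => (hS q (mem_insert_of_mem hq)).pos).ne'
    apply card_le_card_of_injOn (fun x : ℕ × ℕ => (Nat.chineseRemainder hcop x.1 x.2 : ℕ))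
    · intro x hx
      rw [mem_coe, mem_product, mem_filter, mem_filter, mem_range, mem_range] at hx
      obtain ⟨⟨h1, h2⟩, h3, h4⟩ := hx
      rw [mem_coe, mem_filter, mem_range]
      have hc := (Nat.chineseRemainder hcop x.1 x.2).2
      refine ⟨Nat.chineseRemainder_lt_mul hcop _ _ hp.ne_zero hm0, ?_⟩
      intro q hq j
      rcases mem_insert.1 hq with rfl | hq
      · rw [dvd_mod_iff hc.1]
        exact h2 j
      · have h5 : (Nat.chineseRemainder hcop x.1 x.2 : ℕ) ≡ x.2 [MOD q] :=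
          Nat.ModEq.of_dvd (dvd_prod_of_mem (fun q => q) hq) hc.2
        rw [dvd_mod_iff h5]
        exact h4 q hq j
    · intro x hx y hy hxy
      rw [mem_coe, mem_product, mem_filter, mem_filter, mem_range, mem_range] at hx hy
      have hcx := (Nat.chineseRemainder hcop x.1 x.2).2
      have hcy := (Nat.chineseRemainder hcop y.1 y.2).2
      simp only at hxy
      rw [hxy] at hcx
      have e1 : x.1 = y.1 := Nat.ModEq.eq_of_lt_of_lt (hcx.1.symm.trans hcy.1) hx.1.1 hy.1.1
      have e2 : x.2 = y.2 := Nat.ModEq.eq_of_lt_of_lt (hcx.2.symm.trans hcy.2) hx.2.1 hy.2.1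
      exact Prod.ext e1 e2

theorem card_classes' {k : ℕ} (a b : Fin k → ℕ) (S : Finset ℕ) (hS : ∀ p ∈ S, p.Prime) :
    ((∏ p ∈ S, p : ℕ) : ℝ) * ∏ p ∈ S, (1 - (nu a b p : ℝ) * (1 / (p : ℝ))) ≤
      (#((range (∏ p ∈ S, p)).filter (fun n => ∀ j, (a j * n + b j).Coprime (∏ p ∈ S, p))) : ℝ) := by
  classical
  have h1 := card_classes a b S hS
  have h2 : (range (∏ p ∈ S, p)).filter (fun n => ∀ p ∈ S, ∀ j, ¬ p ∣ a j * n + b j) =
      (range (∏ p ∈ S, p)).filter (fun n => ∀ j, (a j * n + b j).Coprime (∏ p ∈ S, p)) := by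
    apply filter_congr
    intro n _
    constructor
    · intro h j
      apply Nat.Coprime.prod_right
      intro p hp
      exact ((Nat.Prime.coprime_iff_not_dvd (hS p hp)).2 (h p hp j)).symm
    · intro h p hp j hd
      have h3 := (h j).coprime_dvd_right (dvd_prod_of_mem (fun p => p) hp)
      exact (Nat.Prime.coprime_iff_not_dvd (hS p hp)).1 h3.symm hd
  rw [h2] at h1
  have h3 : ((∏ p ∈ S, p : ℕ) : ℝ) * ∏ p ∈ S, (1 - (nu a b p : ℝ) * (1 / (p : ℝ))) =
      ((∏ p ∈ S, (p - nu a b p) : ℕ) : ℝ) := by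
    push_cast
    rw [← prod_mul_distrib]
    apply prod_congr rfl
    intro p hp
    have hp0 : (p : ℝ) ≠ 0 := by exact_mod_cast (hS p hp).ne_zero
    rw [Nat.cast_sub (nu_le_self a b p)]
    field_simp
  rw [h3]
  exact_mod_cast h1

theorem nu_le_k {k : ℕ} {a b : Fin k → ℕ} (hcop : ∀ j, (b j).Coprime (a j)) {p : ℕ} (hp : p.Prime) :
    nu a b p ≤ k := by
  classical
  unfold nu
  have h1 : (range p).filter (fun n => ∃ j, p ∣ a j * n + b j) ⊆
      (univ : Finset (Fin k)).biUnion (fun j => (range p).filter (fun n => p ∣ a j * n + b j)) := by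
    intro n hn
    rw [mem_filter] at hn
    obtain ⟨h1, j, h2⟩ := hn
    rw [mem_biUnion]
    exact ⟨j, mem_univ _, mem_filter.2 ⟨h1, h2⟩⟩
  have h2 : ∀ j : Fin k, ((range p).filter (fun n => p ∣ a j * n + b j)).card ≤ 1 := by
    intro j
    rw [card_le_one]
    intro n hn n' hn'
    rw [mem_filter, mem_range] at hn hn'
    have hpa : ¬ p ∣ a j := by
      intro hd
      have h3 : p ∣ b j := (Nat.dvd_add_right (hd.mul_right n)).1 hn.2
      have h4 := Nat.dvd_gcd h3 hd
      rw [hcop j] at h4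
      exact hp.one_lt.ne' (Nat.dvd_one.1 h4)
    have h3 : a j * n + b j ≡ a j * n' + b j [MOD p] :=
      (Nat.modEq_zero_iff_dvd.2 hn.2).trans (Nat.modEq_zero_iff_dvd.2 hn'.2).symm
    have h4 := Nat.ModEq.add_right_cancel' (b j) h3
    have h5 : n ≡ n' [MOD p] := Nat.ModEq.cancel_left_of_coprime
      ((Nat.Prime.coprime_iff_not_dvd hp).2 hpa) h4
    exact Nat.ModEq.eq_of_lt_of_lt h5 hn.1 hn'.1
  have h3 := (card_le_card h1).trans (card_biUnion_le_card_mul _ _ 1 (fun j _ => h2 j))
  rw [card_univ, Fintype.card_fin, mul_one] at h3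
  exact h3

theorem nu_lt {k : ℕ} {a b : Fin k → ℕ} (hadm : Adm a b) {p : ℕ} (hp : p.Prime) : nu a b p < p := by
  obtain ⟨n, hn⟩ := hadm p hp
  unfold nu
  rw [← card_range p]
  rw [card_range]
  calc #((range p).filter (fun n => ∃ j, p ∣ a j * n + b j)) < #(range p) := by
        apply card_lt_card
        rw [Finset.filter_ssubset]
        refine ⟨n % p, mem_range.2 (Nat.mod_lt _ hp.pos), ?_⟩
        rintro ⟨j, hj⟩
        exact hn j ((dvd_mod_iff (Nat.mod_modEq n p)).1 hj)
    _ = p := card_range p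

/-- the density is not too small -/
theorem dens_low (k : ℕ) : ∃ c : ℝ, 0 < c ∧ ∀ N : ℕ, 3 ≤ N → ∀ a b : Fin k → ℕ, Adm a b →
    c / (Real.log N) ^ k ≤ ∏ p ∈ Pz N, (1 - (nu a b p : ℝ) * (1 / (p : ℝ))) := by
  obtain ⟨c, hc, h⟩ := Pool.Agent.Q46.SV.prod_lower k 1
  have hpos : 0 < ∏ p ∈ Pz (3 * k), (1 / (p : ℝ)) := prod_pos fun p hp => by
    have : (0 : ℝ) < p := by exact_mod_cast (mem_Pz.1 hp).2.pos
    positivity
  refine ⟨(∏ p ∈ Pz (3 * k), (1 / (p : ℝ))) * c, by positivity, ?_⟩
  intro N hN a b hadm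
  have hcop : ∀ j, (b j).Coprime (a j) := fun j => adm_coprime hadm j
  have hlogN : 0 < Real.log N := Real.log_pos (by
    have : (3 : ℝ) ≤ N := by exact_mod_cast hN
    linarith)
  rw [← prod_filter_mul_prod_filter_not (Pz N) (fun p => p ≤ 3 * k), mul_div_assoc]
  have hfac : ∀ p : ℕ, p.Prime → 1 / (p : ℝ) ≤ 1 - (nu a b p : ℝ) * (1 / (p : ℝ)) := by
    intro p hp
    have h1 := nu_lt hadm hp
    have hp0 : (0 : ℝ) < p := by exact_mod_cast hp.pos
    have h2 : (nu a b p : ℝ) + 1 ≤ p := by exact_mod_cast h1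
    rw [mul_one_div, le_sub_iff_add_le, ← add_div, div_le_one hp0]
    linarith
  apply mul_le_mul
  · calc ∏ p ∈ Pz (3 * k), (1 / (p : ℝ)) ≤ ∏ p ∈ (Pz N).filter (fun p => p ≤ 3 * k), (1 / (p : ℝ)) := by
          have hsub : (Pz N).filter (fun p => p ≤ 3 * k) ⊆ Pz (3 * k) := by
            intro p hp
            rw [mem_filter, mem_Pz] at hp
            exact mem_Pz.2 ⟨hp.2, hp.1.2⟩
          rw [← prod_sdiff hsub]
          apply mul_le_of_le_one_left
          · exact prod_nonneg fun p _ => by positivity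
          · apply prod_le_one (fun p _ => by positivity)
            intro p hp
            have : (1 : ℝ) ≤ p := by exact_mod_cast (mem_Pz.1 (Finset.mem_sdiff.1 hp).1).2.one_lt.le
            rw [div_le_one (by linarith)]
            exact this
      _ ≤ _ := by
          apply Finset.prod_le_prod (fun p _ => by positivity)
          intro p hp
          rw [mem_filter, mem_Pz] at hp
          exact hfac p hp.1.2
  · have h1 := h N hN ((Pz N).filter (fun p => ¬ p ≤ 3 * k)) (fun p hp => by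
      rw [mem_filter, mem_Pz, not_le] at hp
      exact ⟨hp.1.2, hp.2.le, hp.1.1⟩)
    rw [mul_one] at h1
    refine h1.trans (Finset.prod_le_prod ?_ ?_)
    · intro p hp
      rw [mem_filter, mem_Pz, not_le] at hp
      rw [pow_one, sub_nonneg]
      have hp0 : (0 : ℝ) < p := by exact_mod_cast hp.1.2.pos
      rw [div_le_one hp0]
      have : k ≤ p := by omega
      exact_mod_cast this
    · intro p hp
      rw [mem_filter, mem_Pz, not_le] at hp
      rw [pow_one, mul_one_div]
      have hp0 : (0 : ℝ) < p := by exact_mod_cast hp.1.2.pos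
      have h2 : (nu a b p : ℝ) ≤ k := by exact_mod_cast nu_le_k hcop hp.1.2
      have h3 := div_le_div_of_nonneg_right h2 hp0.le
      linarith
  · positivity
  · apply prod_nonneg
    intro p hp
    rw [mem_filter, mem_Pz] at hp
    refine le_trans ?_ (hfac p hp.1.2)
    positivity

end Pool.Agent.H92.F
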