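import Pool.Agent.H92.F.ClsFin

set_option autoImplicit false

/-! The bound for one class. -/

open Finset Filter

namespace Pool.Agent.H92.F

open Pool.Agent.H262R3.Lk Pool.Agent.H378R2 Pool.Agent.H262R2.UM Pool.Agent.H262R2.UP

/-- comparison of powers and logarithms -/
theorem ev_pow (K : ℝ) (n : ℕ) : ∀ᶠ X : ℝ in atTop, K * (Real.log X) ^ n * X ^ (19 / 20 : ℝ) ≤ X ^ (99 / 100 : ℝ) := by
  have h1 := (isLittleO_log_rpow_rpow_atTop (s := (1 / 25 : ℝ)) (n : ℝ) (by norm_num)).def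
    (show (0 : ℝ) < 1 / (|K| + 1) by positivity)
  filter_upwards [h1, eventually_ge_atTop (1 : ℝ)] with X h2 h3
  have hX0 : 0 < X := by linarith
  have hlog : 0 ≤ Real.log X := Real.log_nonneg h3
  rw [Real.rpow_natCast, Real.norm_of_nonneg (by positivity), Real.norm_of_nonneg (by positivity)] at h2
  have h4 : (|K| + 1) * (Real.log X) ^ n ≤ X ^ (1 / 25 : ℝ) := by
    calc (|K| + 1) * (Real.log X) ^ n ≤ (|K| + 1) * (1 / (|K| + 1) * X ^ (1 / 25 : ℝ)) :=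
          mul_le_mul_of_nonneg_left h2 (by positivity)
      _ = _ := by field_simp
  have h5 : K * (Real.log X) ^ n ≤ X ^ (1 / 25 : ℝ) := by
    refine le_trans ?_ h4
    apply mul_le_mul_of_nonneg_right _ (by positivity)
    have := le_abs_self K
    linarith
  calc K * (Real.log X) ^ n * X ^ (19 / 20 : ℝ) ≤ X ^ (1 / 25 : ℝ) * X ^ (19 / 20 : ℝ) :=
        mul_le_mul_of_nonneg_right h5 (by positivity)
    _ = X ^ (99 / 100 : ℝ) := by rw [← Real.rpow_add hX0]; norm_num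

set_option maxHeartbeats 16000000 in
/-- the values of a class -/
theorem cls (k : ℕ) (c5 : ℝ) (hc5 : 0 < c5) : ∃ A1 : ℕ, ∀ A2 : ℕ, ∃ (R : ℕ) (c : ℝ), 0 < c ∧ ∃ M0 : ℕ, ∀ M : ℕ, M0 ≤ M →
    ∀ (l : ℕ) (T0 : Finset ℕ) (a b : Fin k → ℕ) (i : Fin k), #T0 ≤ 1 → Adm a b →
    (∀ j, 0 < a j ∧ b j ≤ a j) → (∀ j, 1 ≤ b j) → Function.Injective (fun j => (a j, b j)) → (∀ j, a j ≤ M) →
    (M : ℝ) ^ (4 * A1) ≤ Real.exp ((l : ℝ) / 2) → Real.exp ((l : ℝ) / 2) ≤ (M : ℝ) ^ (4 * A2) →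
    ∃ P : Finset ℕ, (∀ p ∈ P, p.Prime ∧ wM M < p ∧ (p : ℝ) ≤ Real.exp ((l : ℝ) / 2)) ∧
    ∀ a0 : ℕ, (∀ j, (a j * a0 + b j).Coprime (WT M T0)) →
    c5 / ((a i * WT M T0).totient : ℝ) ≤ wn (a i * WT M T0) (a i * a0 + b i) (l + sh (a i)) →
    c * (Real.exp ((l : ℝ) / 2) / (WT M T0)) * ∏ p ∈ P, (1 - (nu a b p : ℝ) * (1 / (p : ℝ))) ≤
      #((range (⌊8 * Real.exp ((l : ℝ) / 2)⌋₊ + 1)).filter (fun n => n ≡ a0 [MOD WT M T0] ∧ (a i * n + b i).Prime ∧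
        ∀ j, (a j * n + b j).primeFactorsList.length ≤ R)) := by
  obtain ⟨C, hC1, hF⟩ := fllC
  obtain ⟨c4, hc4, hBEup⟩ := BE_up
  obtain ⟨Cd, hCd0, hEmc⟩ := EmP_card h_dens k
  obtain ⟨c6, hc6, hV1low⟩ := V1_low k
  obtain ⟨bb, hbb⟩ : ∃ bb : ℕ, bb = C * (k + 1) := ⟨_, rfl⟩
  have hbb1 : 1 ≤ bb := by
    rw [hbb]
    exact Nat.mul_pos (by omega) (by omega)
  obtain ⟨Kb, hKb⟩ : ∃ Kb : ℕ, Kb = C * bb := ⟨_, rfl⟩
  have hKb1 : 1 ≤ Kb := by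
    rw [hKb]
    exact Nat.mul_pos (by omega) (by omega)
  have hKbr : (1 : ℝ) ≤ Kb := by exact_mod_cast hKb1
  obtain ⟨A1', hrel⟩ := relbv2 h_ll1 (2 * k + 4)
  refine ⟨A1' + 1000, fun A2 => ?_⟩
  obtain ⟨Q1, hrel'⟩ := hrel A2
  obtain ⟨CE, hCE0, hEbs⟩ := Eb_sum A2 Cd hCd0
  obtain ⟨C7, hC7⟩ : ∃ C7 : ℝ, C7 = 200 * Kb * c4 * Real.exp (CE + 4) := ⟨_, rfl⟩
  have hC70 : 0 < C7 := by rw [hC7]; positivity
  obtain ⟨K, hK⟩ : ∃ K : ℝ, K = 144 * k * CE * C7 / c5 + 1 := ⟨_, rfl⟩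
  have hK0 : 0 < K := by rw [hK]; positivity
  obtain ⟨R1, hR1⟩ : ∃ R1 : ℕ, R1 = ⌈4 * K⌉₊ + 1 := ⟨_, rfl⟩
  have hR1r : 4 * K ≤ R1 := by
    rw [hR1]; push_cast
    have := Nat.le_ceil (4 * K)
    linarith
  have hlog := Real.tendsto_log_atTop
  have hT : Tendsto (fun M : ℕ => Real.log M) atTop atTop := hlog.comp tendsto_natCast_atTop_atTop
  obtain ⟨X2, hX2⟩ := eventually_atTop.1 (hEmc.and ((ev_pow (4 * (200 * k + 200) / (c5 * c6)) (2 * k + 3)).and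
    ((hlog.eventually_ge_atTop (80000 * (Kb : ℝ) ^ 2 + 4 / (c5 * c6) + 100)).and (eventually_ge_atTop (3 : ℝ)))))
  obtain ⟨M1', hM1'⟩ := eventually_atTop.1 ((wM_facts A2).and (hEbs.and
    (hT.eventually_ge_atTop (2 * (4 * k + 4 + bb + 2 : ℕ) : ℝ))))
  refine ⟨R1 + 400 * Kb + 1, c5 / (16 * C7), by positivity, Q1 + ⌈X2⌉₊ + M1' + 3, ?_⟩
  intro M hM l T0 a b i hT0 hadm hab hb1 hinj haM hXlow hXup
  obtain ⟨⟨hw3, hwX⟩, hEbM, hlogM⟩ := hM1' M (by omega)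
  have hM3 : 3 ≤ M := by omega
  have hMr : (3 : ℝ) ≤ M := by exact_mod_cast hM3
  have hM0 : (0 : ℝ) < M := by linarith
  obtain ⟨X, hXdef⟩ : ∃ X : ℝ, X = Real.exp ((l : ℝ) / 2) := ⟨_, rfl⟩
  rw [← hXdef] at hXlow hXup ⊢
  have hX0 : 0 < X := by rw [hXdef]; exact Real.exp_pos _
  have hMX1000 : (M : ℝ) ^ 1000 ≤ X := (pow_le_pow_right₀ (by linarith) (by omega)).trans hXlow
  have hMX : (M : ℝ) ≤ X := (le_self_pow₀ (by linarith) (by norm_num)).trans hMX1000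
  have hX1 : 1 ≤ X := by linarith
  obtain ⟨k2, k3, k4, k5⟩ := hX2 X (by
    have h7 : X2 ≤ ⌈X2⌉₊ := Nat.le_ceil _
    have h8 : ((⌈X2⌉₊ : ℕ) : ℝ) ≤ M := by
      have : ⌈X2⌉₊ ≤ M := by omega
      exact_mod_cast this
    linarith)
  obtain ⟨hll0, hlw, hwzL⟩ := hwX X hMX hXup
  have hMXr : (M : ℝ) ≤ X ^ (1 / 1000 : ℝ) := by
    have h7 : ((M : ℝ) ^ 1000) ^ (1 / 1000 : ℝ) = M := by
      rw [← Real.rpow_natCast, ← Real.rpow_mul hM0.le]
      norm_num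
    rw [← h7]
    exact Real.rpow_le_rpow (by positivity) hMX1000 (by norm_num)
  obtain ⟨L, hL⟩ : ∃ L : ℝ, L = Real.log X := ⟨_, rfl⟩
  rw [← hL] at k3 k4
  have hcc : 0 < c5 * c6 := mul_pos hc5 hc6
  have hL1 : 100 ≤ L := by
    have : 0 ≤ 80000 * (Kb : ℝ) ^ 2 + 4 / (c5 * c6) := by positivity
    linarith
  have hLKb : 80000 * (Kb : ℝ) ^ 2 ≤ L := by
    have : 0 ≤ 4 / (c5 * c6) := by positivity
    linarith
  have hLcc : 4 / (c5 * c6) ≤ L := by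
    have : 0 ≤ 80000 * (Kb : ℝ) ^ 2 := by positivity
    linarith
  have hL0 : 0 < L := by linarith
  -- the modulus `Q`
  obtain ⟨Q, hQ⟩ : ∃ Q : ℕ, Q = M ^ 4 := ⟨_, rfl⟩
  have hQr : ((Q : ℕ) : ℝ) = (M : ℝ) ^ 4 := by rw [hQ]; push_cast; rfl
  have hQM : M ≤ Q := by rw [hQ]; exact Nat.le_self_pow (by norm_num) M
  have hQ3 : 3 ≤ Q := hM3.trans hQM
  have hQX : (Q : ℝ) ≤ X := by
    rw [hQr]
    exact (pow_le_pow_right₀ (by linarith) (by norm_num)).trans hMX1000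
  have hQA1 : (Q : ℝ) ^ A1' ≤ X := by
    rw [hQr, ← pow_mul]
    exact (pow_le_pow_right₀ (by linarith) (by omega)).trans hXlow
  have hQA2 : X ≤ (Q : ℝ) ^ A2 := by
    rw [hQr, ← pow_mul]
    exact hXup
  obtain ⟨W, hW⟩ : ∃ W : ℕ, W = WT M T0 := ⟨_, rfl⟩
  rw [← hW]
  have hWpos : 0 < W := by rw [hW]; exact WT_pos M T0
  have hWM : W ≤ M := by rw [hW]; exact WT_le M (by omega) T0
  have hWr : (0 : ℝ) < W := by exact_mod_cast hWpos
  have hapos : ∀ j, 0 < a j := fun j => (hab j).1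
  have haX : ∀ j, (a j : ℝ) ≤ X ^ (1 / 1000 : ℝ) := fun j =>
    le_trans (by exact_mod_cast haM j) hMXr
  have hcopab : ∀ j, (b j).Coprime (a j) := fun j => adm_coprime hadm j
  -- the level
  obtain ⟨J, hJ1, hJ2, hJ3⟩ := J_exists Kb hKb1 X (by linarith) (by rw [← hL]; nlinarith)
  rw [← hL] at hJ2 hJ3
  obtain ⟨z, hz⟩ : ∃ z : ℕ, z = 2 ^ 2 ^ J := ⟨_, rfl⟩
  obtain ⟨D, hD⟩ : ∃ D : ℕ, D = (2 ^ 2 ^ J) ^ (C * bb) := ⟨_, rfl⟩
  have hDX : (D : ℝ) ≤ X ^ (1 / 100 : ℝ) := by rw [hD, ← hKb]; exact hJ1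
  have hzD : z ≤ D := by
    rw [hz, hD, ← hKb]
    exact Nat.le_self_pow (by omega) _
  have hzX : (z : ℝ) ≤ X ^ (1 / 100 : ℝ) := le_trans (by exact_mod_cast hzD) hDX
  have hlogz : L / (200 * Kb) ≤ Real.log z := by rw [hz]; exact hJ2
  have hlz : 2 ≤ Real.log z := by
    refine le_trans ?_ hlogz
    rw [le_div_iff₀ (by positivity)]
    nlinarith
  have hz0 : (0 : ℝ) < z := by
    by_contra hcon
    push Not at hcon
    have : (z : ℝ) = 0 := le_antisymm hcon (Nat.cast_nonneg z)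
    rw [this, Real.log_zero] at hlz
    linarith
  have hzL : L ≤ z := by
    rw [← Real.exp_log hz0]
    refine le_trans ?_ (Real.exp_le_exp.2 hlogz)
    have h1 := Real.quadratic_le_exp_of_nonneg (show 0 ≤ L / (200 * (Kb : ℝ)) by positivity)
    have h2 : L ≤ (L / (200 * (Kb : ℝ))) ^ 2 / 2 := by
      rw [div_pow, div_div, le_div_iff₀ (by positivity)]
      nlinarith
    have h3 : 0 ≤ L / (200 * (Kb : ℝ)) := by positivity
    linarith
  have hz3 : 3 ≤ z := by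
    have : (3 : ℝ) ≤ z := by linarith
    exact_mod_cast this
  obtain ⟨w, hw⟩ : ∃ w : ℕ, w = wM M := ⟨_, rfl⟩
  rw [← hw] at hw3 hlw hwzL
  have hwz : w ≤ z := by
    have h1 : (w : ℝ) ≤ Real.log M / 2 := by rw [hw]; exact Nat.floor_le (by linarith [Real.log_nonneg (show (1:ℝ) ≤ M by linarith)])
    have h2 : Real.log M ≤ L := by rw [hL]; exact Real.log_le_log hM0 hMX
    have h3 : (w : ℝ) ≤ z := by linarith
    exact_mod_cast h3
  have hwbig : 4 * k + 4 + bb ≤ w := by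
    rw [hw]
    apply Nat.le_floor
    push_cast at hlogM ⊢
    linarith
  obtain ⟨Em, hEm⟩ : ∃ Em : Finset ℕ, Em = Sb Q ∪ (Dsc a b).primeFactors := ⟨_, rfl⟩
  have hDne := Dsc_ne hadm hapos hinj
  obtain ⟨P, hP⟩ : ∃ P : Finset ℕ, P = PS z w Em := ⟨_, rfl⟩
  obtain ⟨Eb, hEb⟩ : ∃ Eb : Finset ℕ, Eb = EB z w T0 Em := ⟨_, rfl⟩
  have hPok : POK a b i J bb W P := by
    rw [hP, hW, hz]
    exact PS_POK i hw (by omega) hDne (by rw [hEm]; exact subset_union_right)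
  have hPprime : ∀ p ∈ P, p.Prime := hPok.pr
  have hPmem : ∀ p ∈ P, (p ≤ z ∧ p.Prime) ∧ w < p ∧ p ∉ Em := fun p hp => mem_PS.1 (hP ▸ hp)
  have hcardOm : ∀ p ∈ P, (Om a b i p).card + 1 ≤ k := fun p hp => Om_card i (hPprime p hp) (hPok.na p hp)
  -- Euler products
  obtain ⟨PW, hPW⟩ : ∃ PW : Finset ℕ, PW = Pz w \ T0 := ⟨_, rfl⟩
  have hPWp : ∀ p ∈ PW, p.Prime := fun p hp => by
    rw [hPW] at hp
    exact (mem_Pz.1 (Finset.mem_sdiff.1 hp).1).2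
  have hEbp : ∀ p ∈ Eb, p.Prime := fun p hp => (mem_EB.1 (hEb ▸ hp)).1.2
  have hEbsum : ∑ p ∈ Eb, (1 : ℝ) / p ≤ CE := by
    refine hEbM X hMX hXup Eb T0 hEbp hT0 ?_ ?_
    · intro p hp hpw
      exact EB_le (hEb ▸ hp) (by rw [hw]; exact hpw)
    · have h1 := k2 Q a b hadm hab hinj haX hQ3 hQX
      refine le_trans ?_ h1
      have h2 : Eb.filter (fun p => zL X < p) ⊆ (EmP (Pz (zL X) ∪ Sb Q) a b).filter (fun p => zL X < p) := by
        intro p hp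
        rw [mem_filter] at hp ⊢
        refine ⟨?_, hp.2⟩
        have h3 := (mem_EB.1 (hEb ▸ hp.1)).2.2 (lt_of_le_of_lt hwzL hp.2)
        rw [hEm, mem_union] at h3
        unfold EmP
        rw [mem_union, mem_union]
        rcases h3 with h | h
        · exact Or.inl (Or.inr h)
        · exact Or.inr h
      exact_mod_cast card_le_card h2
  have hBEP0 : 0 < BE P := BE_pos hPprime
  have hBEW0 : 0 < BE PW := BE_pos hPWp
  have hBEE0 : 0 < BE Eb := BE_pos hEbp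
  have hBE : L * (BE P * BE PW) ≤ C7 := by
    have h1 : BE (Pz z) = BE P * BE PW * BE Eb := by
      rw [hP, hPW, hEb]
      exact BE_three hwz
    have h2 := hBEup z hz3
    have h3 : Real.exp (-CE - 4) ≤ BE Eb :=
      le_trans (Real.exp_le_exp.2 (by linarith)) (BE_ge hEbp)
    have h4 : BE P * BE PW * Real.exp (-CE - 4) ≤ c4 / Real.log z := by
      refine le_trans ?_ h2
      rw [h1]
      exact mul_le_mul_of_nonneg_left h3 (by positivity)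
    have h5 : c4 / Real.log z ≤ c4 * (200 * Kb) / L := by
      rw [div_le_div_iff₀ (by linarith) hL0]
      rw [div_le_iff₀ (by positivity)] at hlogz
      nlinarith
    have h6 : BE P * BE PW = (BE P * BE PW * Real.exp (-CE - 4)) * Real.exp (CE + 4) := by
      rw [mul_assoc, ← Real.exp_add]
      norm_num
    rw [h6, hC7]
    calc L * (BE P * BE PW * Real.exp (-CE - 4) * Real.exp (CE + 4)) ≤
        L * (c4 * (200 * Kb) / L * Real.exp (CE + 4)) := by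
          apply mul_le_mul_of_nonneg_left _ hL0.le
          exact mul_le_mul_of_nonneg_right (h4.trans h5) (Real.exp_pos _).le
      _ = _ := by field_simp
  have hφW : (W.totient : ℝ) = W * BE PW := by
    rw [tot_BE, hW, WT_pf, hPW, hw]
  obtain ⟨V1, hV1⟩ : ∃ V1 : ℝ, V1 = ∏ p ∈ P, (1 - ((Om a b i p).card : ℝ) * (1 / ((p : ℝ) - 1))) := ⟨_, rfl⟩
  obtain ⟨V2, hV2⟩ : ∃ V2 : ℝ, V2 = ∏ p ∈ P, (1 - (((Om a b i p).card : ℝ) + 1) * (1 / (p : ℝ))) := ⟨_, rfl⟩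
  have hV21 : V2 = V1 * BE P := by
    rw [hV1, hV2]
    unfold BE
    rw [← prod_mul_distrib]
    apply prod_congr rfl
    intro p hp
    exact (factor_id (by exact_mod_cast (hPprime p hp).one_lt)).symm
  have hlogzL : Real.log z ≤ L := by
    rw [hL]
    apply Real.log_le_log hz0
    refine hzX.trans ?_
    calc X ^ (1 / 100 : ℝ) ≤ X ^ (1 : ℝ) := Real.rpow_le_rpow_of_exponent_le hX1 (by norm_num)
      _ = X := Real.rpow_one X
  obtain ⟨hV1l, hV2l⟩ := hV1low z P (fun p => (Om a b i p).card) L hz3 hlogzL (fun p hp => by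
    obtain ⟨⟨h1, h2⟩, h3, h4⟩ := hPmem p hp
    exact ⟨h2, by omega, h1, hcardOm p hp⟩)
  rw [← hV1] at hV1l
  rw [← hV2] at hV2l
  have hV10 : 0 < V1 := lt_of_lt_of_le (by positivity) hV1l
  have hV20 : 0 < V2 := lt_of_lt_of_le (by positivity) hV2l
  refine ⟨P, ?_, ?_⟩
  · intro p hp
    obtain ⟨⟨h1, h2⟩, h3, h4⟩ := hPmem p hp
    refine ⟨h2, by rw [← hw]; exact h3, ?_⟩
    have h5 : (p : ℝ) ≤ z := by exact_mod_cast h1
    refine h5.trans (hzX.trans ?_)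
    calc X ^ (1 / 100 : ℝ) ≤ X ^ (1 : ℝ) := Real.rpow_le_rpow_of_exponent_le hX1 (by norm_num)
      _ = X := Real.rpow_one X
  intro a0 hcop hwn
  obtain ⟨P0, hP0⟩ : ∃ P0 : ℕ, P0 = (∏ j, a j) * ∏ p ∈ Sb Q, p := ⟨_, rfl⟩
  obtain ⟨Y, hY⟩ : ∃ Y : ℝ, Y = Real.exp (((l + sh (a i) : ℕ) : ℝ) / 2) := ⟨_, rfl⟩
  have hYeq : Y = X * Real.exp ((sh (a i) : ℝ) / 2) := by
    rw [hY, hXdef, ← Real.exp_add]
    congr 1
    push_cast
    ring
  have hY1 : (a i : ℝ) * X ≤ Y := by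
    rw [hYeq, mul_comm]
    exact mul_le_mul_of_nonneg_left (sh_low (hapos i)) hX0.le
  have hY2 : 3 * Y ≤ 6 * (a i * X) := by
    rw [hYeq]
    have := mul_le_mul_of_nonneg_left (sh_up (hapos i)) hX0.le
    linarith
  have har1 : (1 : ℝ) ≤ a i := by exact_mod_cast hapos i
  have hXY : X ≤ Y := le_trans (le_mul_of_one_le_left hX0.le har1) hY1
  have hYX : Y ≤ X ^ 2 := by
    rw [hYeq, sq]
    apply mul_le_mul_of_nonneg_left _ hX0.le
    refine (sh_up (hapos i)).trans ?_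
    have h1 : (a i : ℝ) ≤ M := by exact_mod_cast haM i
    have h2 : (M : ℝ) ^ 2 ≤ X := (pow_le_pow_right₀ (by linarith) (by omega)).trans hXlow
    have h3 : 2 * (M : ℝ) ≤ M ^ 2 := by
      rw [sq]
      exact mul_le_mul_of_nonneg_right (by linarith) hM0.le
    linarith
  have hpc : c5 * Y / ((a i * W).totient : ℝ) ≤ pc Y (a i * W) (a i * a0 + b i) := by
    have h1 := hwn
    unfold wn at h1
    rw [← hY, le_div_iff₀ (lt_of_lt_of_le hX0 hXY)] at h1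
    calc c5 * Y / ((a i * W).totient : ℝ) = c5 / ((a i * W).totient : ℝ) * Y := by ring
      _ ≤ _ := h1
  have hPP0 : ∀ p ∈ P, ¬ p ∣ W * P0 := by
    intro p hp hd
    have hpp := hPprime p hp
    rcases (Nat.Prime.dvd_mul hpp).1 hd with h | h
    · exact hPok.nW p hp h
    · rw [hP0] at h
      rcases (Nat.Prime.dvd_mul hpp).1 h with h | h
      · obtain ⟨j, _, hj⟩ := (Prime.dvd_finsetProd_iff hpp.prime _).1 h
        exact hPok.na p hp j hj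
      · have h1 := pf_prod (fun q hq => Sb_prime hq) hpp h
        apply (hPmem p hp).2.2
        rw [hEm]
        exact mem_union_left _ h1
  have hEbfin : ∀ r ∈ Eb, r.Prime ∧ r ≤ z ∧ ¬ r ∣ W ∧ r ∉ P := by
    intro r hr
    obtain ⟨⟨h1, h2⟩, h3, h4⟩ := mem_EB.1 (hEb ▸ hr)
    refine ⟨h2, h1, ?_, ?_⟩
    · intro hd
      have h5 : r ∈ W.primeFactors := Nat.mem_primeFactors.2 ⟨h2, hd, hWpos.ne'⟩
      rw [hW, WT_pf, ← hw, Finset.mem_sdiff, mem_Pz] at h5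
      exact h3 ⟨h5.1.1, h5.2⟩
    · intro hrP
      obtain ⟨_, h5, h6⟩ := hPmem r hrP
      exact h6 (h4 h5)
  have hcover : ∀ p : ℕ, p.Prime → p ≤ z → p ∈ P ∨ p ∣ W ∨ p ∈ Eb := by
    intro p hp hpz
    by_cases h1 : p ≤ w ∧ p ∉ T0
    · right; left
      have h5 : p ∈ W.primeFactors := by
        rw [hW, WT_pf, ← hw, Finset.mem_sdiff, mem_Pz]
        exact ⟨⟨h1.1, hp⟩, h1.2⟩
      exact Nat.dvd_of_mem_primeFactors h5
    · by_cases h2 : w < p ∧ p ∉ Em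
      · left
        rw [hP]
        exact mem_PS.2 ⟨⟨hpz, hp⟩, h2⟩
      · right; right
        rw [hEb]
        refine mem_EB.2 ⟨⟨hpz, hp⟩, h1, fun h3 => ?_⟩
        by_contra h4
        exact h2 ⟨h3, h4⟩
  have hWX : (W : ℝ) ≤ X ^ (1 / 1000 : ℝ) := le_trans (by exact_mod_cast hWM) hMXr
  refine cls_fin (Kb := Kb) (z := z) (D := D) (P0 := P0) hF a b i P Eb PW X Y L c5 c6 C7 CE K V1 V2 hc5 hc6 hbb hbb1 ?_
    hKb hKbr hC70 hCE0 hK hR1r (by omega) k5 hL hL1 hLcc k3 hab hb1 hcopab haX hWpos hWX hz hD hDX hzX hlogz hlz hz3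
    hJ3 hPok (fun p hp => (hPmem p hp).1.1) hEbfin hcover hEbsum hBEP0 hBEW0 hBE hφW hV1 hV2 hV21 hV1l hV10 hV20
    ?_ hPP0 hY1 hY2 hpc hcop
  · rw [hbb]
    calc k ≤ k + 1 := Nat.le_succ k
      _ ≤ C * (k + 1) := Nat.le_mul_of_pos_left _ (by omega)
  · intro B hB
    rw [hL]
    refine hrel' Q (by omega) X Y (a i) W P0 hQA1 hQA2 hXY hYX (hapos i) hWpos ?_ ?_ ?_ B hB
    · calc (a i * W) ^ 2 ≤ (M * M) ^ 2 := Nat.pow_le_pow_left (Nat.mul_le_mul (haM i) hWM) 2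
        _ = Q := by rw [hQ]; ring
    · rw [hP0]
      exact (dvd_prod_of_mem a (mem_univ i)).mul_right _
    · intro f hf p hp hpf
      rw [hP0]
      apply Dvd.dvd.mul_left
      exact dvd_prod_of_mem (fun q => q) (mem_Sb hf hp hpf)

end Pool.Agent.H92.F
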