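import Pool.Agent.H92.F.Up

set_option autoImplicit false

/-! The argument for one class. -/

open Finset Filter

namespace Pool.Agent.H92.F

open Pool.Agent.H262R3.Lk Pool.Agent.H378R2 Pool.Agent.H262R2.UM Pool.Agent.H262R2.UP

theorem markov (S : Finset ℕ) (w : ℕ → ℝ) (f : ℕ → ℕ) (Z1 Z2 : ℕ → Prop) [DecidablePred Z1] [DecidablePred Z2]
    (M1 K Lw : ℝ) (R1 : ℕ)
    (hw : ∀ m ∈ S, 0 ≤ w m ∧ w m ≤ Lw) (hLw : 0 < Lw) (hM : 0 ≤ M1) (hR0 : 0 < R1) (hR : 4 * K ≤ R1)
    (h1 : M1 ≤ ∑ m ∈ S, w m) (h2 : ∑ m ∈ S, w m * f m ≤ K * M1) (h3 : ∑ m ∈ S.filter Z1, w m ≤ M1 / 8)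
    (h4 : ∑ m ∈ S.filter Z2, w m ≤ M1 / 8) :
    M1 / (2 * Lw) ≤ #(S.filter (fun m => f m ≤ R1 ∧ ¬ Z1 m ∧ ¬ Z2 m)) := by
  have hRr : (0 : ℝ) < R1 := by exact_mod_cast hR0
  have h5 : ∑ m ∈ S.filter (fun m => ¬ f m ≤ R1), w m ≤ M1 / 4 := by
    have h6 : ∑ m ∈ S.filter (fun m => ¬ f m ≤ R1), w m * R1 ≤ ∑ m ∈ S, w m * f m := by
      calc ∑ m ∈ S.filter (fun m => ¬ f m ≤ R1), w m * R1 ≤ ∑ m ∈ S.filter (fun m => ¬ f m ≤ R1), w m * f m := by
            apply sum_le_sum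
            intro m hm
            rw [mem_filter, not_le] at hm
            exact mul_le_mul_of_nonneg_left (by exact_mod_cast hm.2.le) (hw m hm.1).1
        _ ≤ _ := by
            apply sum_le_sum_of_subset_of_nonneg (filter_subset _ _)
            intro m hm _
            exact mul_nonneg (hw m hm).1 (Nat.cast_nonneg _)
    rw [← sum_mul] at h6
    have h7 : (∑ m ∈ S.filter (fun m => ¬ f m ≤ R1), w m) * R1 ≤ M1 / 4 * R1 := by
      calc (∑ m ∈ S.filter (fun m => ¬ f m ≤ R1), w m) * R1 ≤ K * M1 := h6.trans h2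
        _ ≤ (R1 / 4) * M1 := mul_le_mul_of_nonneg_right (by linarith) hM
        _ = M1 / 4 * R1 := by ring
    exact le_of_mul_le_mul_right h7 hRr
  have h8 : ∑ m ∈ S, w m ≤ ∑ m ∈ S.filter (fun m => ¬ f m ≤ R1), w m + ∑ m ∈ S.filter Z1, w m +
      ∑ m ∈ S.filter Z2, w m + ∑ m ∈ S.filter (fun m => f m ≤ R1 ∧ ¬ Z1 m ∧ ¬ Z2 m), w m := by
    rw [sum_filter, sum_filter, sum_filter, sum_filter, ← sum_add_distrib, ← sum_add_distrib, ← sum_add_distrib]
    apply sum_le_sum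
    intro m hm
    have := (hw m hm).1
    by_cases c1 : f m ≤ R1 <;> by_cases c2 : Z1 m <;> by_cases c3 : Z2 m <;> simp [c1, c2, c3] <;> linarith
  have h9 : ∑ m ∈ S.filter (fun m => f m ≤ R1 ∧ ¬ Z1 m ∧ ¬ Z2 m), w m ≤
      #(S.filter (fun m => f m ≤ R1 ∧ ¬ Z1 m ∧ ¬ Z2 m)) * Lw := by
    rw [← nsmul_eq_mul]
    apply sum_le_card_nsmul
    intro m hm
    exact (hw m (mem_filter.1 hm).1).2
  rw [div_le_iff₀ (by positivity)]
  linarith

theorem geom_le (r E : ℕ) (hr : 2 ≤ r) : ∑ e ∈ Icc 1 E, (1 : ℝ) / (r : ℝ) ^ e ≤ 2 * (1 / (r : ℝ)) := by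
  have hr2 : (2 : ℝ) ≤ r := by exact_mod_cast hr
  have hr0 : (0 : ℝ) < r := by linarith
  have key : ∀ E : ℕ, ∑ e ∈ Icc 1 E, (1 : ℝ) / (r : ℝ) ^ e ≤ 2 * (1 / (r : ℝ)) - 1 / (r : ℝ) ^ E * (if E = 0 then 0 else 1) := by
    intro E
    induction E with
    | zero => simp
    | succ E ih =>
      rw [sum_Icc_succ_top (by omega)]
      rw [if_neg (Nat.succ_ne_zero E), mul_one]
      by_cases h : E = 0
      · subst h; simp; ring_nf; exact le_rfl
      · rw [if_neg h, mul_one] at ih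
        have h1 : 2 * (1 / (r : ℝ) ^ (E + 1)) ≤ 1 / (r : ℝ) ^ E := by
          rw [pow_succ, mul_one_div, div_le_div_iff₀ (by positivity) (by positivity)]
          have : 0 < (r : ℝ) ^ E := by positivity
          nlinarith
        linarith
  refine (key E).trans ?_
  have : 0 ≤ 1 / (r : ℝ) ^ E * (if E = 0 then 0 else 1) := by
    apply mul_nonneg (by positivity)
    split_ifs <;> norm_num
  linarith

/-- proper prime powers -/
theorem npp_sum (N : ℕ) : ∑ m ∈ (Icc 1 N).filter (fun m => ¬ m.Prime), ArithmeticFunction.vonMangoldt m ≤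
    (Nat.sqrt N : ℝ) * Real.log N := by
  classical
  set L := (Icc 1 (Nat.sqrt N)).filter Nat.Prime with hL
  have h1 := pp_sum N L (fun p hp => (mem_filter.1 hp).2)
  have h2 : ∑ m ∈ (Icc 1 N).filter (fun m => ¬ m.Prime), ArithmeticFunction.vonMangoldt m ≤
      ∑ m ∈ (Icc 1 N).filter (fun m => m.minFac ∈ L), ArithmeticFunction.vonMangoldt m := by
    have h3 : ∑ m ∈ (Icc 1 N).filter (fun m => ¬ m.Prime), ArithmeticFunction.vonMangoldt m =
        ∑ m ∈ ((Icc 1 N).filter (fun m => ¬ m.Prime)).filter (fun m => IsPrimePow m),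
          ArithmeticFunction.vonMangoldt m := by
      rw [sum_filter (s := (Icc 1 N).filter (fun m => ¬ m.Prime))]
      apply sum_congr rfl
      intro m _
      split_ifs with h
      · rfl
      · exact ArithmeticFunction.vonMangoldt_eq_zero_iff.2 h
    rw [h3]
    apply sum_le_sum_of_subset_of_nonneg _ (fun _ _ _ => ArithmeticFunction.vonMangoldt_nonneg)
    intro m hm
    rw [mem_filter, mem_filter, mem_Icc] at hm
    rw [mem_filter, mem_Icc, hL, mem_filter, mem_Icc]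
    have hp := Nat.minFac_prime hm.2.ne_one
    refine ⟨hm.1.1, ⟨hp.one_lt.le, ?_⟩, hp⟩
    rw [Nat.le_sqrt']
    exact (Nat.minFac_sq_le_self (by omega) hm.1.2).trans hm.1.1.2
  refine h2.trans (h1.trans ?_)
  apply mul_le_mul_of_nonneg_right _ (Real.log_natCast_nonneg N)
  have : #L ≤ Nat.sqrt N := by
    refine (card_filter_le _ _).trans ?_
    rw [Nat.card_Icc, Nat.add_sub_cancel]
  exact_mod_cast this

open Classical in
/-- the sifted set -/
noncomputable def S1 {k : ℕ} (a b : Fin k → ℕ) (i : Fin k) (W a0 : ℕ) (P : Finset ℕ) (N : ℕ) : Finset ℕ :=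
  (Icc 1 N).filter (fun m => m ≡ a i * a0 + b i [MOD a i * W] ∧ ∀ p ∈ P, m % p ∉ Om a b i p)

open Classical in
theorem core {k : ℕ} (a b : Fin k → ℕ) (i : Fin k) (W a0 : ℕ) (P Eb : Finset ℕ) (Y : ℝ) (z U R1 : ℕ)
    (M1 K α β CE ζ Lw : ℝ)
    (hab : ∀ j, 0 < a j ∧ b j ≤ a j) (hb1 : ∀ j, 1 ≤ b j) (hcop : ∀ j, (b j).Coprime (a j)) (hz : 1 < z)
    (hWcop : ∀ j, (a j * a0 + b j).Coprime W)
    (hEb : ∀ r ∈ Eb, r.Prime)
    (hcover : ∀ p : ℕ, p.Prime → p ≤ z → p ∈ P ∨ p ∣ W ∨ p ∈ Eb)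
    (hN : 1 ≤ ⌊3 * Y⌋₊) (hLw : Real.log (⌊3 * Y⌋₊ : ℕ) ≤ Lw) (hLw0 : 0 < Lw)
    (hM0 : 0 ≤ M1) (hR0 : 0 < R1) (hR : 4 * K ≤ R1) (hα : 0 ≤ α) (hβ : 0 ≤ β) (hζ : 0 ≤ ζ)
    (h1 : M1 ≤ ∑ m ∈ S1 a b i W a0 P ⌊3 * Y⌋₊, Phi (m / Y) * ArithmeticFunction.vonMangoldt m)
    (hup : ∀ j, j ≠ i → ∀ r ∈ Eb, ∀ e : ℕ, 1 ≤ e →
      ∑ m ∈ (S1 a b i W a0 P ⌊3 * Y⌋₊).filter (fun m => r ^ e ∣ a j * ((m - b i) / a i) + b j),
        ArithmeticFunction.vonMangoldt m ≤ α * (1 / (r : ℝ) ^ e) + β)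
    (hCE : ∑ r ∈ Eb, (1 : ℝ) / r ≤ CE)
    (hK : k * (α * (2 * CE) + #Eb * Nat.log 2 U * β) ≤ K * M1)
    (hZ : ∀ j, j ≠ i → ∀ r ∈ Eb,
      (#((S1 a b i W a0 P ⌊3 * Y⌋₊).filter (fun m => r ^ (Nat.log r U + 1) ∣ a j * ((m - b i) / a i) + b j)) : ℝ) ≤ ζ)
    (hZ2 : k * (#Eb * ζ) * Lw ≤ M1 / 8)
    (hpp : (Nat.sqrt ⌊3 * Y⌋₊ : ℝ) * Lw ≤ M1 / 8) :
    M1 / (2 * Lw) ≤ #((S1 a b i W a0 P ⌊3 * Y⌋₊).filter (fun m => m.Prime ∧ ∀ j, j ≠ i →
      (a j * ((m - b i) / a i) + b j).primeFactorsList.length ≤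
        R1 + Nat.log z (a j * ((m - b i) / a i) + b j))) := by
  set N := ⌊3 * Y⌋₊ with hNdef
  set S := S1 a b i W a0 P N with hS
  set w : ℕ → ℝ := fun m => Phi (m / Y) * ArithmeticFunction.vonMangoldt m with hw
  set V : Fin k → ℕ → ℕ := fun j m => a j * ((m - b i) / a i) + b j with hV
  set f : ℕ → ℕ := fun m => ∑ j ∈ univ.erase i, ∑ r ∈ Eb, #((Icc 1 (Nat.log r U)).filter (fun e => r ^ e ∣ V j m)) with hf
  have hmem : ∀ m ∈ S, (1 ≤ m ∧ m ≤ N) ∧ m ≡ a i * a0 + b i [MOD a i * W] ∧ ∀ p ∈ P, m % p ∉ Om a b i p := by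
    intro m hm
    rw [hS, S1, mem_filter, mem_Icc] at hm
    exact hm
  have hwΛ : ∀ m, w m ≤ ArithmeticFunction.vonMangoldt m := by
    intro m
    have h2 : Phi (m / Y) ≤ 1 := LSBV.Phi_le_one _
    calc w m = Phi (m / Y) * ArithmeticFunction.vonMangoldt m := rfl
      _ ≤ 1 * ArithmeticFunction.vonMangoldt m := mul_le_mul_of_nonneg_right h2 ArithmeticFunction.vonMangoldt_nonneg
      _ = _ := one_mul _
  have hw0 : ∀ m, 0 ≤ w m := fun m => mul_nonneg (le_max_left _ _) ArithmeticFunction.vonMangoldt_nonneg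
  have hwL : ∀ m ∈ S, w m ≤ Lw := by
    intro m hm
    obtain ⟨⟨h2, h3⟩, _⟩ := hmem m hm
    refine (hwΛ m).trans (ArithmeticFunction.vonMangoldt_le_log.trans ((Real.log_le_log ?_ ?_).trans hLw))
    · exact_mod_cast h2
    · exact_mod_cast h3
  have hkr : ((univ.erase i : Finset (Fin k)).card : ℝ) ≤ k := by
    have := card_le_card (erase_subset i (univ : Finset (Fin k)))
    rw [card_univ, Fintype.card_fin] at this
    exact_mod_cast this
  -- the mean number of the bad prime factors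
  have h2 : ∑ m ∈ S, w m * f m ≤ K * M1 := by
    refine le_trans ?_ hK
    have e1 : ∑ m ∈ S, w m * f m = ∑ j ∈ univ.erase i, ∑ r ∈ Eb, ∑ e ∈ Icc 1 (Nat.log r U),
        ∑ m ∈ S.filter (fun m => r ^ e ∣ V j m), w m := by
      calc ∑ m ∈ S, w m * f m = ∑ m ∈ S, ∑ j ∈ univ.erase i, ∑ r ∈ Eb, ∑ e ∈ Icc 1 (Nat.log r U),
            (if r ^ e ∣ V j m then w m else 0) := by
            apply sum_congr rfl
            intro m _
            rw [hf]
            push_cast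
            rw [mul_sum]
            apply sum_congr rfl
            intro j _
            rw [mul_sum]
            apply sum_congr rfl
            intro r _
            rw [← sum_filter, sum_const, nsmul_eq_mul, mul_comm]
        _ = ∑ j ∈ univ.erase i, ∑ r ∈ Eb, ∑ e ∈ Icc 1 (Nat.log r U), ∑ m ∈ S,
            (if r ^ e ∣ V j m then w m else 0) := by
            rw [sum_comm]
            apply sum_congr rfl
            intro j _
            rw [sum_comm]
            apply sum_congr rfl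
            intro r _
            rw [sum_comm]
        _ = _ := by
            apply sum_congr rfl
            intro j _
            apply sum_congr rfl
            intro r _
            apply sum_congr rfl
            intro e _
            rw [sum_filter]
    rw [e1]
    have e2 : ∀ j ∈ (univ.erase i : Finset (Fin k)), ∑ r ∈ Eb, ∑ e ∈ Icc 1 (Nat.log r U),
        ∑ m ∈ S.filter (fun m => r ^ e ∣ V j m), w m ≤ α * (2 * CE) + #Eb * Nat.log 2 U * β := by
      intro j hj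
      have hji : j ≠ i := (mem_erase.1 hj).1
      calc ∑ r ∈ Eb, ∑ e ∈ Icc 1 (Nat.log r U), ∑ m ∈ S.filter (fun m => r ^ e ∣ V j m), w m ≤
          ∑ r ∈ Eb, (α * (2 * (1 / (r : ℝ))) + Nat.log 2 U * β) := by
            apply sum_le_sum
            intro r hr
            have hr2 := (hEb r hr).two_le
            calc ∑ e ∈ Icc 1 (Nat.log r U), ∑ m ∈ S.filter (fun m => r ^ e ∣ V j m), w m ≤
                ∑ e ∈ Icc 1 (Nat.log r U), (α * (1 / (r : ℝ) ^ e) + β) := by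
                  apply sum_le_sum
                  intro e he
                  refine (sum_le_sum fun m _ => hwΛ m).trans (hup j hji r hr e (mem_Icc.1 he).1)
              _ = α * ∑ e ∈ Icc 1 (Nat.log r U), (1 / (r : ℝ) ^ e) + Nat.log r U * β := by
                  rw [sum_add_distrib, mul_sum, sum_const, nsmul_eq_mul, Nat.card_Icc, Nat.add_sub_cancel]
              _ ≤ _ := by
                  apply add_le_add
                  · exact mul_le_mul_of_nonneg_left (geom_le r _ hr2) hα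
                  · apply mul_le_mul_of_nonneg_right _ hβ
                    have := Nat.log_anti_left (n := U) (by norm_num : 1 < 2) hr2
                    exact_mod_cast this
        _ = α * (2 * ∑ r ∈ Eb, 1 / (r : ℝ)) + #Eb * Nat.log 2 U * β := by
            rw [sum_add_distrib, ← mul_sum, ← mul_sum, sum_const, nsmul_eq_mul]
            ring
        _ ≤ _ := by
            have := mul_le_mul_of_nonneg_left hCE hα
            linarith
    refine (sum_le_card_nsmul _ _ _ e2).trans ?_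
    rw [nsmul_eq_mul]
    apply mul_le_mul_of_nonneg_right hkr
    have hCE0 : 0 ≤ CE := le_trans (sum_nonneg fun _ _ => by positivity) hCE
    positivity
  -- large powers of bad primes
  set Z1 : ℕ → Prop := fun m => ∃ j, j ≠ i ∧ ∃ r ∈ Eb, r ^ (Nat.log r U + 1) ∣ V j m with hZ1
  have h3 : ∑ m ∈ S.filter Z1, w m ≤ M1 / 8 := by
    refine le_trans ?_ hZ2
    have e1 : S.filter Z1 ⊆ (univ.erase i).biUnion (fun j => Eb.biUnion (fun r =>
        S.filter (fun m => r ^ (Nat.log r U + 1) ∣ V j m))) := by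
      intro m hm
      rw [mem_filter] at hm
      obtain ⟨hmS, j, hj, r, hr, hd⟩ := hm
      rw [mem_biUnion]
      refine ⟨j, mem_erase.2 ⟨hj, mem_univ _⟩, ?_⟩
      rw [mem_biUnion]
      exact ⟨r, hr, mem_filter.2 ⟨hmS, hd⟩⟩
    have e2 : (#(S.filter Z1) : ℝ) ≤ k * (#Eb * ζ) := by
      calc (#(S.filter Z1) : ℝ) ≤ ∑ j ∈ univ.erase i, ∑ r ∈ Eb,
            (#(S.filter (fun m => r ^ (Nat.log r U + 1) ∣ V j m)) : ℝ) := by
            have h5 := (card_le_card e1).trans (card_biUnion_le.trans (sum_le_sum fun j _ => card_biUnion_le))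
            exact_mod_cast h5
        _ ≤ ∑ j ∈ (univ.erase i : Finset (Fin k)), #Eb * ζ := by
            apply sum_le_sum
            intro j hj
            refine (sum_le_card_nsmul _ _ ζ (fun r hr => hZ j (mem_erase.1 hj).1 r hr)).trans (le_of_eq ?_)
            rw [nsmul_eq_mul]
        _ ≤ _ := by
            rw [sum_const, nsmul_eq_mul]
            exact mul_le_mul_of_nonneg_right hkr (by positivity)
    calc ∑ m ∈ S.filter Z1, w m ≤ #(S.filter Z1) * Lw := by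
          rw [← nsmul_eq_mul]
          exact sum_le_card_nsmul _ _ _ fun m hm => hwL m (mem_filter.1 hm).1
      _ ≤ k * (#Eb * ζ) * Lw := mul_le_mul_of_nonneg_right e2 hLw0.le
  have h4 : ∑ m ∈ S.filter (fun m => ¬ m.Prime), w m ≤ M1 / 8 := by
    refine le_trans ?_ hpp
    calc ∑ m ∈ S.filter (fun m => ¬ m.Prime), w m ≤ ∑ m ∈ S.filter (fun m => ¬ m.Prime),
          ArithmeticFunction.vonMangoldt m := sum_le_sum fun m _ => hwΛ m
      _ ≤ ∑ m ∈ (Icc 1 N).filter (fun m => ¬ m.Prime), ArithmeticFunction.vonMangoldt m := by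
          apply sum_le_sum_of_subset_of_nonneg _ (fun _ _ _ => ArithmeticFunction.vonMangoldt_nonneg)
          intro m hm
          rw [mem_filter] at hm
          rw [mem_filter, mem_Icc]
          exact ⟨(hmem m hm.1).1, hm.2⟩
      _ ≤ (Nat.sqrt N : ℝ) * Real.log N := npp_sum N
      _ ≤ _ := mul_le_mul_of_nonneg_left hLw (Nat.cast_nonneg _)
  have h5 := markov S w f Z1 (fun m => ¬ m.Prime) M1 K Lw R1 (fun m hm => ⟨hw0 m, hwL m hm⟩) hLw0 hM0 hR0 hR h1 h2 h3 h4
  refine h5.trans ?_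
  refine Nat.cast_le.2 (card_le_card ?_)
  · intro m hm
    rw [mem_filter, not_not] at hm
    obtain ⟨hmS, hfm, hZm, hpm⟩ := hm
    rw [mem_filter]
    refine ⟨hmS, hpm, fun j hj => ?_⟩
    obtain ⟨hm1, hm2, hm3⟩ := hmem m hmS
    obtain ⟨p1, p2⟩ := param (hab i).1 (hab i).2 hm1.1 hm2
    have hVne : V j m ≠ 0 := by
      have h7 : V j m = a j * ((m - b i) / a i) + b j := rfl
      have h8 := hb1 j
      omega
    have hOB := Omega_bound (V j m) z U hVne hz Eb (fun p hp hpd hpz => ?_) (fun r hr hd => hZm ⟨j, hj, r, hr, hd⟩)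
    · refine hOB.trans ?_
      apply Nat.add_le_add_right
      refine le_trans ?_ hfm
      rw [hf]
      exact single_le_sum (f := fun j => ∑ r ∈ Eb, #((Icc 1 (Nat.log r U)).filter (fun e => r ^ e ∣ V j m)))
        (fun _ _ => Nat.zero_le _) (mem_erase.2 ⟨hj, mem_univ _⟩)
    · rcases hcover p hp hpz with h | h | h
      · exact absurd (p1 ▸ Om_hit hp.pos hj hpd) (hm3 p h)
      · exfalso
        have h7 : a j * ((m - b i) / a i) + b j ≡ a j * a0 + b j [MOD W] :=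
          Nat.ModEq.add_right _ (Nat.ModEq.mul_left _ p2)
        have h8 : p ∣ a j * a0 + b j := (h7.dvd_iff h).1 hpd
        have h9 := Nat.dvd_gcd h8 h
        rw [hWcop j] at h9
        exact hp.one_lt.ne' (Nat.dvd_one.1 h9)
      · exact h

end Pool.Agent.H92.F
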