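import Pool.Agent.H92.F.Sets
import Pool.Agent.H92.F.Core

set_option autoImplicit false

/-! The bound for one class: the final computation. -/

open Finset Filter

namespace Pool.Agent.H92.F

open Pool.Agent.H262R3.Lk Pool.Agent.H378R2 Pool.Agent.H262R2.UM Pool.Agent.H262R2.UP

theorem rp_le {X : ℝ} (hX : 1 ≤ X) {s t : ℝ} (h : s ≤ t) : X ^ s ≤ X ^ t := Real.rpow_le_rpow_of_exponent_le hX h

theorem nl1 {a X Y : ℝ} (h1 : 1 ≤ a) (hX : 3 ≤ X) (h : a * X ≤ Y) : 1 ≤ 3 * Y := by nlinarith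

theorem nl2 {c L3 : ℝ} (hc : 0 < c) (hL : 0 < L3) (h : 4 / c ≤ L3) : 1 / L3 ≤ c / 4 := by
  rw [div_le_iff₀ hL]
  rw [div_le_iff₀ hc] at h
  linarith

theorem nl3 {L u : ℝ} (hL : 100 ≤ L) (hu : 0 ≤ u) : u * (2 * L) ≤ 2 * L ^ 2 * u := by
  have h1 : L ≤ L ^ 2 := by nlinarith
  have h2 := mul_le_mul_of_nonneg_left h1 hu
  linarith

theorem nl5 {n l2 L : ℝ} (hl : 0.6931471803 < l2) (hn : 0 ≤ n) (h : n * l2 ≤ 1 / 10 * L) (hL : 0 ≤ L) : n ≤ L := by
  nlinarith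

theorem nl6 {a X : ℝ} (ha : 0 ≤ a) (hX : 3 ≤ X) : a * (6 * X) + a ≤ a * (7 * X) := by nlinarith

theorem nl7 {u : ℝ} (hu : 6 ≤ u) : u + u ≤ u * u := by nlinarith

set_option maxHeartbeats 16000000 in
theorem cls_fin {C k bb Kb J z D W a0 R1 P0 : ℕ} (hF : FLLat C) (a b : Fin k → ℕ) (i : Fin k) (P Eb PW : Finset ℕ)
    (X Y L c5 c6 C7 CE K V1 V2 : ℝ) (hc5 : 0 < c5) (hc6 : 0 < c6)
    (hbb : bb = C * (k + 1)) (hbb1 : 1 ≤ bb) (hkbb : k ≤ bb) (hKb : Kb = C * bb) (hKbr : (1 : ℝ) ≤ Kb)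
    (hC70 : 0 < C7) (hCE0 : 0 ≤ CE) (hK : K = 144 * k * CE * C7 / c5 + 1) (hR1r : 4 * K ≤ R1) (hR10 : 0 < R1)
    (hX3 : 3 ≤ X) (hL : L = Real.log X) (hL1 : 100 ≤ L) (hLcc : 4 / (c5 * c6) ≤ L)
    (k3 : 4 * (200 * k + 200) / (c5 * c6) * L ^ (2 * k + 3) * X ^ (19 / 20 : ℝ) ≤ X ^ (99 / 100 : ℝ))
    (hab : ∀ j, 0 < a j ∧ b j ≤ a j) (hb1 : ∀ j, 1 ≤ b j) (hcopab : ∀ j, (b j).Coprime (a j))
    (haX : ∀ j, (a j : ℝ) ≤ X ^ (1 / 1000 : ℝ)) (hWpos : 0 < W) (hWX : (W : ℝ) ≤ X ^ (1 / 1000 : ℝ))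
    (hz : z = 2 ^ 2 ^ J) (hD : D = (2 ^ 2 ^ J) ^ (C * bb)) (hDX : (D : ℝ) ≤ X ^ (1 / 100 : ℝ))
    (hzX : (z : ℝ) ≤ X ^ (1 / 100 : ℝ)) (hlogz : L / (200 * Kb) ≤ Real.log z) (hlz : 2 ≤ Real.log z) (hz3 : 3 ≤ z)
    (hJ3 : (J : ℝ) + 2 ≤ L) (hPok : POK a b i J bb W P) (hPz : ∀ p ∈ P, p ≤ z)
    (hEb : ∀ r ∈ Eb, r.Prime ∧ r ≤ z ∧ ¬ r ∣ W ∧ r ∉ P)
    (hcover : ∀ p : ℕ, p.Prime → p ≤ z → p ∈ P ∨ p ∣ W ∨ p ∈ Eb)
    (hEbsum : ∑ p ∈ Eb, (1 : ℝ) / p ≤ CE) (hBEP0 : 0 < BE P) (hBEW0 : 0 < BE PW)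
    (hBE : L * (BE P * BE PW) ≤ C7) (hφW : (W.totient : ℝ) = W * BE PW)
    (hV1 : V1 = ∏ p ∈ P, (1 - ((Om a b i p).card : ℝ) * (1 / ((p : ℝ) - 1))))
    (hV2 : V2 = ∏ p ∈ P, (1 - (((Om a b i p).card : ℝ) + 1) * (1 / (p : ℝ)))) (hV21 : V2 = V1 * BE P)
    (hV1l : c6 / L ^ (2 * k) ≤ V1) (hV10 : 0 < V1) (hV20 : 0 < V2)
    (hBV : ∀ B : ℕ → ℕ, (∀ q, 1 ≤ q → (B q).Coprime (a i * W * q)) →
      ∑ q ∈ LSBV.QQ W P0 ⌊X ^ (1 / 100 : ℝ)⌋₊, (q.divisors.card : ℝ) ^ (2 * k + 4) * |ER Y (a i * W) q (B q)| ≤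
        Y / (((a i * W).totient : ℝ) * L ^ (2 * k + 4)))
    (hPP0 : ∀ p ∈ P, ¬ p ∣ W * P0) (hY1 : (a i : ℝ) * X ≤ Y) (hY2 : 3 * Y ≤ 6 * (a i * X))
    (hpc : c5 * Y / ((a i * W).totient : ℝ) ≤ pc Y (a i * W) (a i * a0 + b i))
    (hcop : ∀ j, (a j * a0 + b j).Coprime W) :
    c5 / (16 * C7) * (X / W) * ∏ p ∈ P, (1 - (nu a b p : ℝ) * (1 / (p : ℝ))) ≤
      #((range (⌊8 * X⌋₊ + 1)).filter (fun n => n ≡ a0 [MOD W] ∧ (a i * n + b i).Prime ∧
        ∀ j, (a j * n + b j).primeFactorsList.length ≤ R1 + 400 * Kb + 1)) := by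
  have hX0 : 0 < X := by linarith
  have hX1 : 1 ≤ X := by linarith
  have hL0 : 0 < L := by linarith
  have hai : 0 < a i := (hab i).1
  have hair : (0 : ℝ) < a i := by exact_mod_cast hai
  have hWr : (0 : ℝ) < W := by exact_mod_cast hWpos
  have hY0 : 0 < Y := lt_of_lt_of_le (by positivity) hY1
  obtain ⟨N, hN⟩ : ∃ N : ℕ, N = ⌊3 * Y⌋₊ := ⟨_, rfl⟩
  have hN3Y : (N : ℝ) ≤ 3 * Y := by rw [hN]; exact Nat.floor_le (by positivity)
  have hN6 : (N : ℝ) ≤ 6 * (a i * X) := hN3Y.trans hY2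
  have hN1 : 1 ≤ N := by
    rw [hN]
    apply Nat.le_floor
    push_cast
    have h1 : (1 : ℝ) ≤ a i := by exact_mod_cast hai
    exact nl1 h1 hX3 hY1
  have hlog6 : (6 : ℝ) ≤ X ^ (1 / 4 : ℝ) := by
    have h1 : Real.exp (L / 4) = X ^ (1 / 4 : ℝ) := by
      rw [Real.rpow_def_of_pos hX0, hL]; ring_nf
    rw [← h1]
    have := Real.add_one_le_exp (L / 4)
    linarith
  have haiX4 : (a i : ℝ) ≤ X ^ (1 / 4 : ℝ) := (haX i).trans (rp_le hX1 (by norm_num))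
  have hNX32 : (N : ℝ) ≤ X ^ (3 / 2 : ℝ) := by
    calc (N : ℝ) ≤ 6 * (a i * X) := hN6
      _ ≤ X ^ (1 / 4 : ℝ) * (X ^ (1 / 4 : ℝ) * X ^ (1 : ℝ)) := by
          rw [Real.rpow_one]
          apply mul_le_mul hlog6 _ (by positivity) (by positivity)
          exact mul_le_mul_of_nonneg_right haiX4 hX0.le
      _ = X ^ (3 / 2 : ℝ) := by rw [← Real.rpow_add hX0, ← Real.rpow_add hX0]; norm_num
  have hlogN : Real.log N ≤ 2 * L := by
    have h1 : Real.log N ≤ Real.log (X ^ (3 / 2 : ℝ)) := Real.log_le_log (by exact_mod_cast hN1) hNX32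
    rw [Real.log_rpow hX0, ← hL] at h1
    linarith
  have hlogN0 : 0 ≤ Real.log N := Real.log_natCast_nonneg N
  -- the basic quantities
  obtain ⟨F, hFd⟩ : ∃ F : ℝ, F = X / (W.totient : ℝ) := ⟨_, rfl⟩
  have hφ0 : (0 : ℝ) < W.totient := by exact_mod_cast Nat.totient_pos.2 hWpos
  have hF0 : 0 < F := by rw [hFd]; positivity
  have hFW : X / W = F * BE PW := by
    rw [hFd, hφW]
    field_simp
  obtain ⟨M1, hM1⟩ : ∃ M1 : ℝ, M1 = c5 / 4 * F * V1 := ⟨_, rfl⟩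
  have hM10 : 0 < M1 := by rw [hM1]; positivity
  have hFX : X ^ (99 / 100 : ℝ) ≤ F := by
    have h1 : (W.totient : ℝ) ≤ X ^ (1 / 100 : ℝ) := by
      calc (W.totient : ℝ) ≤ W := by exact_mod_cast Nat.totient_le W
        _ ≤ X ^ (1 / 1000 : ℝ) := hWX
        _ ≤ _ := rp_le hX1 (by norm_num)
    rw [hFd, le_div_iff₀ hφ0]
    calc X ^ (99 / 100 : ℝ) * W.totient ≤ X ^ (99 / 100 : ℝ) * X ^ (1 / 100 : ℝ) :=
          mul_le_mul_of_nonneg_left h1 (by positivity)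
      _ = X ^ (1 : ℝ) := by rw [← Real.rpow_add hX0]; norm_num
      _ = X := Real.rpow_one X
  have hM1big : (200 * k + 200) * L ^ 3 * X ^ (19 / 20 : ℝ) ≤ M1 := by
    have h1 : 4 * (200 * k + 200) / (c5 * c6) * L ^ (2 * k + 3) * X ^ (19 / 20 : ℝ) ≤ F := k3.trans hFX
    have h2 : c5 / 4 * F * (c6 / L ^ (2 * k)) ≤ M1 := by
      rw [hM1]
      exact mul_le_mul_of_nonneg_left hV1l (by positivity)
    refine le_trans ?_ h2
    have h3 : c5 / 4 * (4 * (200 * k + 200) / (c5 * c6) * L ^ (2 * k + 3) * X ^ (19 / 20 : ℝ)) * (c6 / L ^ (2 * k)) ≤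
        c5 / 4 * F * (c6 / L ^ (2 * k)) := by
      apply mul_le_mul_of_nonneg_right _ (by positivity)
      exact mul_le_mul_of_nonneg_left h1 (by positivity)
    refine le_trans (le_of_eq ?_) h3
    rw [pow_add]
    field_simp
  have hk0 : (0 : ℝ) ≤ k := Nat.cast_nonneg k
  have hL3 : L ≤ L ^ 3 := le_self_pow₀ (by linarith) (by norm_num)
  have hL23 : L ^ 2 ≤ L ^ 3 := pow_le_pow_right₀ (by linarith) (by norm_num)
  -- the lower bound
  obtain ⟨Bc, hBc1, hBc2⟩ := Bc_exists' Y (a i * W) (Nat.mul_pos hai hWpos)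
  have hcop1 : (a i * a0 + b i).Coprime (a i * W) := coprime_self_mul (hcopab i) (hcop i)
  have hlow := sieve_low hF k bb J bb P (Om a b i) hbb.ge hbb.ge (fun p hp => ⟨hPok.pr p hp, hPok.big p hp⟩)
    (fun p hp => ⟨by have := Om_card (b := b) i (hPok.pr p hp) (hPok.na p hp); omega, Om_zero (hPok.nd p hp), fun c hc => Om_lt hc⟩)
    Y (a i * W) (a i * a0 + b i) hcop1
    (fun p hp hd => by
      rcases (Nat.Prime.dvd_mul (hPok.pr p hp)).1 hd with h | h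
      · exact hPok.na p hp i h
      · exact hPok.nW p hp h) Bc hBc2
  have hS1 : S1 a b i W a0 P N = (Icc 1 ⌊3 * Y⌋₊).filter
      (fun m => m ≡ a i * a0 + b i [MOD a i * W] ∧ ∀ p ∈ P, m % p ∉ Om a b i p) := by
    rw [hN]
    unfold S1
    ext m
    simp only [mem_filter]
  rw [← hS1, ← hV1] at hlow
  obtain ⟨pcv, hpcv⟩ : ∃ pcv : ℝ, pcv = pc Y (a i * W) (a i * a0 + b i) := ⟨_, rfl⟩
  rw [← hpcv] at hlow hpc
  obtain ⟨G, hG⟩ : ∃ G : ℝ, G = Y / ((a i * W).totient : ℝ) := ⟨_, rfl⟩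
  have hφaW0 : (0 : ℝ) < (a i * W).totient := by exact_mod_cast Nat.totient_pos.2 (Nat.mul_pos hai hWpos)
  have hpcG : c5 * G ≤ pcv := by rw [hG, ← mul_div_assoc]; exact hpc
  have hG0 : 0 < G := by rw [hG]; positivity
  have hFG : F ≤ G := by
    rw [hFd, hG, div_le_div_iff₀ hφ0 hφaW0]
    calc X * ((a i * W).totient : ℝ) ≤ X * (a i * W.totient) :=
          mul_le_mul_of_nonneg_left (tot_mul_le (a i) W hai hWpos) hX0.le
      _ = (a i * X) * W.totient := by ring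
      _ ≤ Y * W.totient := mul_le_mul_of_nonneg_right hY1 hφ0.le
  have hM1low : M1 ≤ ∑ m ∈ S1 a b i W a0 P N, Phi (m / Y) * ArithmeticFunction.vonMangoldt m := by
    refine le_trans ?_ hlow
    have h1 : (1 / 2 : ℝ) ^ bb ≤ 1 / 2 := by
      calc (1 / 2 : ℝ) ^ bb ≤ (1 / 2 : ℝ) ^ 1 := pow_le_pow_of_le_one (by norm_num) (by norm_num) hbb1
        _ = 1 / 2 := pow_one _
    have h2 := err_low k D ⌊X ^ (1 / 100 : ℝ)⌋₊ (2 * k + 4) W P0 P (fun q => |ER Y (a i * W) q (Bc q)|)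
      (fun _ => abs_nonneg _) (fun p hp => ⟨hPok.pr p hp, hPP0 p hp⟩) (Nat.le_floor hDX) (by omega)
    rw [hD] at h2
    have h3 := h2.trans (hBV Bc hBc1)
    have h4 : Y / (((a i * W).totient : ℝ) * L ^ (2 * k + 4)) = G / L ^ (2 * k + 4) := by
      rw [hG, div_div]
    rw [h4] at h3
    have h5 : ((J : ℝ) + 2) * ∑ T ∈ P.powerset.filter (fun T : Finset ℕ => ∏ p ∈ T, p ≤ (2 ^ 2 ^ J) ^ (C * bb)),
            (k : ℝ) ^ T.card * |ER Y (a i * W) (∏ p ∈ T, p) (Bc (∏ p ∈ T, p))| ≤ L * (G / L ^ (2 * k + 4)) :=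
      mul_le_mul hJ3 h3 (sum_nonneg fun _ _ => mul_nonneg (by positivity) (abs_nonneg _)) hL0.le
    have hpc0 : 0 < pcv := lt_of_lt_of_le (by positivity) hpcG
    have h6 : (1 / 2) * (pcv * V1) ≤ (1 - (1 / 2 : ℝ) ^ bb) * (pcv * V1) :=
      mul_le_mul_of_nonneg_right (by linarith) (by positivity)
    have h7 : L * (G / L ^ (2 * k + 4)) ≤ pcv * V1 / 4 := by
      have e1 : c5 * G * (c6 / L ^ (2 * k)) ≤ pcv * V1 := mul_le_mul hpcG hV1l (by positivity) hpc0.le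
      have e2 : L * (G / L ^ (2 * k + 4)) ≤ c5 * G * (c6 / L ^ (2 * k)) / 4 := by
        have e3 : L * (G / L ^ (2 * k + 4)) = G / L ^ (2 * k) * (1 / L ^ 3) := by
          rw [show L ^ (2 * k + 4) = L ^ (2 * k) * L ^ 3 * L by ring]
          field_simp
        have e4 : c5 * G * (c6 / L ^ (2 * k)) / 4 = G / L ^ (2 * k) * (c5 * c6 / 4) := by
          field_simp
        rw [e3, e4]
        apply mul_le_mul_of_nonneg_left _ (by positivity)
        exact nl2 (mul_pos hc5 hc6) (by positivity) (hLcc.trans hL3)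
      linarith
    have h8 : M1 ≤ pcv * V1 / 4 := by
      rw [hM1]
      have : c5 * F ≤ pcv := (mul_le_mul_of_nonneg_left hFG hc5.le).trans hpcG
      have := mul_le_mul_of_nonneg_right this hV10.le
      linarith
    linarith
  -- the upper bounds
  have hXinv : ∀ r e : ℕ, 1 ≤ r → (N : ℝ) / ((a i * (W * r ^ e) : ℕ) : ℝ) ≤ 6 * (X / W) * (1 / (r : ℝ) ^ e) := by
    intro r e hr
    have hr0 : (0 : ℝ) < r := by exact_mod_cast hr
    push_cast
    rw [div_le_iff₀ (by positivity)]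
    refine hN6.trans (le_of_eq ?_)
    field_simp
  have hup : ∀ j, j ≠ i → ∀ r ∈ Eb, ∀ e : ℕ, 1 ≤ e →
      ∑ m ∈ (S1 a b i W a0 P N).filter (fun m => r ^ e ∣ a j * ((m - b i) / a i) + b j),
        ArithmeticFunction.vonMangoldt m ≤ (18 * C7 * F * V1) * (1 / (r : ℝ) ^ e) + 4 * L ^ 2 * X ^ (1 / 50 : ℝ) := by
    intro j hj r hr e he
    obtain ⟨hrp, hrz, hrW, hrP⟩ := hEb r hr
    have h1 := upper_one hF a b i j bb J bb W a0 P hbb1 hbb.ge hbb.ge hkbb hWpos hPok hai (hab i).2 (hcopab j)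
      N r e hrp he hrW hrP
    rw [← hV2, ← hD] at h1
    have e0 : ∑ m ∈ (S1 a b i W a0 P N).filter (fun m => r ^ e ∣ a j * ((m - b i) / a i) + b j),
        ArithmeticFunction.vonMangoldt m =
        ∑ m ∈ ((Icc 1 N).filter (fun m => m ≡ a i * a0 + b i [MOD a i * W] ∧ ∀ p ∈ P, m % p ∉ Om a b i p)).filter
      (fun m => r ^ e ∣ a j * ((m - b i) / a i) + b j), ArithmeticFunction.vonMangoldt m := by
      apply sum_congr _ (fun _ _ => rfl)
      unfold S1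
      ext m
      simp only [mem_filter]
    rw [e0]
    refine h1.trans ?_
    have hre : (0 : ℝ) ≤ 1 / (r : ℝ) ^ e := by positivity
    have h2 : 3 / 2 * ((N : ℝ) / ((a i * (W * r ^ e) : ℕ) : ℝ) * V2) ≤ 9 * (X / W) * V2 * (1 / (r : ℝ) ^ e) := by
      have := mul_le_mul_of_nonneg_right (hXinv r e hrp.one_lt.le) hV20.le
      linarith
    have h3 : Real.log N * (3 / 2 * ((N : ℝ) / ((a i * (W * r ^ e) : ℕ) : ℝ) * V2)) ≤ (18 * C7 * F * V1) * (1 / (r : ℝ) ^ e) := by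
      calc Real.log N * (3 / 2 * ((N : ℝ) / ((a i * (W * r ^ e) : ℕ) : ℝ) * V2)) ≤
            (2 * L) * (9 * (X / W) * V2 * (1 / (r : ℝ) ^ e)) := by
            apply mul_le_mul hlogN h2 (by positivity) (by positivity)
        _ = 18 * (L * (BE P * BE PW)) * F * V1 * (1 / (r : ℝ) ^ e) := by rw [hFW, hV21]; ring
        _ ≤ 18 * C7 * F * V1 * (1 / (r : ℝ) ^ e) := by gcongr
    have h4 : (D : ℝ) * D ≤ X ^ (1 / 50 : ℝ) := by
      calc (D : ℝ) * D ≤ X ^ (1 / 100 : ℝ) * X ^ (1 / 100 : ℝ) := mul_le_mul hDX hDX (Nat.cast_nonneg _) (by positivity)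
        _ = X ^ (1 / 50 : ℝ) := by rw [← Real.rpow_add hX0]; norm_num
    have h5 : Real.log N * (((J : ℝ) + 2) * ((D : ℝ) * D)) ≤ (2 * L) * (L * X ^ (1 / 50 : ℝ)) := by
      apply mul_le_mul hlogN _ (by positivity) (by positivity)
      exact mul_le_mul hJ3 h4 (by positivity) hL0.le
    have h6 : (#P : ℝ) ≤ X ^ (1 / 50 : ℝ) := by
      have e1 : P ⊆ Icc 1 z := fun p hp => mem_Icc.2 ⟨(hPok.pr p hp).one_lt.le, hPz p hp⟩
      have e2 := card_le_card e1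
      rw [Nat.card_Icc, Nat.add_sub_cancel] at e2
      have e3 : (#P : ℝ) ≤ z := by exact_mod_cast e2
      exact e3.trans (hzX.trans (rp_le hX1 (by norm_num)))
    have h7 : (#P : ℝ) * Real.log N ≤ X ^ (1 / 50 : ℝ) * (2 * L) := mul_le_mul h6 hlogN hlogN0 (by positivity)
    have h8 : X ^ (1 / 50 : ℝ) * (2 * L) ≤ 2 * L ^ 2 * X ^ (1 / 50 : ℝ) := nl3 hL1 (by positivity)
    have e9 : Real.log N * (3 / 2 * ((N : ℝ) / ((a i * (W * r ^ e) : ℕ) : ℝ) * V2) + ((J : ℝ) + 2) * ((D : ℝ) * D)) =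
      Real.log N * (3 / 2 * ((N : ℝ) / ((a i * (W * r ^ e) : ℕ) : ℝ) * V2)) +
        Real.log N * (((J : ℝ) + 2) * ((D : ℝ) * D)) := by ring
    rw [e9]
    linarith
  -- the auxiliary level
  obtain ⟨U, hU⟩ : ∃ U : ℕ, U = ⌊X ^ (1 / 10 : ℝ)⌋₊ := ⟨_, rfl⟩
  have hUX : (U : ℝ) ≤ X ^ (1 / 10 : ℝ) := by rw [hU]; exact Nat.floor_le (by positivity)
  have hUX2 : X ^ (1 / 10 : ℝ) < U + 1 := by rw [hU]; exact Nat.lt_floor_add_one _
  have hU1 : 1 ≤ U := by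
    rw [hU]
    apply Nat.le_floor
    push_cast
    calc (1 : ℝ) = X ^ (0 : ℝ) := (Real.rpow_zero X).symm
      _ ≤ _ := rp_le hX1 (by norm_num)
  have hlogU : (Nat.log 2 U : ℝ) ≤ L := by
    have h1 := Nat.pow_log_le_self 2 (by omega : U ≠ 0)
    have h2 : ((2 : ℝ)) ^ (Nat.log 2 U) ≤ X ^ (1 / 10 : ℝ) := by
      refine le_trans ?_ hUX
      exact_mod_cast h1
    have h3 := Real.log_le_log (by positivity) h2
    rw [Real.log_pow, Real.log_rpow hX0, ← hL] at h3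
    exact nl5 Real.log_two_gt_d9 (Nat.cast_nonneg _) h3 hL0.le
  have hEbc : (#Eb : ℝ) ≤ X ^ (1 / 100 : ℝ) := by
    have e1 : Eb ⊆ Icc 1 z := fun p hp => mem_Icc.2 ⟨(hEb p hp).1.one_lt.le, (hEb p hp).2.1⟩
    have e2 := card_le_card e1
    rw [Nat.card_Icc, Nat.add_sub_cancel] at e2
    have e3 : (#Eb : ℝ) ≤ z := by exact_mod_cast e2
    exact e3.trans hzX
  have hK1 : k * ((18 * C7 * F * V1) * (2 * CE) + #Eb * Nat.log 2 U * (4 * L ^ 2 * X ^ (1 / 50 : ℝ))) ≤ K * M1 := by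
    have h1 : k * ((18 * C7 * F * V1) * (2 * CE)) = (K - 1) * M1 := by
      rw [hK, hM1]
      field_simp
      ring
    have h2 : k * (#Eb * Nat.log 2 U * (4 * L ^ 2 * X ^ (1 / 50 : ℝ))) ≤ M1 := by
      calc (k : ℝ) * (#Eb * Nat.log 2 U * (4 * L ^ 2 * X ^ (1 / 50 : ℝ))) ≤
            k * (X ^ (1 / 100 : ℝ) * L * (4 * L ^ 2 * X ^ (1 / 50 : ℝ))) := by gcongr
        _ = 4 * k * L ^ 3 * (X ^ (1 / 100 : ℝ) * X ^ (1 / 50 : ℝ)) := by ring
        _ ≤ 4 * k * L ^ 3 * X ^ (19 / 20 : ℝ) := by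
            rw [← Real.rpow_add hX0]
            apply mul_le_mul_of_nonneg_left (rp_le hX1 (by norm_num)) (by positivity)
        _ ≤ (200 * k + 200) * L ^ 3 * X ^ (19 / 20 : ℝ) := by
            apply mul_le_mul_of_nonneg_right _ (by positivity)
            apply mul_le_mul_of_nonneg_right _ (by positivity)
            linarith
        _ ≤ M1 := hM1big
    have e3 : (k : ℝ) * ((18 * C7 * F * V1) * (2 * CE) + #Eb * Nat.log 2 U * (4 * L ^ 2 * X ^ (1 / 50 : ℝ))) =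
      k * ((18 * C7 * F * V1) * (2 * CE)) + k * (#Eb * Nat.log 2 U * (4 * L ^ 2 * X ^ (1 / 50 : ℝ))) := by ring
    rw [e3, h1]
    linarith
  have hZ : ∀ j, j ≠ i → ∀ r ∈ Eb,
      (#((S1 a b i W a0 P N).filter (fun m => r ^ (Nat.log r U + 1) ∣ a j * ((m - b i) / a i) + b j)) : ℝ) ≤
        6 * X ^ (9 / 10 : ℝ) + 1 := by
    intro j hj r hr
    obtain ⟨hrp, hrz, hrW, hrP⟩ := hEb r hr
    have h1 := upper_two a b i j W a0 P hai (hab i).2 (hcopab j) N r (Nat.log r U + 1) hrp (by omega)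
    have e0 : (S1 a b i W a0 P N).filter (fun m => r ^ (Nat.log r U + 1) ∣ a j * ((m - b i) / a i) + b j) =
        ((Icc 1 N).filter (fun m => m ≡ a i * a0 + b i [MOD a i * W] ∧ ∀ p ∈ P, m % p ∉ Om a b i p)).filter
      (fun m => r ^ (Nat.log r U + 1) ∣ a j * ((m - b i) / a i) + b j) := by
      unfold S1
      ext m
      simp only [mem_filter]
    rw [e0]
    refine h1.trans ?_
    have h2 : U < r ^ (Nat.log r U + 1) := Nat.lt_pow_succ_log_self hrp.one_lt U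
    have h3 : X ^ (1 / 10 : ℝ) ≤ ((r ^ (Nat.log r U + 1) : ℕ) : ℝ) := by
      have : ((U + 1 : ℕ) : ℝ) ≤ ((r ^ (Nat.log r U + 1) : ℕ) : ℝ) := by exact_mod_cast h2
      push_cast at this ⊢
      linarith
    have h4 : (N : ℝ) / ((a i * r ^ (Nat.log r U + 1) : ℕ) : ℝ) ≤ 6 * X ^ (9 / 10 : ℝ) := by
      have hp0 : (0 : ℝ) < X ^ (1 / 10 : ℝ) := by positivity
      have hr0 : (0 : ℝ) < ((r ^ (Nat.log r U + 1) : ℕ) : ℝ) := lt_of_lt_of_le hp0 h3
      rw [Nat.cast_mul, div_le_iff₀ (mul_pos hair hr0)]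
      calc (N : ℝ) ≤ 6 * (a i * X) := hN6
        _ = 6 * X ^ (9 / 10 : ℝ) * (a i * X ^ (1 / 10 : ℝ)) := by
            have : X = X ^ (9 / 10 : ℝ) * X ^ (1 / 10 : ℝ) := by
              rw [← Real.rpow_add hX0]; norm_num
            calc 6 * (a i * X) = 6 * (a i * (X ^ (9 / 10 : ℝ) * X ^ (1 / 10 : ℝ))) := by rw [← this]
              _ = _ := by ring
        _ ≤ 6 * X ^ (9 / 10 : ℝ) * (a i * ((r ^ (Nat.log r U + 1) : ℕ) : ℝ)) := by gcongr
    linarith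
  have hZ2 : k * (#Eb * (6 * X ^ (9 / 10 : ℝ) + 1)) * (2 * L) ≤ M1 / 8 := by
    have h1 : (1 : ℝ) ≤ X ^ (9 / 10 : ℝ) := by
      calc (1 : ℝ) = X ^ (0 : ℝ) := (Real.rpow_zero X).symm
        _ ≤ _ := rp_le hX1 (by norm_num)
    have h2 : k * (#Eb * (6 * X ^ (9 / 10 : ℝ) + 1)) * (2 * L) ≤ 14 * k * L * X ^ (91 / 100 : ℝ) := by
      calc (k : ℝ) * (#Eb * (6 * X ^ (9 / 10 : ℝ) + 1)) * (2 * L) ≤
            k * (X ^ (1 / 100 : ℝ) * (7 * X ^ (9 / 10 : ℝ))) * (2 * L) := by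
            gcongr
            linarith
        _ = 14 * k * L * (X ^ (1 / 100 : ℝ) * X ^ (9 / 10 : ℝ)) := by ring
        _ = 14 * k * L * X ^ (91 / 100 : ℝ) := by rw [← Real.rpow_add hX0]; norm_num
    have h3 : 14 * k * L * X ^ (91 / 100 : ℝ) ≤ (25 * k + 25) * L ^ 3 * X ^ (19 / 20 : ℝ) := by
      apply mul_le_mul _ (rp_le hX1 (by norm_num)) (by positivity) (by positivity)
      apply mul_le_mul (by linarith) hL3 hL0.le (by positivity)
    have h4 : (25 * k + 25) * L ^ 3 * X ^ (19 / 20 : ℝ) ≤ M1 / 8 := by linarith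
    linarith
  have hpp : (Nat.sqrt N : ℝ) * (2 * L) ≤ M1 / 8 := by
    have h1 : (Nat.sqrt N : ℝ) ≤ X ^ (3 / 4 : ℝ) := by
      have h2 : (Nat.sqrt N : ℝ) ^ 2 ≤ N := by exact_mod_cast Nat.sqrt_le' N
      have h3 : (Nat.sqrt N : ℝ) ^ 2 ≤ (X ^ (3 / 4 : ℝ)) ^ 2 := by
        refine h2.trans (hNX32.trans (le_of_eq ?_))
        rw [← Real.rpow_natCast, ← Real.rpow_mul hX0.le]
        norm_num
      exact le_of_sq_le_sq h3 (by positivity)
    have h4 : (Nat.sqrt N : ℝ) * (2 * L) ≤ (25 * k + 25) * L ^ 3 * X ^ (19 / 20 : ℝ) := by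
      calc (Nat.sqrt N : ℝ) * (2 * L) ≤ X ^ (3 / 4 : ℝ) * (2 * L) := by gcongr
        _ = 2 * L * X ^ (3 / 4 : ℝ) := by ring
        _ ≤ (25 * k + 25) * L ^ 3 * X ^ (19 / 20 : ℝ) := by
            apply mul_le_mul _ (rp_le hX1 (by norm_num)) (by positivity) (by positivity)
            apply mul_le_mul (by linarith) hL3 hL0.le (by positivity)
    have h5 : (25 * k + 25) * L ^ 3 * X ^ (19 / 20 : ℝ) ≤ M1 / 8 := by linarith
    linarith
  subst hN
  have hcore := core a b i W a0 P Eb Y z U R1 M1 K (18 * C7 * F * V1) (4 * L ^ 2 * X ^ (1 / 50 : ℝ)) CE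
    (6 * X ^ (9 / 10 : ℝ) + 1) (2 * L) hab hb1 hcopab (by omega) hcop (fun r hr => (hEb r hr).1) hcover hN1 hlogN
    (by linarith) hM10.le hR10 hR1r (by positivity) (by positivity) (by positivity) hM1low hup hEbsum hK1 hZ hZ2 hpp
  -- transfer to the arguments
  have hlast : c5 / (16 * C7) * (X / W) * ∏ p ∈ P, (1 - (nu a b p : ℝ) * (1 / (p : ℝ))) ≤ M1 / (2 * (2 * L)) := by
    have h1 : ∏ p ∈ P, (1 - (nu a b p : ℝ) * (1 / (p : ℝ))) ≤ V2 := by
      rw [hV2]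
      apply Finset.prod_le_prod
      · intro p hp
        have hpp := hPok.pr p hp
        have hp0 : (0 : ℝ) < p := by exact_mod_cast hpp.pos
        have h2 : nu a b p ≤ p := by
          unfold nu
          refine (card_filter_le _ _).trans ?_
          rw [card_range]
        have h3 : (nu a b p : ℝ) ≤ p := by exact_mod_cast h2
        rw [mul_one_div, sub_nonneg, div_le_one hp0]
        exact h3
      · intro p hp
        have h2 := nu_ge i (hPok.pr p hp) (hPok.na p hp) (hPok.nd p hp)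
        have h3 : ((Om a b i p).card : ℝ) + 1 ≤ nu a b p := by exact_mod_cast h2
        have h4 : (0 : ℝ) ≤ 1 / (p : ℝ) := by positivity
        have := mul_le_mul_of_nonneg_right h3 h4
        linarith
    have h2 : c5 / (16 * C7) * (X / W) * ∏ p ∈ P, (1 - (nu a b p : ℝ) * (1 / (p : ℝ))) ≤
        c5 / (16 * C7) * (X / W) * V2 := mul_le_mul_of_nonneg_left h1 (by positivity)
    refine h2.trans ?_
    rw [hFW, hV21, hM1]
    have h3 : c5 / (16 * C7) * (F * BE PW) * (V1 * BE P) = (c5 / 16 * F * V1) * ((BE P * BE PW) / C7) := by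
      field_simp
    have h4 : c5 / 4 * F * V1 / (2 * (2 * L)) = (c5 / 16 * F * V1) * (1 / L) := by
      field_simp
      ring
    rw [h3, h4]
    apply mul_le_mul_of_nonneg_left _ (by positivity)
    rw [div_le_div_iff₀ hC70 hL0]
    linarith
  refine hlast.trans (hcore.trans ?_)
  refine Nat.cast_le.2 ?_
  apply card_le_card_of_injOn (fun m => (m - b i) / a i)
  · intro m hm
    rw [mem_coe, mem_filter] at hm
    obtain ⟨hmS, hmp, hmR⟩ := hm
    have hmS' : (1 ≤ m ∧ m ≤ ⌊3 * Y⌋₊) ∧ m ≡ a i * a0 + b i [MOD a i * W] ∧ ∀ p ∈ P, m % p ∉ Om a b i p := by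
      rw [S1, mem_filter, mem_Icc] at hmS
      exact hmS
    obtain ⟨p1, p2⟩ := param hai (hab i).2 hmS'.1.1 hmS'.2.1
    have hn6 : (((m - b i) / a i : ℕ) : ℝ) ≤ 6 * X := by
      have h1 : a i * ((m - b i) / a i) ≤ m := by omega
      have h2 : (a i : ℝ) * (((m - b i) / a i : ℕ) : ℝ) ≤ 6 * (a i * X) := by
        have h3 : ((a i * ((m - b i) / a i) : ℕ) : ℝ) ≤ m := by exact_mod_cast h1
        have h4 : (m : ℝ) ≤ (⌊3 * Y⌋₊ : ℝ) := by exact_mod_cast hmS'.1.2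
        rw [Nat.cast_mul] at h3
        linarith
      have h3 : (a i : ℝ) * (((m - b i) / a i : ℕ) : ℝ) ≤ a i * (6 * X) := by linarith
      exact le_of_mul_le_mul_left h3 hair
    rw [mem_coe, mem_filter, mem_range]
    refine ⟨?_, p2, ?_, ?_⟩
    · apply Nat.lt_succ_of_le
      apply Nat.le_floor
      linarith
    · rw [p1]; exact hmp
    · intro j
      rcases eq_or_ne j i with rfl | hj
      · rw [p1, Nat.primeFactorsList_prime hmp]
        simp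
      · refine (hmR j hj).trans ?_
        have hVX : ((a j * ((m - b i) / a i) + b j : ℕ) : ℝ) ≤ X ^ (2 : ℝ) := by
          push_cast
          have h1 : (b j : ℝ) ≤ a j := by exact_mod_cast (hab j).2
          have h2 : (a j : ℝ) ≤ X ^ (1 / 4 : ℝ) := (haX j).trans (rp_le hX1 (by norm_num))
          have h3 : (0 : ℝ) ≤ a j := Nat.cast_nonneg _
          calc (a j : ℝ) * (((m - b i) / a i : ℕ) : ℝ) + b j ≤ a j * (6 * X) + a j := by
                have := mul_le_mul_of_nonneg_left hn6 h3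
                linarith
            _ ≤ a j * (7 * X) := nl6 h3 hX3
            _ ≤ X ^ (1 / 4 : ℝ) * ((X ^ (1 / 4 : ℝ) + X ^ (1 / 4 : ℝ)) * X) := by
                gcongr
                linarith
            _ ≤ X ^ (1 / 4 : ℝ) * ((X ^ (1 / 4 : ℝ) * X ^ (1 / 4 : ℝ)) * X ^ (1 : ℝ)) := by
                rw [Real.rpow_one]
                gcongr
                exact nl7 hlog6
            _ = X ^ (7 / 4 : ℝ) := by
                rw [← Real.rpow_add hX0, ← Real.rpow_add hX0, ← Real.rpow_add hX0]; norm_num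
            _ ≤ X ^ (2 : ℝ) := rp_le hX1 (by norm_num)
        have hVpos : 0 < a j * ((m - b i) / a i) + b j := by
          have := hb1 j
          omega
        have h1 := Nat.pow_log_le_self z hVpos.ne'
        have hz0 : (0 : ℝ) < z := by
          have : 0 < z := by omega
          exact_mod_cast this
        have h2 : (z : ℝ) ^ (Nat.log z (a j * ((m - b i) / a i) + b j)) ≤ X ^ (2 : ℝ) := by
          refine le_trans ?_ hVX
          exact_mod_cast h1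
        have h3 := Real.log_le_log (by positivity) h2
        rw [Real.log_pow, Real.log_rpow hX0, ← hL] at h3
        have h4 : (Nat.log z (a j * ((m - b i) / a i) + b j) : ℝ) ≤ 400 * Kb := by
          have h5 : (Nat.log z (a j * ((m - b i) / a i) + b j) : ℝ) * (L / (200 * Kb)) ≤ 2 * L :=
            le_trans (mul_le_mul_of_nonneg_left hlogz (Nat.cast_nonneg _)) h3
          have h6 : (Nat.log z (a j * ((m - b i) / a i) + b j) : ℝ) * (L / (200 * Kb)) =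
            (Nat.log z (a j * ((m - b i) / a i) + b j) : ℝ) * L / (200 * Kb) := by ring
          rw [h6, div_le_iff₀ (by positivity)] at h5
          have h7 : (Nat.log z (a j * ((m - b i) / a i) + b j) : ℝ) * L ≤ (400 * Kb) * L := by linarith
          exact le_of_mul_le_mul_right h7 hL0
        have h8 : Nat.log z (a j * ((m - b i) / a i) + b j) ≤ 400 * Kb := by exact_mod_cast h4
        omega
  · intro m hm m' hm' h
    rw [mem_coe, mem_filter] at hm hm'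
    have hmS : (1 ≤ m ∧ m ≤ ⌊3 * Y⌋₊) ∧ m ≡ a i * a0 + b i [MOD a i * W] ∧ ∀ p ∈ P, m % p ∉ Om a b i p := by
      have := hm.1
      rw [S1, mem_filter, mem_Icc] at this
      exact this
    have hmS' : (1 ≤ m' ∧ m' ≤ ⌊3 * Y⌋₊) ∧ m' ≡ a i * a0 + b i [MOD a i * W] ∧ ∀ p ∈ P, m' % p ∉ Om a b i p := by
      have := hm'.1
      rw [S1, mem_filter, mem_Icc] at this
      exact this
    obtain ⟨p1, _⟩ := param hai (hab i).2 hmS.1.1 hmS.2.1
    obtain ⟨p1', _⟩ := param hai (hab i).2 hmS'.1.1 hmS'.2.1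
    have h' : (m - b i) / a i = (m' - b i) / a i := h
    rw [← p1, ← p1', h']

end Pool.Agent.H92.F
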