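import Pool.Agent.H92.F.Base

set_option autoImplicit false

/-! The error terms, the choice of the level, and Euler products. -/

open Finset Filter

namespace Pool.Agent.H92.F

open Pool.Agent.H262R3.Lk Pool.Agent.H378R2 Pool.Agent.H262R2.UM Pool.Agent.H262R2.UP

theorem pf_prod' {T : Finset ℕ} (hT : ∀ p ∈ T, p.Prime) : (∏ p ∈ T, p).primeFactors = T :=
  Nat.primeFactors_prod hT

theorem inj_prod {T T' : Finset ℕ} (hT : ∀ p ∈ T, p.Prime) (hT' : ∀ p ∈ T', p.Prime)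
    (h : ∏ p ∈ T, p = ∏ p ∈ T', p) : T = T' := by
  rw [← pf_prod' hT, ← pf_prod' hT', h]

theorem card_div_prod {T : Finset ℕ} (hT : ∀ p ∈ T, p.Prime) : (∏ p ∈ T, p).divisors.card = 2 ^ T.card := by
  classical
  induction T using Finset.induction_on with
  | empty => simp
  | @insert p T hpT ih =>
    have hp := hT p (mem_insert_self _ _)
    have hcop : p.Coprime (∏ q ∈ T, q) := by
      apply Nat.Coprime.prod_right
      intro q hq
      rw [Nat.coprime_primes hp (hT q (mem_insert_of_mem hq))]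
      rintro rfl
      exact hpT hq
    rw [prod_insert hpT, hcop.card_divisors_mul, ih (fun q hq => hT q (mem_insert_of_mem hq)), card_insert_of_notMem hpT,
      hp.divisors, card_pair hp.one_lt.ne, pow_succ, mul_comm]

theorem sqf_prod {T : Finset ℕ} (hT : ∀ p ∈ T, p.Prime) : Squarefree (∏ p ∈ T, p) := by
  classical
  induction T using Finset.induction_on with
  | empty => simp
  | @insert p T hpT ih =>
    have hp := hT p (mem_insert_self _ _)
    have hcop : p.Coprime (∏ q ∈ T, q) := by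
      apply Nat.Coprime.prod_right
      intro q hq
      rw [Nat.coprime_primes hp (hT q (mem_insert_of_mem hq))]
      rintro rfl
      exact hpT hq
    rw [prod_insert hpT, Nat.squarefree_mul hcop]
    exact ⟨hp.prime.squarefree, ih (fun q hq => hT q (mem_insert_of_mem hq))⟩

theorem err_low (κ D R A W P0 : ℕ) (P : Finset ℕ) (err : ℕ → ℝ) (herr : ∀ q, 0 ≤ err q)
    (hP : ∀ p ∈ P, p.Prime ∧ ¬ p ∣ W * P0) (hDR : D ≤ R) (hA : κ ≤ A) :
    ∑ T ∈ P.powerset.filter (fun T : Finset ℕ => ∏ p ∈ T, p ≤ D), (κ : ℝ) ^ T.card * err (∏ p ∈ T, p) ≤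
      ∑ q ∈ LSBV.QQ W P0 R, (q.divisors.card : ℝ) ^ A * err q := by
  classical
  have h1 : ∀ T ∈ P.powerset.filter (fun T : Finset ℕ => ∏ p ∈ T, p ≤ D),
      (κ : ℝ) ^ T.card * err (∏ p ∈ T, p) ≤ ((∏ p ∈ T, p).divisors.card : ℝ) ^ A * err (∏ p ∈ T, p) := by
    intro T hT
    rw [mem_filter, mem_powerset] at hT
    apply mul_le_mul_of_nonneg_right _ (herr _)
    rw [card_div_prod (fun p hp => (hP p (hT.1 hp)).1)]
    push_cast
    rw [← pow_mul, mul_comm, pow_mul]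
    apply pow_le_pow_left₀ (Nat.cast_nonneg _)
    have h2 : κ ≤ 2 ^ A := hA.trans Nat.lt_two_pow_self.le
    exact_mod_cast h2
  refine (sum_le_sum h1).trans ?_
  have h2 : ∑ T ∈ P.powerset.filter (fun T : Finset ℕ => ∏ p ∈ T, p ≤ D),
      ((∏ p ∈ T, p).divisors.card : ℝ) ^ A * err (∏ p ∈ T, p) =
      ∑ q ∈ (P.powerset.filter (fun T : Finset ℕ => ∏ p ∈ T, p ≤ D)).image (fun T => ∏ p ∈ T, p),
        (q.divisors.card : ℝ) ^ A * err q := by
    rw [sum_image]
    intro T hT T' hT' h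
    rw [mem_coe, mem_filter, mem_powerset] at hT hT'
    exact inj_prod (fun p hp => (hP p (hT.1 hp)).1) (fun p hp => (hP p (hT'.1 hp)).1) h
  rw [h2]
  apply sum_le_sum_of_subset_of_nonneg
  · intro q hq
    rw [mem_image] at hq
    obtain ⟨T, hT, rfl⟩ := hq
    rw [mem_filter, mem_powerset] at hT
    rw [LSBV.mem_QQ]
    refine ⟨⟨prod_pos fun p hp => (hP p (hT.1 hp)).1.pos, hT.2.trans hDR⟩,
      sqf_prod (fun p hp => (hP p (hT.1 hp)).1), ?_⟩
    apply Nat.Coprime.prod_left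
    intro p hp
    exact (Nat.Prime.coprime_iff_not_dvd (hP p (hT.1 hp)).1).2 (hP p (hT.1 hp)).2
  · intro q _ _
    exact mul_nonneg (by positivity) (herr q)

theorem err_up (κ D : ℕ) (P : Finset ℕ) (hP : ∀ p ∈ P, p.Prime ∧ κ ≤ p) :
    ∑ T ∈ P.powerset.filter (fun T : Finset ℕ => ∏ p ∈ T, p ≤ D), (κ : ℝ) ^ T.card * 1 ≤ (D : ℝ) * D := by
  classical
  have h1 : ∀ T ∈ P.powerset.filter (fun T : Finset ℕ => ∏ p ∈ T, p ≤ D), (κ : ℝ) ^ T.card * 1 ≤ D := by
    intro T hT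
    rw [mem_filter, mem_powerset] at hT
    rw [mul_one]
    have h2 : κ ^ T.card ≤ ∏ p ∈ T, p := by
      rw [← prod_const]
      exact Finset.prod_le_prod' fun p hp => (hP p (hT.1 hp)).2
    exact_mod_cast h2.trans hT.2
  refine (sum_le_card_nsmul _ _ _ h1).trans ?_
  rw [nsmul_eq_mul]
  apply mul_le_mul_of_nonneg_right _ (Nat.cast_nonneg _)
  have h3 : (P.powerset.filter (fun T : Finset ℕ => ∏ p ∈ T, p ≤ D)).card ≤ (Icc 1 D).card := by
    apply card_le_card_of_injOn (fun T => ∏ p ∈ T, p)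
    · intro T hT
      rw [mem_coe, mem_filter, mem_powerset] at hT
      rw [mem_coe, mem_Icc]
      exact ⟨prod_pos fun p hp => (hP p (hT.1 hp)).1.pos, hT.2⟩
    · intro T hT T' hT' h
      rw [mem_coe, mem_filter, mem_powerset] at hT hT'
      exact inj_prod (fun p hp => (hP p (hT.1 hp)).1) (fun p hp => (hP p (hT'.1 hp)).1) h
  rw [Nat.card_Icc, Nat.add_sub_cancel] at h3
  exact_mod_cast h3

/-- the choice of the level -/
theorem J_exists (Kb : ℕ) (hK : 1 ≤ Kb) (X : ℝ) (hX : 1 < X) (hL : 200 * (Kb : ℝ) ≤ Real.log X) :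
    ∃ J : ℕ, (((2 ^ 2 ^ J) ^ Kb : ℕ) : ℝ) ≤ X ^ (1 / 100 : ℝ) ∧
      Real.log X / (200 * Kb) ≤ Real.log ((2 ^ 2 ^ J : ℕ) : ℝ) ∧ (J : ℝ) + 2 ≤ Real.log X := by
  have hKr : (1 : ℝ) ≤ Kb := by exact_mod_cast hK
  have hl2 := Real.log_two_gt_d9
  have hl2' := Real.log_two_lt_d9
  have hX0 : 0 < X := by linarith
  set L := Real.log X with hLdef
  have hL0 : 200 ≤ L := by linarith
  set t : ℝ := L / (100 * Kb * Real.log 2) with ht
  have hden : 0 < 100 * (Kb : ℝ) * Real.log 2 := by positivity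
  have ht1 : 1 ≤ t := by
    rw [ht, le_div_iff₀ hden]
    nlinarith
  have htf : 1 ≤ ⌊t⌋₊ := Nat.le_floor (by exact_mod_cast ht1)
  set J := Nat.log 2 ⌊t⌋₊ with hJ
  have h1 : 2 ^ J ≤ ⌊t⌋₊ := Nat.pow_log_le_self 2 (by omega)
  have h2 : ⌊t⌋₊ < 2 ^ (J + 1) := Nat.lt_pow_succ_log_self (by norm_num) _
  have h3 : ((2 : ℝ) ^ J) ≤ t := by
    have : ((2 ^ J : ℕ) : ℝ) ≤ (⌊t⌋₊ : ℝ) := by exact_mod_cast h1
    push_cast at this
    exact this.trans (Nat.floor_le (by linarith))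
  have h4 : t < 2 * (2 : ℝ) ^ J := by
    have h5 := Nat.lt_floor_add_one t
    have h6 : ((⌊t⌋₊ + 1 : ℕ) : ℝ) ≤ ((2 ^ (J + 1) : ℕ) : ℝ) := by exact_mod_cast h2
    push_cast at h6
    rw [pow_succ] at h6
    linarith
  have hlogz : Real.log ((2 ^ 2 ^ J : ℕ) : ℝ) = (2 : ℝ) ^ J * Real.log 2 := by
    push_cast
    rw [Real.log_pow]
    push_cast
    ring
  refine ⟨J, ?_, ?_, ?_⟩
  · have h7 : (((2 ^ 2 ^ J) ^ Kb : ℕ) : ℝ) = Real.exp (Kb * ((2 : ℝ) ^ J * Real.log 2)) := by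
      rw [← hlogz, Real.exp_nat_mul, Real.exp_log (by positivity)]
      push_cast
      ring
    rw [h7, Real.rpow_def_of_pos hX0]
    apply Real.exp_le_exp.2
    rw [← hLdef]
    have h8 : t * (100 * Kb * Real.log 2) = L := div_mul_cancel₀ _ hden.ne'
    have h9 : (2 : ℝ) ^ J * (100 * Kb * Real.log 2) ≤ L := by
      rw [← h8]
      exact mul_le_mul_of_nonneg_right h3 hden.le
    linarith
  · rw [hlogz, div_le_iff₀ (by positivity)]
    have h8 : t * (100 * Kb * Real.log 2) = L := div_mul_cancel₀ _ hden.ne'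
    have h9 : t * (100 * Kb * Real.log 2) ≤ 2 * (2 : ℝ) ^ J * (100 * Kb * Real.log 2) :=
      mul_le_mul_of_nonneg_right h4.le hden.le
    linarith
  · have h5 : (J : ℝ) ≤ (2 : ℝ) ^ J := by
      have : J ≤ 2 ^ J := Nat.lt_two_pow_self.le
      exact_mod_cast this
    have h6 : t ≤ L / 50 := by
      rw [ht]
      apply div_le_div_of_nonneg_left (by linarith) (by norm_num)
      nlinarith
    linarith

/-- the sum over the bad primes -/
theorem Eb_sum (A2 : ℕ) (Cd : ℝ) (hCd : 0 ≤ Cd) : ∃ CE : ℝ, 0 ≤ CE ∧ ∀ᶠ M : ℕ in atTop, ∀ X : ℝ, (M : ℝ) ≤ X →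
    X ≤ (M : ℝ) ^ (4 * A2) → ∀ Eb T0 : Finset ℕ, (∀ p ∈ Eb, p.Prime) → #T0 ≤ 1 →
    (∀ p ∈ Eb, p ≤ wM M → p ∈ T0) →
    (#(Eb.filter (fun p => zL X < p)) : ℝ) ≤ Cd * (Real.log X) ^ 8 → ∑ p ∈ Eb, (1 : ℝ) / p ≤ CE := by
  classical
  obtain ⟨C2, hC2⟩ := Pool.Agent.Erdos456.Mert.mertens_inv
  have hC20 : 0 ≤ C2 := (abs_nonneg _).trans (hC2 3 le_rfl)
  refine ⟨1 + (Real.log 80 + 2 * C2) + 1, by have := Real.log_nonneg (show (1:ℝ) ≤ 80 by norm_num); linarith, ?_⟩
  have hlog := Real.tendsto_log_atTop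
  have hT : Tendsto (fun M : ℕ => Real.log M) atTop atTop := hlog.comp tendsto_natCast_atTop_atTop
  filter_upwards [wM_facts A2, hT.eventually_ge_atTop (10 + 4 * Cd : ℝ),
    (hlog.comp hT).eventually_ge_atTop (10 : ℝ), eventually_ge_atTop 3] with M h1 h2 h3 h4
  intro X hX1 hX2 Eb T0 hEb hT0 hT0E hcard
  simp only [Function.comp] at h3
  obtain ⟨hw3, hf⟩ := h1
  obtain ⟨hll, hlw, hwz⟩ := hf X hX1 hX2
  have hMr : (3 : ℝ) ≤ M := by exact_mod_cast h4
  have hX0 : 0 < X := by linarith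
  set N := zL X with hN
  set w := wM M with hw
  set L := Real.log X with hL
  have hLM : Real.log M ≤ L := Real.log_le_log (by linarith) hX1
  have hL10 : 10 + 4 * Cd ≤ L := by linarith
  have hLpos : 0 < L := by linarith
  have hN1 : (N : ℝ) ≤ L ^ 20 := Nat.floor_le (by positivity)
  have hN2 : L ^ 20 < N + 1 := Nat.lt_floor_add_one _
  have hN3 : 3 ≤ N := hw3.trans hwz
  have hNr : (3 : ℝ) ≤ N := by exact_mod_cast hN3
  have hlN : Real.log N ≤ 20 * Real.log L := by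
    have : Real.log (L ^ 20) = 20 * Real.log L := by
      rw [Real.log_pow]; norm_num
    rw [← this]
    exact Real.log_le_log (by linarith) hN1
  have hlN1 : 1 ≤ Real.log N := by
    rw [Real.le_log_iff_exp_le (by linarith)]
    have := Real.exp_one_lt_d9
    linarith
  have hwr : (3 : ℝ) ≤ w := by exact_mod_cast hw3
  have hbig : ∀ p : ℕ, N < p → L ^ 20 ≤ p := by
    intro p hp
    have : (N : ℝ) + 1 ≤ p := by exact_mod_cast hp
    linarith
  -- split
  have hsplit : ∑ p ∈ Eb, (1 : ℝ) / p ≤ ∑ p ∈ T0.filter Nat.Prime, (1 : ℝ) / p +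
      (∑ p ∈ (Icc 1 N).filter Nat.Prime, (1 : ℝ) / p - ∑ p ∈ (Icc 1 w).filter Nat.Prime, (1 : ℝ) / p) +
      ∑ p ∈ Eb.filter (fun p => N < p), (1 : ℝ) / p := by
    have e1 : ∑ p ∈ Eb, (1 : ℝ) / p = ∑ p ∈ Eb.filter (fun p => p ≤ w), (1 : ℝ) / p +
        (∑ p ∈ (Eb.filter (fun p => ¬ p ≤ w)).filter (fun p => p ≤ N), (1 : ℝ) / p +
        ∑ p ∈ (Eb.filter (fun p => ¬ p ≤ w)).filter (fun p => ¬ p ≤ N), (1 : ℝ) / p) := by
      rw [sum_filter_add_sum_filter_not, sum_filter_add_sum_filter_not]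
    have e2 : ∑ p ∈ Eb.filter (fun p => p ≤ w), (1 : ℝ) / p ≤ ∑ p ∈ T0.filter Nat.Prime, (1 : ℝ) / p := by
      apply sum_le_sum_of_subset_of_nonneg _ (fun _ _ _ => by positivity)
      intro p hp
      rw [mem_filter] at hp
      exact mem_filter.2 ⟨hT0E p hp.1 hp.2, hEb p hp.1⟩
    have e3 : ∑ p ∈ (Eb.filter (fun p => ¬ p ≤ w)).filter (fun p => p ≤ N), (1 : ℝ) / p ≤
        ∑ p ∈ ((Icc 1 N).filter Nat.Prime) \ ((Icc 1 w).filter Nat.Prime), (1 : ℝ) / p := by
      apply sum_le_sum_of_subset_of_nonneg _ (fun _ _ _ => by positivity)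
      intro p hp
      rw [mem_filter, mem_filter] at hp
      rw [Finset.mem_sdiff, mem_filter, mem_filter, mem_Icc, mem_Icc]
      exact ⟨⟨⟨(hEb p hp.1.1).one_lt.le, hp.2⟩, hEb p hp.1.1⟩, fun h => hp.1.2 h.1.2⟩
    have e4 : ∑ p ∈ ((Icc 1 N).filter Nat.Prime) \ ((Icc 1 w).filter Nat.Prime), (1 : ℝ) / p =
        ∑ p ∈ (Icc 1 N).filter Nat.Prime, (1 : ℝ) / p - ∑ p ∈ (Icc 1 w).filter Nat.Prime, (1 : ℝ) / p := by
      rw [eq_sub_iff_add_eq]
      apply sum_sdiff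
      apply filter_subset_filter
      exact Icc_subset_Icc_right hwz
    have e5 : ∑ p ∈ (Eb.filter (fun p => ¬ p ≤ w)).filter (fun p => ¬ p ≤ N), (1 : ℝ) / p ≤
        ∑ p ∈ Eb.filter (fun p => N < p), (1 : ℝ) / p := by
      apply sum_le_sum_of_subset_of_nonneg _ (fun _ _ _ => by positivity)
      intro p hp
      rw [mem_filter, mem_filter] at hp
      exact mem_filter.2 ⟨hp.1.1, not_le.1 hp.2⟩
    linarith
  have s1 : ∑ p ∈ T0.filter Nat.Prime, (1 : ℝ) / p ≤ 1 := by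
    calc ∑ p ∈ T0.filter Nat.Prime, (1 : ℝ) / p ≤ #(T0.filter Nat.Prime) • (1 : ℝ) := by
          apply sum_le_card_nsmul
          intro p hp
          have : (1 : ℝ) ≤ p := by exact_mod_cast (mem_filter.1 hp).2.one_lt.le
          rw [div_le_one (by linarith)]
          exact this
      _ ≤ 1 := by
          rw [nsmul_eq_mul, mul_one]
          have := (card_filter_le T0 Nat.Prime).trans hT0
          exact_mod_cast this
  have s3 : ∑ p ∈ Eb.filter (fun p => N < p), (1 : ℝ) / p ≤ 1 := by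
    calc ∑ p ∈ Eb.filter (fun p => N < p), (1 : ℝ) / p ≤ #(Eb.filter (fun p => N < p)) • (1 / L ^ 20) := by
          apply sum_le_card_nsmul
          intro p hp
          rw [mem_filter] at hp
          exact one_div_le_one_div_of_le (by positivity) (hbig p hp.2)
      _ = (#(Eb.filter (fun p => N < p)) : ℝ) * (1 / L ^ 20) := by rw [nsmul_eq_mul]
      _ ≤ (Cd * L ^ 8) * (1 / L ^ 20) := by gcongr
      _ = Cd / L ^ 12 := by
          have : L ≠ 0 := by linarith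
          field_simp
      _ ≤ 1 := by
          rw [div_le_one (by positivity)]
          have : L ≤ L ^ 12 := le_self_pow₀ (by linarith) (by norm_num)
          linarith
  have m1 := (abs_le.1 (hC2 N hN3)).2
  have m2 := (abs_le.1 (hC2 w hw3)).1
  have hlL : 0 < Real.log L := by
    apply Real.log_pos; linarith
  have s2 : Real.log (Real.log N) - Real.log (Real.log w) ≤ Real.log 80 := by
    rw [← Real.log_div (by linarith) (by linarith)]
    apply Real.log_le_log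
    · apply div_pos (by linarith)
      linarith
    · rw [div_le_iff₀ (by linarith)]
      have : Real.log L / 4 ≤ Real.log w := hlw
      linarith
  linarith

end Pool.Agent.H92.F
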