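import Pool.Agent.H92.F.Cls
import Pool.Agent.H92.F.Classes

set_option autoImplicit false

/-! The sum over the classes. -/

open Finset Filter

namespace Pool.Agent.H92.F

open Pool.Agent.H262R3.Lk Pool.Agent.H378R2 Pool.Agent.H262R2.UM Pool.Agent.H262R2.UP

/-- the density up to `N` -/
noncomputable def dens {k : ℕ} (a b : Fin k → ℕ) (N : ℕ) : ℝ := ∏ p ∈ Pz N, (1 - (nu a b p : ℝ) * (1 / (p : ℝ)))

theorem fac_nonneg {k : ℕ} (a b : Fin k → ℕ) {p : ℕ} (hp : 0 < p) : 0 ≤ 1 - (nu a b p : ℝ) * (1 / (p : ℝ)) := by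
  have hp0 : (0 : ℝ) < p := by exact_mod_cast hp
  have h3 : (nu a b p : ℝ) ≤ p := by exact_mod_cast nu_le_self a b p
  rw [mul_one_div, sub_nonneg, div_le_one hp0]
  exact h3

theorem fac_le_one {k : ℕ} (a b : Fin k → ℕ) (p : ℕ) : 1 - (nu a b p : ℝ) * (1 / (p : ℝ)) ≤ 1 := by
  have : 0 ≤ (nu a b p : ℝ) * (1 / (p : ℝ)) := by positivity
  linarith

theorem dens_le {k : ℕ} (a b : Fin k → ℕ) (N : ℕ) (S T : Finset ℕ) (hS : S ⊆ Pz N) (hT : T ⊆ Pz N) (hST : Disjoint S T) :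
    dens a b N ≤ (∏ p ∈ S, (1 - (nu a b p : ℝ) * (1 / (p : ℝ)))) * ∏ p ∈ T, (1 - (nu a b p : ℝ) * (1 / (p : ℝ))) := by
  unfold dens
  rw [← prod_union hST, ← prod_sdiff (union_subset hS hT)]
  apply mul_le_of_le_one_left
  · apply prod_nonneg
    intro p hp
    exact fac_nonneg a b (mem_Pz.1 (union_subset hS hT hp)).2.pos
  · apply prod_le_one
    · intro p hp
      exact fac_nonneg a b (mem_Pz.1 (Finset.mem_sdiff.1 hp).1).2.pos
    · intro p _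
      exact fac_le_one a b p

theorem nl8 {A1 κ η : ℝ} (hκ : 0 < κ) (h3 : 16 * (A1 + 1) * κ ≤ η) : 8 * (A1 + 1) ≤ η / (2 * κ) := by
  rw [le_div_iff₀ (by positivity)]
  linarith

set_option maxHeartbeats 16000000 in
theorem mainEv (k : ℕ) : ∃ A R : ℕ, ∃ c : ℝ, 0 < c ∧ ∀ B : ℕ, ∃ M0 : ℕ, ∀ M : ℕ, M0 ≤ M → ∃ f1 : ℕ,
    (Real.log M) ^ B < f1 ∧ ∀ a b : Fin k → ℕ, Adm a b → (∀ j, 0 < a j ∧ b j ≤ a j) → (∀ j, 1 ≤ b j) →
      Function.Injective (fun j => (a j, b j)) → (∀ j, a j ≤ M) → ∀ i, ¬ f1 ∣ a i →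
      ∃ N : ℕ, M ≤ N ∧ (N : ℝ) ≤ 8 * (M : ℝ) ^ A ∧ c * N * dens a b N ≤
        #((range (N + 1)).filter (fun n => (a i * n + b i).Prime ∧ ∀ j, (a j * n + b j).primeFactorsList.length ≤ R)) := by
  classical
  obtain ⟨c1, δ0, hc1, hδ0, hδ01, hlow⟩ := h_low2
  obtain ⟨δ, c, hδ, hδ1, hc, hcomb⟩ := h_comb c1 hc1
  obtain ⟨η, R, c', hη, hηR, hc', hwin⟩ := h_win c hc
  obtain ⟨c5, hc5, hsel⟩ := h_sel η R c' hη hηR hc'
  obtain ⟨A1, hst⟩ := cls k c5 hc5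
  obtain ⟨κ, hκdef⟩ : ∃ κ : ℝ, κ = min (η / (16 * ((A1 : ℝ) + 1))) (min (δ / 32) (min (δ0 / 32) (η / 128))) := ⟨_, rfl⟩
  have hA1p : (0 : ℝ) < 16 * ((A1 : ℝ) + 1) := by positivity
  have hκ0 : 0 < κ := by
    rw [hκdef]
    exact lt_min (by positivity) (lt_min (by positivity) (lt_min (by positivity) (by positivity)))
  have hκ1 : κ ≤ η / (16 * ((A1 : ℝ) + 1)) := by rw [hκdef]; exact min_le_left _ _
  have hκ2 : κ ≤ δ / 32 := by rw [hκdef]; exact (min_le_right _ _).trans (min_le_left _ _)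
  have hκ3 : κ ≤ δ0 / 32 := by
    rw [hκdef]; exact (min_le_right _ _).trans ((min_le_right _ _).trans (min_le_left _ _))
  have hκ4 : κ ≤ η / 128 := by
    rw [hκdef]; exact (min_le_right _ _).trans ((min_le_right _ _).trans (min_le_right _ _))
  have hR0 : 0 < R := hη.trans hηR
  obtain ⟨A2, hA2⟩ : ∃ A2 : ℕ, A2 = ⌈R / (8 * κ)⌉₊ := ⟨_, rfl⟩
  have hA2r : R / (8 * κ) ≤ A2 := by rw [hA2]; exact Nat.le_ceil _
  obtain ⟨Rf, cf, hcf, M1, hst2⟩ := hst A2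
  refine ⟨4 * A2, Rf, c5 * cf / 8, by positivity, fun B => ?_⟩
  obtain ⟨M2, hexc⟩ := exc h_qs h_swq 1 B
  refine ⟨M1 + M2 + 3, fun M hM => ?_⟩
  have hM3 : 3 ≤ M := by omega
  have hMr : (3 : ℝ) ≤ M := by exact_mod_cast hM3
  have hM0 : (0 : ℝ) < M := by linarith
  have hL1 : 1 ≤ Real.log M := by
    rw [Real.le_log_iff_exp_le hM0]
    have := Real.exp_one_lt_d9
    linarith
  have hL0 : 0 < Real.log M := by linarith
  obtain ⟨z, hz⟩ : ∃ z : ℕ, z = M ^ 32 := ⟨_, rfl⟩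
  have hz32 : 32 ≤ z := by
    rw [hz]
    calc 32 ≤ 3 ^ 32 := by norm_num
      _ ≤ M ^ 32 := Nat.pow_le_pow_left hM3 32
  have hlogz : Real.log (z : ℝ) = 32 * Real.log M := by
    rw [hz]; push_cast; rw [Real.log_pow]; norm_num
  obtain ⟨q1, hq1, hor, hchar⟩ := hlow z hz32
  rw [hz] at hor
  obtain ⟨f1, hf1, hf1T⟩ := hexc M (by omega) q1 hq1 hor
  refine ⟨f1, hf1, fun a b hadm hab hb1 hinj haM i hfa => ?_⟩
  have hapos : ∀ j, 0 < a j := fun j => (hab j).1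
  obtain ⟨T, hTp, hTc, hTK, hq1T'⟩ := hf1T (fun _ => a i) (fun _ => ⟨hapos i, haM i⟩) (fun _ => hfa)
  have hq1T := hq1T' 0
  obtain ⟨W, hW⟩ : ∃ W : ℕ, W = WT M T := ⟨_, rfl⟩
  rw [← hW] at hq1T
  have hWpos : 0 < W := by rw [hW]; exact WT_pos M T
  have hWM : W ≤ M := by rw [hW]; exact WT_le M (by omega) T
  have hWr : (0 : ℝ) < W := by exact_mod_cast hWpos
  -- the classes
  obtain ⟨PW, hPW⟩ : ∃ PW : Finset ℕ, PW = Pz (wM M) \ T := ⟨_, rfl⟩
  have hPWp : ∀ p ∈ PW, p.Prime := fun p hp => by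
    rw [hPW] at hp
    exact (mem_Pz.1 (Finset.mem_sdiff.1 hp).1).2
  have hWprod : W = ∏ p ∈ PW, p := by rw [hW, hPW]; rfl
  obtain ⟨CL, hCL⟩ : ∃ CL : Finset ℕ, CL = (range W).filter (fun n => ∀ j, (a j * n + b j).Coprime W) := ⟨_, rfl⟩
  have hCLmem : ∀ n ∈ CL, n < W ∧ ∀ j, (a j * n + b j).Coprime W := fun n hn => by
    rw [hCL, mem_filter, mem_range] at hn
    exact hn
  have hCLc : (W : ℝ) * ∏ p ∈ PW, (1 - (nu a b p : ℝ) * (1 / (p : ℝ))) ≤ (#CL : ℝ) := by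
    have h1 := card_classes' a b PW hPWp
    rw [← hWprod] at h1
    rw [hCL]
    exact h1
  obtain ⟨cl, hcl⟩ : ∃ cl : Fin #CL → ℕ, cl = fun t => CL.orderEmbOfFin rfl t := ⟨_, rfl⟩
  have hclm : ∀ t, cl t ∈ CL := fun t => by rw [hcl]; exact CL.orderEmbOfFin_mem rfl t
  have hclinj : Function.Injective cl := by
    rw [hcl]
    exact (CL.orderEmbOfFin rfl).injective
  have hcop : ∀ t, (a i * cl t + b i).Coprime (a i * W) := fun t =>
    coprime_self_mul (adm_coprime hadm i) ((hCLmem _ (hclm t)).2 i)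
  have hqle : a i * W ≤ M ^ 2 := by
    calc a i * W ≤ M * M := Nat.mul_le_mul (haM i) hWM
      _ = M ^ 2 := by ring
  have hq1' : 1 ≤ a i * W := Nat.mul_pos (hapos i) hWpos
  have hq16 : (a i * W) ^ 16 ≤ z := by
    calc (a i * W) ^ 16 ≤ (M ^ 2) ^ 16 := Nat.pow_le_pow_left hqle 16
      _ = z := by rw [hz, ← pow_mul]
  have hq8 : (a i * W) ^ 8 ≤ z :=
    (Nat.pow_le_pow_right hq1' (by norm_num)).trans hq16
  obtain ⟨σ, hσdef⟩ : ∃ σ : ℝ, σ = κ / Real.log M := ⟨_, rfl⟩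
  have hσ0 : 0 < σ := by rw [hσdef]; positivity
  have hσz : σ * Real.log (z : ℝ) = 32 * κ := by
    rw [hlogz, hσdef]
    field_simp
  have hσδ : σ * Real.log (z : ℝ) ≤ δ := by rw [hσz]; linarith
  have hσδ0 : σ * Real.log (z : ℝ) ≤ δ0 := by rw [hσz]; linarith
  have hση : σ * Real.log (z : ℝ) ≤ η / 4 := by rw [hσz]; linarith
  have hσs : σ * (sh (a i) : ℝ) ≤ η / 2 := by
    have har : (1 : ℝ) ≤ a i := by exact_mod_cast hapos i
    have hlog : 0 ≤ Real.log (a i) := Real.log_nonneg har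
    have h1 : (sh (a i) : ℝ) < 2 * Real.log (a i) + 1 := Nat.ceil_lt_add_one (by positivity)
    have h2 : Real.log (a i) ≤ Real.log M := Real.log_le_log (by linarith) (by exact_mod_cast haM i)
    have h3 : (sh (a i) : ℝ) ≤ 3 * Real.log M := by linarith
    calc σ * (sh (a i) : ℝ) ≤ σ * (3 * Real.log M) := mul_le_mul_of_nonneg_left h3 hσ0.le
      _ = 3 * κ := by rw [hσdef]; field_simp
      _ ≤ η / 2 := by linarith
  have hwins : ∀ t, c' / ((a i * W).totient * σ ^ 3) ≤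
      ∑ k ∈ Icc ⌈η / σ⌉₊ ⌊R / σ⌋₊, (k : ℝ) ^ 2 * Real.exp (-(σ * k / 2)) * wn (a i * W) (a i * cl t + b i) k := by
    intro t
    apply hwin z (a i * W) (a i * cl t + b i) σ hz32 hq1' hq8 (hcop t) hσ0 hση
    apply hcomb z (a i * W) (a i * cl t + b i) σ hz32 hq1' hq8 (hcop t) hσ0 hσδ
    intro χ hχ
    exact hchar (a i * W) hq1' hq16 hq1T χ hχ σ hσ0 hσδ0
  obtain ⟨l, hl1, hl2, hcard⟩ := hsel #CL z σ (fun _ => a i * W) (fun t => a i * cl t + b i) (fun _ => sh (a i)) hz32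
    (fun t => ⟨hq1', hq8, hcop t⟩) hσ0 hση (fun _ => hσs) hwins
  have hlX1 : (M : ℝ) ^ (4 * A1) ≤ Real.exp ((l : ℝ) / 2) := by
    have h1 : (M : ℝ) ^ (4 * A1) = Real.exp ((4 * A1 : ℝ) * Real.log M) := by
      rw [← Real.rpow_natCast, Real.rpow_def_of_pos hM0]
      push_cast
      ring_nf
    rw [h1]
    apply Real.exp_le_exp.2
    have h2 : η / (2 * σ) = η / (2 * κ) * Real.log M := by
      rw [hσdef]; field_simp
    rw [h2] at hl1
    have h3 : 16 * ((A1 : ℝ) + 1) * κ ≤ η := by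
      rw [le_div_iff₀ hA1p] at hκ1
      linarith
    have h4 : 8 * ((A1 : ℝ) + 1) ≤ η / (2 * κ) := nl8 hκ0 h3
    have h5 : 8 * ((A1 : ℝ) + 1) * Real.log M ≤ l :=
      (mul_le_mul_of_nonneg_right h4 hL0.le).trans hl1
    linarith
  have hlX2 : Real.exp ((l : ℝ) / 2) ≤ (M : ℝ) ^ (4 * A2) := by
    have h1 : (M : ℝ) ^ (4 * A2) = Real.exp ((4 * A2 : ℝ) * Real.log M) := by
      rw [← Real.rpow_natCast, Real.rpow_def_of_pos hM0]
      push_cast
      ring_nf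
    rw [h1]
    apply Real.exp_le_exp.2
    have h2 : R / σ = 8 * (R / (8 * κ)) * Real.log M := by
      rw [hσdef]; field_simp
    rw [h2] at hl2
    have h5 : 8 * (R / (8 * κ)) * Real.log M ≤ 8 * A2 * Real.log M := by gcongr
    linarith
  obtain ⟨P, hPmem, hPcl⟩ := hst2 M (by omega) l T a b i hTc hadm hab hb1 hinj haM hlX1 hlX2
  rw [← hW] at hPcl
  obtain ⟨X, hX⟩ : ∃ X : ℝ, X = Real.exp ((l : ℝ) / 2) := ⟨_, rfl⟩
  rw [← hX] at hlX1 hlX2 hPmem hPcl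
  have hX0 : 0 < X := by rw [hX]; exact Real.exp_pos _
  have hMX : (M : ℝ) ≤ X := by
    -- `A1 ≥ 1000` is not recorded, use the growth of the window
    have h4 : 8 * ((A1 : ℝ) + 1) ≤ η / (2 * κ) := nl8 hκ0 (by
      rw [le_div_iff₀ hA1p] at hκ1
      linarith)
    have h2 : η / (2 * σ) = η / (2 * κ) * Real.log M := by
      rw [hσdef]; field_simp
    rw [h2] at hl1
    have h5 : 8 * ((A1 : ℝ) + 1) * Real.log M ≤ l :=
      (mul_le_mul_of_nonneg_right h4 hL0.le).trans hl1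
    rw [hX, ← Real.exp_log hM0]
    apply Real.exp_le_exp.2
    have h6 : 0 ≤ (A1 : ℝ) * Real.log M := by positivity
    linarith
  obtain ⟨N, hN⟩ : ∃ N : ℕ, N = ⌊8 * X⌋₊ := ⟨_, rfl⟩
  rw [← hN] at hPcl
  have hN1 : (N : ℝ) ≤ 8 * X := by rw [hN]; exact Nat.floor_le (by positivity)
  have hMN : M ≤ N := by
    rw [hN]
    apply Nat.le_floor
    linarith
  refine ⟨N, hMN, hN1.trans (by linarith), ?_⟩
  -- the good classes
  obtain ⟨GC, hGC⟩ : ∃ GC : Finset (Fin #CL), GC = univ.filter (fun t => c5 / (((a i * W).totient : ℕ) : ℝ) ≤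
    wn (a i * W) (a i * cl t + b i) (l + sh (a i))) := ⟨_, rfl⟩
  have hGCc : c5 * #CL ≤ (#GC : ℝ) := by rw [hGC]; exact hcard
  obtain ⟨CN, hCN⟩ : ∃ CN : Finset ℕ, CN = (range (N + 1)).filter (fun n => (a i * n + b i).Prime ∧
    ∀ j, (a j * n + b j).primeFactorsList.length ≤ Rf) := ⟨_, rfl⟩
  rw [← hCN]
  have hcls : ∀ t ∈ GC, cf * (X / W) * ∏ p ∈ P, (1 - (nu a b p : ℝ) * (1 / (p : ℝ))) ≤
      (#(CN.filter (fun n => n % W = cl t)) : ℝ) := by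
    intro t ht
    rw [hGC, mem_filter] at ht
    refine (hPcl (cl t) (hCLmem _ (hclm t)).2 ht.2).trans ?_
    refine Nat.cast_le.2 (card_le_card ?_)
    intro n hn
    rw [mem_filter] at hn
    rw [mem_filter, hCN, mem_filter]
    refine ⟨⟨hn.1, hn.2.2⟩, ?_⟩
    have h1 := hn.2.1
    unfold Nat.ModEq at h1
    rw [h1, Nat.mod_eq_of_lt (hCLmem _ (hclm t)).1]
  have hdisj : ∑ t ∈ GC, #(CN.filter (fun n => n % W = cl t)) ≤ #CN := by
    rw [← card_biUnion]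
    · apply card_le_card
      intro n hn
      rw [mem_biUnion] at hn
      obtain ⟨t, _, ht⟩ := hn
      exact (mem_filter.1 ht).1
    · intro t _ t' _ htt
      rw [Function.onFun, Finset.disjoint_left]
      intro n hn hn'
      apply htt
      apply hclinj
      rw [← (mem_filter.1 hn).2, ← (mem_filter.1 hn').2]
  have hVP0 : 0 ≤ ∏ p ∈ P, (1 - (nu a b p : ℝ) * (1 / (p : ℝ))) :=
    prod_nonneg fun p hp => fac_nonneg a b (hPmem p hp).1.pos
  have hsum : (#GC : ℝ) * (cf * (X / W) * ∏ p ∈ P, (1 - (nu a b p : ℝ) * (1 / (p : ℝ)))) ≤ (#CN : ℝ) := by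
    rw [← nsmul_eq_mul]
    refine (card_nsmul_le_sum _ _ _ hcls).trans ?_
    exact_mod_cast hdisj
  refine le_trans ?_ hsum
  have hdens := dens_le a b N PW P (by
      intro p hp
      rw [hPW, Finset.mem_sdiff, mem_Pz] at hp
      rw [mem_Pz]
      refine ⟨?_, hp.1.2⟩
      have h1 : (wM M : ℝ) ≤ Real.log M / 2 := Nat.floor_le (by linarith)
      have h2 : Real.log M ≤ M := (Real.log_le_sub_one_of_pos hM0).trans (by linarith)
      have h3 : (p : ℝ) ≤ wM M := by exact_mod_cast hp.1.1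
      have h4 : (p : ℝ) ≤ N := by
        have : (M : ℝ) ≤ N := by exact_mod_cast hMN
        linarith
      exact_mod_cast h4) (by
      intro p hp
      rw [mem_Pz]
      refine ⟨?_, (hPmem p hp).1⟩
      rw [hN]
      apply Nat.le_floor
      have := (hPmem p hp).2.2
      linarith) (by
      rw [Finset.disjoint_left]
      intro p hp hp'
      rw [hPW, Finset.mem_sdiff, mem_Pz] at hp
      have := (hPmem p hp').2.1
      omega)
  have hVW0 : 0 ≤ ∏ p ∈ PW, (1 - (nu a b p : ℝ) * (1 / (p : ℝ))) :=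
    prod_nonneg fun p hp => fac_nonneg a b (hPWp p hp).pos
  obtain ⟨VW, hVW⟩ : ∃ VW : ℝ, VW = ∏ p ∈ PW, (1 - (nu a b p : ℝ) * (1 / (p : ℝ))) := ⟨_, rfl⟩
  obtain ⟨VP, hVP⟩ : ∃ VP : ℝ, VP = ∏ p ∈ P, (1 - (nu a b p : ℝ) * (1 / (p : ℝ))) := ⟨_, rfl⟩
  rw [← hVW] at hVW0 hdens hCLc
  rw [← hVP] at hVP0 hdens ⊢
  calc c5 * cf / 8 * N * dens a b N ≤ c5 * cf / 8 * N * (VW * VP) := by
        apply mul_le_mul_of_nonneg_left hdens (by positivity)
    _ ≤ c5 * cf / 8 * (8 * X) * (VW * VP) := by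
        apply mul_le_mul_of_nonneg_right _ (mul_nonneg hVW0 hVP0)
        exact mul_le_mul_of_nonneg_left hN1 (by positivity)
    _ = (c5 * (W * VW)) * (cf * (X / W) * VP) := by
        field_simp
    _ ≤ (#GC : ℝ) * (cf * (X / W) * VP) := by
        apply mul_le_mul_of_nonneg_right _ (by positivity)
        exact (mul_le_mul_of_nonneg_left hCLc hc5.le).trans hGCc

end Pool.Agent.H92.F
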