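import Pool.Agent.H92.F.Up

set_option autoImplicit false

/-! The sets of primes and the Euler products. -/

open Finset Filter

namespace Pool.Agent.H92.F

open Pool.Agent.H262R3.Lk Pool.Agent.H378R2 Pool.Agent.H262R2.UM Pool.Agent.H262R2.UP

/-- the primes of the sieve -/
def PS (z w : ℕ) (Em : Finset ℕ) : Finset ℕ := (Pz z).filter (fun p => w < p ∧ p ∉ Em)

theorem mem_PS {z w p : ℕ} {Em : Finset ℕ} : p ∈ PS z w Em ↔ (p ≤ z ∧ p.Prime) ∧ w < p ∧ p ∉ Em := by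
  unfold PS
  rw [mem_filter, mem_Pz]

/-- the bad primes -/
def EB (z w : ℕ) (T0 Em : Finset ℕ) : Finset ℕ := Pz z \ ((Pz w \ T0) ∪ PS z w Em)

theorem mem_EB {z w p : ℕ} {T0 Em : Finset ℕ} : p ∈ EB z w T0 Em ↔
    (p ≤ z ∧ p.Prime) ∧ ¬ (p ≤ w ∧ p ∉ T0) ∧ (w < p → p ∈ Em) := by
  unfold EB
  rw [Finset.mem_sdiff, mem_union, Finset.mem_sdiff, mem_Pz, mem_Pz, mem_PS]
  constructor
  · rintro ⟨h1, h2⟩
    push Not at h2
    refine ⟨h1, ?_, ?_⟩
    · rintro ⟨h3, h4⟩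
      exact h4 (h2.1 ⟨h3, h1.2⟩)
    · intro h3
      exact h2.2 h1 h3
  · rintro ⟨h1, h2, h3⟩
    refine ⟨h1, ?_⟩
    rintro (⟨h4, h5⟩ | ⟨_, h5, h6⟩)
    · exact h2 ⟨h4.1, h5⟩
    · exact h6 (h3 h5)

theorem EB_le {z w p : ℕ} {T0 Em : Finset ℕ} (h : p ∈ EB z w T0 Em) (hp : p ≤ w) : p ∈ T0 := by
  by_contra h1
  exact (mem_EB.1 h).2.1 ⟨hp, h1⟩

theorem BE_three {z w : ℕ} {T0 Em : Finset ℕ} (hwz : w ≤ z) :
    BE (Pz z) = BE (PS z w Em) * BE (Pz w \ T0) * BE (EB z w T0 Em) := by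
  have hdis : Disjoint (Pz w \ T0) (PS z w Em) := by
    rw [Finset.disjoint_left]
    intro p hp hp'
    rw [Finset.mem_sdiff, mem_Pz] at hp
    rw [mem_PS] at hp'
    omega
  have hsub : (Pz w \ T0) ∪ PS z w Em ⊆ Pz z := by
    intro p hp
    rw [mem_union] at hp
    rw [mem_Pz]
    rcases hp with h | h
    · rw [Finset.mem_sdiff, mem_Pz] at h
      exact ⟨h.1.1.trans hwz, h.1.2⟩
    · exact (mem_PS.1 h).1
  rw [BE_sub hsub]
  unfold EB
  congr 1
  unfold BE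
  rw [prod_union hdis, mul_comm]

theorem PS_POK {k : ℕ} {a b : Fin k → ℕ} (i : Fin k) {J z0 w M : ℕ} {T0 Em : Finset ℕ} (hw : w = wM M) (hz0 : z0 ≤ w)
    (hD : Dsc a b ≠ 0) (hEm : (Dsc a b).primeFactors ⊆ Em) :
    POK a b i J z0 (WT M T0) (PS (2 ^ 2 ^ J) w Em) := by
  refine ⟨fun p hp => (mem_PS.1 hp).1.2, fun p hp => ?_, fun p hp hd => ?_, fun p hp j hd => ?_, fun p hp j hj hd => ?_⟩
  · have := mem_PS.1 hp
    exact ⟨by omega, this.1.1⟩
  · have h1 := mem_PS.1 hp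
    have h2 : p ∈ (WT M T0).primeFactors := Nat.mem_primeFactors.2 ⟨h1.1.2, hd, (WT_pos M T0).ne'⟩
    rw [WT_pf, Finset.mem_sdiff, mem_Pz] at h2
    omega
  · have h1 := mem_PS.1 hp
    apply h1.2.2
    apply hEm
    exact Nat.mem_primeFactors.2 ⟨h1.1.2, hd.trans (dvd_Dsc_a a b j), hD⟩
  · have h1 := mem_PS.1 hp
    apply h1.2.2
    apply hEm
    exact Nat.mem_primeFactors.2 ⟨h1.1.2, (Int.natCast_dvd.1 hd).trans (dvd_Dsc_r a b (Ne.symm hj)), hD⟩

/-- the local densities -/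
def nu {k : ℕ} (a b : Fin k → ℕ) (p : ℕ) : ℕ := #((range p).filter (fun n => ∃ j, p ∣ a j * n + b j))

theorem nu_ge {k : ℕ} {a b : Fin k → ℕ} (i : Fin k) {p : ℕ} (hp : p.Prime) (ha : ∀ j, ¬ p ∣ a j)
    (hd : ∀ j, j ≠ i → ¬ (p : ℤ) ∣ (a i : ℤ) * b j - a j * b i) : (Om a b i p).card + 1 ≤ nu a b p := by
  classical
  have : Fact p.Prime := ⟨hp⟩
  rw [← card_insert_of_notMem (Om_zero hd)]
  unfold nu
  have hai : (a i : ZMod p) ≠ 0 := fun h => ha i ((ZMod.natCast_eq_zero_iff _ _).1 h)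
  apply card_le_card_of_injOn (fun c : ℕ => (((c : ZMod p) - b i) * (a i : ZMod p)⁻¹).val)
  · intro c hc
    rw [mem_coe, mem_insert] at hc
    rw [mem_coe, mem_filter, mem_range]
    refine ⟨ZMod.val_lt _, ?_⟩
    set n := (((c : ZMod p) - b i) * (a i : ZMod p)⁻¹).val with hn
    have hncast : (n : ZMod p) = ((c : ZMod p) - b i) * (a i : ZMod p)⁻¹ := by
      rw [hn, ZMod.natCast_val, ZMod.cast_id]
    have h1 : (a i : ZMod p) * n + b i = c := by
      rw [hncast]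
      field_simp
      ring
    rcases hc with hc | hc
    · refine ⟨i, ?_⟩
      rw [← ZMod.natCast_eq_zero_iff]
      push_cast
      rw [h1, hc]
      simp
    · obtain ⟨h2, j, hj, h3⟩ := mem_filter.1 hc
      refine ⟨j, ?_⟩
      rw [← ZMod.natCast_eq_zero_iff]
      push_cast
      have h4 : ((a j : ZMod p) * c + ((a i : ZMod p) * b j - a j * b i)) = 0 := by
        have := (ZMod.intCast_zmod_eq_zero_iff_dvd _ p).2 h3
        push_cast at this
        exact this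
      have h5 : (a i : ZMod p) * ((a j : ZMod p) * n + b j) = 0 := by
        have h6 : (a i : ZMod p) * ((a j : ZMod p) * n + b j) =
          (a j : ZMod p) * ((a i : ZMod p) * n + b i) + ((a i : ZMod p) * b j - a j * b i) := by ring
        rw [h6, h1, h4]
      exact (mul_eq_zero.1 h5).resolve_left hai
  · intro c hc c' hc' h
    rw [mem_coe, mem_insert] at hc hc'
    have hcp : c < p := by
      rcases hc with h | h
      · rw [h]; exact hp.pos
      · exact Om_lt h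
    have hcp' : c' < p := by
      rcases hc' with h | h
      · rw [h]; exact hp.pos
      · exact Om_lt h
    have h1 := ZMod.val_injective p h
    have h2 := mul_right_cancel₀ (inv_ne_zero hai) h1
    have h3 : (c : ZMod p) = c' := by
      have := congrArg (fun x => x + (b i : ZMod p)) h2
      simpa using this
    rw [ZMod.natCast_eq_natCast_iff] at h3
    exact Nat.ModEq.eq_of_lt_of_lt h3 hcp hcp'

/-- the basic identity between the factors -/
theorem factor_id {x p : ℝ} (hp : 1 < p) : (1 - x * (1 / (p - 1))) * (1 - 1 / p) = 1 - (x + 1) * (1 / p) := by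
  have h1 : p - 1 ≠ 0 := by linarith
  have h2 : p ≠ 0 := by linarith
  field_simp
  ring

theorem exp_le_one_sub' {x : ℝ} (h0 : 0 ≤ x) (h1 : x ≤ 1 / 2) : Real.exp (-(2 * x)) ≤ 1 - x := by
  have h2 : 0 < 1 - x := by linarith
  rw [← Real.le_log_iff_exp_le h2]
  have h3 := Real.one_sub_inv_le_log_of_pos h2
  refine le_trans ?_ h3
  have h4 : (1 - x)⁻¹ ≤ 1 + 2 * x := by
    rw [inv_le_iff_one_le_mul₀ h2]
    nlinarith
  linarith

/-- lower bound for the Euler product of the sieve -/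
theorem V1_low (k : ℕ) : ∃ c6 : ℝ, 0 < c6 ∧ ∀ (z : ℕ) (P : Finset ℕ) (o : ℕ → ℕ) (L : ℝ), 3 ≤ z → Real.log z ≤ L →
    (∀ p ∈ P, p.Prime ∧ 4 * k + 4 ≤ p ∧ p ≤ z ∧ o p + 1 ≤ k) →
    c6 / L ^ (2 * k) ≤ ∏ p ∈ P, (1 - (o p : ℝ) * (1 / ((p : ℝ) - 1))) ∧
    c6 / L ^ (2 * k) ≤ ∏ p ∈ P, (1 - ((o p : ℝ) + 1) * (1 / (p : ℝ))) := by
  obtain ⟨C2, hC2⟩ := Pool.Agent.Erdos456.Mert.mertens_inv
  refine ⟨Real.exp (-(2 * k * C2)), Real.exp_pos _, ?_⟩
  intro z P o L hz hL hP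
  have hzr : (3 : ℝ) ≤ z := by exact_mod_cast hz
  have hlz : 1 ≤ Real.log z := by
    rw [Real.le_log_iff_exp_le (by linarith)]
    have := Real.exp_one_lt_d9
    linarith
  have hsum : ∑ p ∈ P, (1 : ℝ) / p ≤ Real.log L + C2 := by
    have h1 := (abs_le.1 (hC2 z hz)).2
    have h2 : ∑ p ∈ P, (1 : ℝ) / p ≤ ∑ p ∈ (Icc 1 z).filter Nat.Prime, (1 : ℝ) / p := by
      apply sum_le_sum_of_subset_of_nonneg _ (fun _ _ _ => by positivity)
      intro p hp
      rw [mem_filter, mem_Icc]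
      exact ⟨⟨(hP p hp).1.one_lt.le, (hP p hp).2.2.1⟩, (hP p hp).1⟩
    have h3 : Real.log (Real.log z) ≤ Real.log L := Real.log_le_log (by linarith) hL
    linarith
  have hexp : Real.exp (-(2 * k * C2)) / L ^ (2 * k) ≤ ∏ p ∈ P, Real.exp (-(2 * ((k : ℝ) * (1 / p)))) := by
    rw [← Real.exp_sum]
    have hL0 : 0 < L := by linarith
    have e1 : L ^ (2 * k) = Real.exp (2 * k * Real.log L) := by
      have : (2 * k : ℝ) * Real.log L = ((2 * k : ℕ) : ℝ) * Real.log L := by push_cast; ring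
      rw [this, Real.exp_nat_mul, Real.exp_log hL0]
    rw [e1, ← Real.exp_sub]
    apply Real.exp_le_exp.2
    have e2 : ∑ p ∈ P, -(2 * ((k : ℝ) * (1 / (p : ℝ)))) = -(2 * k * ∑ p ∈ P, (1 : ℝ) / p) := by
      rw [sum_neg_distrib, mul_sum]
      congr 1
      apply sum_congr rfl
      intro p _
      ring
    rw [e2]
    have h2k : (0 : ℝ) ≤ 2 * k := by positivity
    have := mul_le_mul_of_nonneg_left hsum h2k
    linarith
  have hbas : ∀ p ∈ P, (0 : ℝ) ≤ (k : ℝ) * (1 / p) ∧ (k : ℝ) * (1 / p) ≤ 1 / 2 ∧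
      (o p : ℝ) * (1 / ((p : ℝ) - 1)) ≤ (k : ℝ) * (1 / p) ∧ ((o p : ℝ) + 1) * (1 / (p : ℝ)) ≤ (k : ℝ) * (1 / p) := by
    intro p hp
    obtain ⟨h1, h2, h3, h4⟩ := hP p hp
    have hpr : (4 * k + 4 : ℝ) ≤ p := by exact_mod_cast h2
    have hkr : (0 : ℝ) ≤ k := Nat.cast_nonneg k
    have hp0 : (0 : ℝ) < p := by linarith
    have h4r : (o p : ℝ) + 1 ≤ k := by exact_mod_cast h4
    refine ⟨by positivity, ?_, ?_, ?_⟩
    · rw [mul_one_div, div_le_iff₀ hp0]
      linarith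
    · rw [mul_one_div, mul_one_div, div_le_div_iff₀ (by linarith) hp0]
      nlinarith
    · exact mul_le_mul_of_nonneg_right h4r (by positivity)
  constructor
  · refine hexp.trans (Finset.prod_le_prod (fun p _ => (Real.exp_pos _).le) fun p hp => ?_)
    obtain ⟨h1, h2, h3, h4⟩ := hbas p hp
    refine (exp_le_one_sub' h1 h2).trans ?_
    linarith
  · refine hexp.trans (Finset.prod_le_prod (fun p _ => (Real.exp_pos _).le) fun p hp => ?_)
    obtain ⟨h1, h2, h3, h4⟩ := hbas p hp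
    refine (exp_le_one_sub' h1 h2).trans ?_
    linarith

end Pool.Agent.H92.F
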