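import Pool.Agent.H92.F.Base

set_option autoImplicit false

/-! The two applications of the fundamental lemma. -/

open Finset Filter

namespace Pool.Agent.H92.F

open Pool.Agent.H262R3.Lk Pool.Agent.H378R2 Pool.Agent.H262R2.UM Pool.Agent.H262R2.UP

/-- residues `c` of the value `m` of the form number `i` at which another form is divisible by `p` -/
def Om {k : ℕ} (a b : Fin k → ℕ) (i : Fin k) (p : ℕ) : Finset ℕ :=
  (range p).filter (fun c => ∃ j, j ≠ i ∧ (p : ℤ) ∣ (a j : ℤ) * c + ((a i : ℤ) * b j - a j * b i))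

theorem Om_lt {k : ℕ} {a b : Fin k → ℕ} {i : Fin k} {p c : ℕ} (h : c ∈ Om a b i p) : c < p :=
  mem_range.1 (mem_filter.1 h).1

theorem Om_card {k : ℕ} {a b : Fin k → ℕ} (i : Fin k) {p : ℕ} (hp : p.Prime) (ha : ∀ j, ¬ p ∣ a j) :
    (Om a b i p).card + 1 ≤ k := by
  classical
  have hk : 0 < k := i.pos
  have h1 : (Om a b i p) ⊆ (univ.erase i).biUnion (fun j => (range p).filter
      (fun c : ℕ => (p : ℤ) ∣ (a j : ℤ) * c + ((a i : ℤ) * b j - a j * b i))) := by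
    intro c hc
    obtain ⟨h2, j, hj, h3⟩ := mem_filter.1 hc
    rw [mem_biUnion]
    exact ⟨j, mem_erase.2 ⟨hj, mem_univ _⟩, mem_filter.2 ⟨h2, h3⟩⟩
  have h2 : ∀ j, ((range p).filter (fun c : ℕ => (p : ℤ) ∣ (a j : ℤ) * c + ((a i : ℤ) * b j - a j * b i))).card ≤ 1 := by
    intro j
    rw [card_le_one]
    intro c hc c' hc'
    rw [mem_filter, mem_range] at hc hc'
    have h3 := dvd_sub hc.2 hc'.2
    have h4 : (p : ℤ) ∣ (a j : ℤ) * ((c : ℤ) - c') := by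
      have e : (a j : ℤ) * ((c : ℤ) - c') = (a j : ℤ) * c + ((a i : ℤ) * b j - a j * b i) -
        ((a j : ℤ) * c' + ((a i : ℤ) * b j - a j * b i)) := by ring
      rw [e]; exact h3
    rcases (Nat.prime_iff_prime_int.1 hp).dvd_or_dvd h4 with h5 | h5
    · exact absurd (Int.natCast_dvd_natCast.1 h5) (ha j)
    · have h6 : (c : ℤ) ≡ c' [ZMOD p] := (Int.modEq_iff_dvd.2 (by
        have := dvd_neg.2 h5
        rwa [neg_sub] at this))
      have h7 := (Int.natCast_modEq_iff.1 h6)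
      exact Nat.ModEq.eq_of_lt_of_lt h7 hc.1 hc'.1
  have h3 := (card_le_card h1).trans (card_biUnion_le_card_mul _ _ 1 (fun j _ => h2 j))
  rw [card_erase_of_mem (mem_univ _), card_univ, Fintype.card_fin] at h3
  omega

theorem Om_zero {k : ℕ} {a b : Fin k → ℕ} {i : Fin k} {p : ℕ}
    (h : ∀ j, j ≠ i → ¬ (p : ℤ) ∣ (a i : ℤ) * b j - a j * b i) : 0 ∉ Om a b i p := by
  intro h0
  obtain ⟨_, j, hj, h1⟩ := mem_filter.1 h0
  apply h j hj
  simpa using h1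

theorem Om_hit {k : ℕ} {a b : Fin k → ℕ} {i j : Fin k} {p n : ℕ} (hp : 0 < p) (hj : j ≠ i)
    (h : p ∣ a j * n + b j) : (a i * n + b i) % p ∈ Om a b i p := by
  unfold Om
  rw [mem_filter, mem_range]
  refine ⟨Nat.mod_lt _ hp, j, hj, ?_⟩
  have h1 : (p : ℤ) ∣ (a j : ℤ) * n + b j := by exact_mod_cast h
  have h2 : (p : ℤ) ∣ ((a i * n + b i : ℕ) : ℤ) - (((a i * n + b i) % p : ℕ) : ℤ) := by
    have : (((a i * n + b i) % p : ℕ) : ℤ) = ((a i * n + b i : ℕ) : ℤ) % p := Int.natCast_mod _ _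
    rw [this]
    exact Int.dvd_self_sub_emod
  have h3 := dvd_sub (h1.mul_left (a i : ℤ)) (h2.mul_left (a j : ℤ))
  have e : (a i : ℤ) * ((a j : ℤ) * n + b j) - (a j : ℤ) * (((a i * n + b i : ℕ) : ℤ) -
      (((a i * n + b i) % p : ℕ) : ℤ)) = (a j : ℤ) * (((a i * n + b i) % p : ℕ) : ℤ) +
      ((a i : ℤ) * b j - a j * b i) := by push_cast; ring
  rwa [e] at h3

/-- the fundamental lemma with a given constant -/
def FLLat (C : ℕ) : Prop := ∀ (κ b J z0 : ℕ) (P : Finset ℕ) (g : ℕ → ℝ)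
  (Om : ℕ → Finset ℕ), C * (κ + 1) ≤ b → C * (κ + 1) ≤ z0 →
  (∀ p ∈ P, p.Prime ∧ z0 < p ∧ p ≤ 2 ^ 2 ^ J) →
  (∀ p ∈ P, (Om p).card ≤ κ) → (∀ p ∈ P, 0 ≤ g p ∧ g p ≤ 1 / ((p : ℝ) - 1)) →
  ∀ (S : Finset ℕ) (w : ℕ → ℝ) (A : ℝ) (err : ℕ → ℝ), (∀ n ∈ S, 0 ≤ w n) → 0 ≤ A →
    (∀ m, 0 ≤ err m) →
    (∀ T ⊆ P, ∏ p ∈ T, p ≤ (2 ^ 2 ^ J) ^ (C * b) → ∀ c : ℕ → ℕ, (∀ p ∈ T, c p ∈ Om p) →
      |∑ n ∈ S.filter (fun n => ∀ p ∈ T, n % p = c p), w n - A * ∏ p ∈ T, g p| ≤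
        err (∏ p ∈ T, p)) →
    |∑ n ∈ S.filter (fun n => ∀ p ∈ P, n % p ∉ Om p), w n -
        A * ∏ p ∈ P, (1 - ((Om p).card : ℝ) * g p)| ≤
      (1 / 2 : ℝ) ^ b * (A * ∏ p ∈ P, (1 - ((Om p).card : ℝ) * g p)) +
        ((J : ℝ) + 2) *
          ∑ T ∈ P.powerset.filter (fun T : Finset ℕ => ∏ p ∈ T, p ≤ (2 ^ 2 ^ J) ^ (C * b)),
            (κ : ℝ) ^ T.card * err (∏ p ∈ T, p)

theorem fllC : ∃ C : ℕ, 1 ≤ C ∧ FLLat C := by
  obtain ⟨C, hC, H⟩ := Pool.Agent.TH423.SH.fll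
  refine ⟨C, hC, ?_⟩
  intro κ b J z0 P g Om h1 h2 h3 h4 h5 S w A err h6 h7 h8 h9
  exact H κ b J z0 P g Om h1 h2 h3 h4 h5 S w A err h6 h7 h8 h9

theorem prod_pred {T : Finset ℕ} (hT : ∀ p ∈ T, p.Prime) :
    ∏ p ∈ T, (1 / ((p : ℝ) - 1)) = 1 / ((∏ p ∈ T, p).totient : ℝ) := by
  classical
  induction T using Finset.induction_on with
  | empty => simp
  | @insert p T hpT ih =>
    have hp := hT p (mem_insert_self _ _)
    have hcop : p.Coprime (∏ q ∈ T, q) := by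
      apply Nat.Coprime.prod_right
      intro q hq
      rw [Nat.coprime_primes hp (hT q (mem_insert_of_mem hq))]
      rintro rfl
      exact hpT hq
    rw [prod_insert hpT, prod_insert hpT, ih (fun q hq => hT q (mem_insert_of_mem hq)), Nat.totient_mul hcop,
      Nat.totient_prime hp, Nat.cast_mul, Nat.cast_sub hp.one_lt.le]
    push_cast
    rw [div_mul_div_comm, one_mul]

/-- the lower bound sieve for the primes of a class -/
theorem sieve_low {C : ℕ} (hF : FLLat C) (κ bb J z0 : ℕ) (P : Finset ℕ) (Om : ℕ → Finset ℕ)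
    (hb : C * (κ + 1) ≤ bb) (hz : C * (κ + 1) ≤ z0) (hP : ∀ p ∈ P, p.Prime ∧ z0 < p ∧ p ≤ 2 ^ 2 ^ J)
    (hOm : ∀ p ∈ P, (Om p).card ≤ κ ∧ 0 ∉ Om p ∧ ∀ c ∈ Om p, c < p)
    (Y : ℝ) (Q β : ℕ) (hβ : β.Coprime Q) (hPQ : ∀ p ∈ P, ¬ p ∣ Q) (Bc : ℕ → ℕ)
    (hBc : ∀ q, 1 ≤ q → ∀ b' : ℕ, b'.Coprime (Q * q) → |ER Y Q q b'| ≤ |ER Y Q q (Bc q)|) :
    (1 - (1 / 2 : ℝ) ^ bb) * (pc Y Q β * ∏ p ∈ P, (1 - ((Om p).card : ℝ) * (1 / ((p : ℝ) - 1)))) -
      ((J : ℝ) + 2) * ∑ T ∈ P.powerset.filter (fun T : Finset ℕ => ∏ p ∈ T, p ≤ (2 ^ 2 ^ J) ^ (C * bb)),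
            (κ : ℝ) ^ T.card * |ER Y Q (∏ p ∈ T, p) (Bc (∏ p ∈ T, p))| ≤
    ∑ m ∈ (Icc 1 ⌊3 * Y⌋₊).filter (fun m => m ≡ β [MOD Q] ∧ ∀ p ∈ P, m % p ∉ Om p),
      Phi (m / Y) * ArithmeticFunction.vonMangoldt m := by
  classical
  have key := hF κ bb J z0 P (fun p => 1 / ((p : ℝ) - 1)) Om hb hz hP (fun p hp => (hOm p hp).1) ?_
    ((Icc 1 ⌊3 * Y⌋₊).filter (fun m => m ≡ β [MOD Q])) (fun m => Phi (m / Y) * ArithmeticFunction.vonMangoldt m)
    (pc Y Q β) (fun q => |ER Y Q q (Bc q)|) ?_ (pc_nonneg Y Q β) (fun _ => abs_nonneg _) ?_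
  · rw [filter_filter] at key
    have := (abs_le.1 key).1
    linarith
  · intro p hp
    refine ⟨?_, le_rfl⟩
    have : (1 : ℝ) ≤ p := by exact_mod_cast (hP p hp).1.one_lt.le
    exact one_div_nonneg.2 (by linarith)
  · intro m _
    exact mul_nonneg (le_max_left _ _) ArithmeticFunction.vonMangoldt_nonneg
  · intro T hTP _ c hc
    have hTp : ∀ p ∈ T, p.Prime := fun p hp => (hP p (hTP hp)).1
    obtain ⟨γ, hγ⟩ := crt Q β c T (fun p hp => ⟨hTp p hp, hPQ p (hTP hp)⟩)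
      (fun p hp => (hOm p (hTP hp)).2.2 _ (hc p hp))
    have hγ1 := (hγ γ).2 rfl
    have hprod : 1 ≤ ∏ p ∈ T, p := prod_pos fun p hp => (hTp p hp).pos
    have hcop : γ.Coprime (Q * ∏ p ∈ T, p) := by
      apply Nat.Coprime.mul_right
      · rw [Nat.coprime_iff_gcd_eq_one, Nat.ModEq.gcd_eq hγ1.1]
        exact hβ
      · apply Nat.Coprime.prod_right
        intro p hp
        rw [Nat.coprime_comm, Nat.Prime.coprime_iff_not_dvd (hTp p hp)]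
        intro hd
        have h1 := hγ1.2 p hp
        rw [Nat.mod_eq_zero_of_dvd hd] at h1
        have h2 := hc p hp
        rw [← h1] at h2
        exact (hOm p (hTP hp)).2.1 h2
    have e1 : ∑ n ∈ ((Icc 1 ⌊3 * Y⌋₊).filter (fun m => m ≡ β [MOD Q])).filter (fun n => ∀ p ∈ T, n % p = c p),
        Phi (n / Y) * ArithmeticFunction.vonMangoldt n = pc Y (Q * ∏ p ∈ T, p) γ := by
      unfold pc
      apply sum_congr
      · rw [filter_filter]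
        apply filter_congr
        intro m _
        exact hγ m
      · intro m _
        rfl
    have e2 : pc Y Q β = pc Y Q γ := by
      unfold pc
      apply sum_congr
      · apply filter_congr
        intro m _
        exact ⟨fun h => h.trans hγ1.1.symm, fun h => h.trans hγ1.1⟩
      · intro m _
        rfl
    rw [e1, prod_pred hTp, e2]
    exact hBc _ hprod γ hcop

/-- the upper bound sieve for the integers of a class -/
theorem sieve_up {C : ℕ} (hF : FLLat C) (κ bb J z0 : ℕ) (P : Finset ℕ) (Om : ℕ → Finset ℕ)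
    (hb : C * (κ + 1) ≤ bb) (hz : C * (κ + 1) ≤ z0) (hP : ∀ p ∈ P, p.Prime ∧ z0 < p ∧ p ≤ 2 ^ 2 ^ J)
    (hOm : ∀ p ∈ P, (Om p).card ≤ κ ∧ ∀ c ∈ Om p, c < p)
    (N Q β : ℕ) (hQ : 0 < Q) (hPQ : ∀ p ∈ P, ¬ p ∣ Q) :
    |(((Icc 1 N).filter (fun m => m ≡ β [MOD Q] ∧ ∀ p ∈ P, m % p ∉ Om p)).card : ℝ) -
      (N : ℝ) / Q * ∏ p ∈ P, (1 - ((Om p).card : ℝ) * (1 / (p : ℝ)))| ≤
    (1 / 2 : ℝ) ^ bb * ((N : ℝ) / Q * ∏ p ∈ P, (1 - ((Om p).card : ℝ) * (1 / (p : ℝ)))) +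
      ((J : ℝ) + 2) * ∑ T ∈ P.powerset.filter (fun T : Finset ℕ => ∏ p ∈ T, p ≤ (2 ^ 2 ^ J) ^ (C * bb)),
            (κ : ℝ) ^ T.card * 1 := by
  classical
  have key := hF κ bb J z0 P (fun p => 1 / (p : ℝ)) Om hb hz hP (fun p hp => (hOm p hp).1) ?_
    ((Icc 1 N).filter (fun m => m ≡ β [MOD Q])) (fun _ => 1)
    ((N : ℝ) / Q) (fun _ => 1) (fun _ _ => zero_le_one) (by positivity) (fun _ => zero_le_one) ?_
  · rw [filter_filter, sum_const, nsmul_eq_mul, mul_one] at key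
    exact key
  · intro p hp
    have : (1 : ℝ) < p := by exact_mod_cast (hP p hp).1.one_lt
    exact ⟨by positivity, one_div_le_one_div_of_le (by linarith) (by linarith)⟩
  · intro T hTP _ c hc
    have hTp : ∀ p ∈ T, p.Prime := fun p hp => (hP p (hTP hp)).1
    obtain ⟨γ, hγ⟩ := crt Q β c T (fun p hp => ⟨hTp p hp, hPQ p (hTP hp)⟩)
      (fun p hp => (hOm p (hTP hp)).2 _ (hc p hp))
    have hprod : 0 < ∏ p ∈ T, p := prod_pos fun p hp => (hTp p hp).pos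
    have e1 : ((Icc 1 N).filter (fun m => m ≡ β [MOD Q])).filter (fun n => ∀ p ∈ T, n % p = c p) =
        (Icc 1 N).filter (fun m => m ≡ γ [MOD Q * ∏ p ∈ T, p]) := by
      rw [filter_filter]
      apply filter_congr
      intro m _
      exact hγ m
    have e2 : (N : ℝ) / Q * ∏ p ∈ T, (1 / (p : ℝ)) = (N : ℝ) / ((Q * ∏ p ∈ T, p : ℕ) : ℝ) := by
      rw [prod_div_distrib, prod_const_one]
      push_cast
      rw [div_mul_div_comm, mul_one]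
    rw [e1, sum_const, nsmul_eq_mul, mul_one, e2]
    exact card_class N _ γ (Nat.mul_pos hQ hprod)

end Pool.Agent.H92.F
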