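import Pool.Agent.H92.F.Sieve
import Pool.Agent.H92.F.Err

set_option autoImplicit false

/-! Upper bounds for the values divisible by a power of a bad prime. -/

open Finset Filter

namespace Pool.Agent.H92.F

open Pool.Agent.H262R3.Lk Pool.Agent.H378R2 Pool.Agent.H262R2.UM Pool.Agent.H262R2.UP

/-- the argument at which a form has the value `m` -/
theorem param {ai bi a0 W m : ℕ} (hai : 0 < ai) (hbi : bi ≤ ai) (hm : 1 ≤ m)
    (h : m ≡ ai * a0 + bi [MOD ai * W]) :
    ai * ((m - bi) / ai) + bi = m ∧ (m - bi) / ai ≡ a0 [MOD W] := by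
  have h1 : m ≡ bi [MOD ai] := by
    have h2 := h.of_mul_right W
    refine h2.trans ?_
    have : ai * a0 + bi ≡ 0 + bi [MOD ai] := Nat.ModEq.add_right _ (by simp [Nat.modEq_zero_iff_dvd])
    rwa [zero_add] at this
  have hbm : bi ≤ m := by
    by_contra hlt
    push Not at hlt
    have h3 := (Nat.modEq_iff_dvd' hlt.le).1 h1
    have h4 := Nat.le_of_dvd (by omega) h3
    omega
  have h5 : ai ∣ m - bi := (Nat.modEq_iff_dvd' hbm).1 h1.symm
  have h6 : ai * ((m - bi) / ai) = m - bi := Nat.mul_div_cancel' h5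
  have h7 : ai * ((m - bi) / ai) + bi = m := by omega
  refine ⟨h7, ?_⟩
  have h8 : ai * ((m - bi) / ai) + bi ≡ ai * a0 + bi [MOD ai * W] := by rw [h7]; exact h
  have h9 := Nat.ModEq.add_right_cancel' bi h8
  exact Nat.ModEq.mul_left_cancel' hai.ne' h9

/-- two arguments at which the form `j` is divisible by `r ^ e` -/
theorem same_class {aj bj n n' r e : ℕ} (hr : r.Prime) (he : 1 ≤ e) (hcop : bj.Coprime aj)
    (h : r ^ e ∣ aj * n + bj) (h' : r ^ e ∣ aj * n' + bj) : n ≡ n' [MOD r ^ e] := by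
  have hra : ¬ r ∣ aj := by
    intro hd
    have h1 : r ∣ aj * n + bj := (dvd_pow_self r (by omega)).trans h
    have h2 : r ∣ bj := (Nat.dvd_add_right (hd.mul_right n)).1 h1
    have h3 := Nat.dvd_gcd h2 hd
    rw [hcop] at h3
    exact hr.one_lt.ne' (Nat.dvd_one.1 h3)
  have h1 : aj * n + bj ≡ aj * n' + bj [MOD r ^ e] :=
    ((Nat.modEq_zero_iff_dvd.2 h).trans (Nat.modEq_zero_iff_dvd.2 h').symm)
  have h2 := Nat.ModEq.add_right_cancel' bj h1
  exact Nat.ModEq.cancel_left_of_coprime (by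
    rw [Nat.gcd_comm]
    exact Nat.Coprime.pow_right e ((Nat.Prime.coprime_iff_not_dvd hr).2 hra).symm) h2

theorem class_lift {ai bi W q n n' m m' : ℕ} (hc : W.Coprime q) (h : n ≡ n' [MOD W]) (h' : n ≡ n' [MOD q])
    (hm : ai * n + bi = m) (hm' : ai * n' + bi = m') : m ≡ m' [MOD ai * (W * q)] := by
  have h1 : n ≡ n' [MOD W * q] := (Nat.modEq_and_modEq_iff_modEq_mul hc).1 ⟨h, h'⟩
  rw [← hm, ← hm']
  exact Nat.ModEq.add_right _ (Nat.ModEq.mul_left' _ h1)

/-- conditions on the primes of the sieve -/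
structure POK {k : ℕ} (a b : Fin k → ℕ) (i : Fin k) (J z0 W : ℕ) (P : Finset ℕ) : Prop where
  pr : ∀ p ∈ P, p.Prime
  big : ∀ p ∈ P, z0 < p ∧ p ≤ 2 ^ 2 ^ J
  nW : ∀ p ∈ P, ¬ p ∣ W
  na : ∀ p ∈ P, ∀ j, ¬ p ∣ a j
  nd : ∀ p ∈ P, ∀ j, j ≠ i → ¬ (p : ℤ) ∣ (a i : ℤ) * b j - a j * b i

theorem factor_nonneg {k p c : ℕ} (hp : 0 < p) (hc : c + 1 ≤ k) (hkp : k ≤ p) :
    0 ≤ 1 - ((c : ℝ) + 1) * (1 / (p : ℝ)) := by
  have hpr : (0 : ℝ) < p := by exact_mod_cast hp
  rw [mul_one_div, sub_nonneg, div_le_one hpr]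
  exact_mod_cast hc.trans hkp

open Classical in
/-- upper bound for one power of one bad prime -/
theorem upper_one {C : ℕ} (hF : FLLat C) {k : ℕ} (a b : Fin k → ℕ) (i j : Fin k) (bb J z0 W a0 : ℕ)
    (P : Finset ℕ) (hbb : 1 ≤ bb) (hb : C * (k + 1) ≤ bb) (hz : C * (k + 1) ≤ z0) (hkz : k ≤ z0) (hW : 0 < W)
    (hP : POK a b i J z0 W P) (hai : 0 < a i) (hbi : b i ≤ a i) (hcop : (b j).Coprime (a j))
    (N r e : ℕ) (hr : r.Prime) (he : 1 ≤ e) (hrW : ¬ r ∣ W) (hrP : r ∉ P) :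
    ∑ m ∈ ((Icc 1 N).filter (fun m => m ≡ a i * a0 + b i [MOD a i * W] ∧ ∀ p ∈ P, m % p ∉ Om a b i p)).filter
      (fun m => r ^ e ∣ a j * ((m - b i) / a i) + b j), ArithmeticFunction.vonMangoldt m ≤
    Real.log N * ((3 / 2) * ((N : ℝ) / ((a i * (W * r ^ e) : ℕ) : ℝ) *
        ∏ p ∈ P, (1 - (((Om a b i p).card : ℝ) + 1) * (1 / (p : ℝ)))) +
      ((J : ℝ) + 2) * ((((2 ^ 2 ^ J) ^ (C * bb) : ℕ) : ℝ) * (((2 ^ 2 ^ J) ^ (C * bb) : ℕ) : ℝ))) +
      #P * Real.log N := by
  set G := ((Icc 1 N).filter (fun m => m ≡ a i * a0 + b i [MOD a i * W] ∧ ∀ p ∈ P, m % p ∉ Om a b i p)).filter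
      (fun m => r ^ e ∣ a j * ((m - b i) / a i) + b j) with hG
  set D := (2 ^ 2 ^ J) ^ (C * bb) with hD
  have hlogN : 0 ≤ Real.log N := Real.log_natCast_nonneg N
  have hprod : 0 ≤ ∏ p ∈ P, (1 - (((Om a b i p).card : ℝ) + 1) * (1 / (p : ℝ))) := by
    apply prod_nonneg
    intro p hp
    exact factor_nonneg (hP.pr p hp).pos (Om_card i (hP.pr p hp) (hP.na p hp)) (hkz.trans (hP.big p hp).1.le)
  rcases G.eq_empty_or_nonempty with hGe | ⟨ms, hms⟩
  · rw [hGe, sum_empty]
    positivity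
  have hmem : ∀ m ∈ G, (1 ≤ m ∧ m ≤ N) ∧ (m ≡ a i * a0 + b i [MOD a i * W] ∧ ∀ p ∈ P, m % p ∉ Om a b i p) ∧
      r ^ e ∣ a j * ((m - b i) / a i) + b j := by
    intro m hm
    rw [hG, mem_filter, mem_filter, mem_Icc] at hm
    exact ⟨hm.1.1, hm.1.2, hm.2⟩
  have hWr : W.Coprime (r ^ e) := Nat.Coprime.pow_right e ((Nat.Prime.coprime_iff_not_dvd hr).2 hrW).symm
  have hcl : ∀ m ∈ G, m ≡ ms [MOD a i * (W * r ^ e)] := by
    intro m hm
    obtain ⟨h1, h2, h3⟩ := hmem m hm
    obtain ⟨h1', h2', h3'⟩ := hmem ms hms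
    obtain ⟨p1, p2⟩ := param hai hbi h1.1 h2.1
    obtain ⟨p1', p2'⟩ := param hai hbi h1'.1 h2'.1
    exact class_lift hWr (p2.trans p2'.symm) (same_class hr he hcop h3 h3') p1 p1'
  -- the prime powers with a base in `P`
  have hsplit : ∑ m ∈ G, ArithmeticFunction.vonMangoldt m =
      ∑ m ∈ G.filter (fun m => m.minFac ∈ P), ArithmeticFunction.vonMangoldt m +
      ∑ m ∈ G.filter (fun m => ¬ m.minFac ∈ P), ArithmeticFunction.vonMangoldt m :=
    (sum_filter_add_sum_filter_not _ _ _).symm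
  have hfirst : ∑ m ∈ G.filter (fun m => m.minFac ∈ P), ArithmeticFunction.vonMangoldt m ≤ #P * Real.log N := by
    refine le_trans (sum_le_sum_of_subset_of_nonneg ?_ (fun _ _ _ => ArithmeticFunction.vonMangoldt_nonneg))
      (pp_sum N P hP.pr)
    intro m hm
    rw [mem_filter] at hm
    rw [mem_filter, mem_Icc]
    exact ⟨(hmem m hm.1).1, hm.2⟩
  -- the other ones
  set Om' : ℕ → Finset ℕ := fun p => insert 0 (Om a b i p) with hOm'
  set S' := (Icc 1 N).filter (fun m => m ≡ ms [MOD a i * (W * r ^ e)] ∧ ∀ p ∈ P, m % p ∉ Om' p) with hS'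
  have hcardOm : ∀ p ∈ P, (Om' p).card = (Om a b i p).card + 1 := by
    intro p hp
    rw [hOm']
    exact card_insert_of_notMem (Om_zero (hP.nd p hp))
  have hup := sieve_up hF k bb J z0 P Om' hb hz (fun p hp => ⟨hP.pr p hp, hP.big p hp⟩) (fun p hp => by
      refine ⟨?_, ?_⟩
      · rw [hcardOm p hp]
        exact Om_card i (hP.pr p hp) (hP.na p hp)
      · intro c hc
        rw [hOm'] at hc
        rcases mem_insert.1 hc with h | h
        · rw [h]; exact (hP.pr p hp).pos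
        · exact Om_lt h)
    N (a i * (W * r ^ e)) ms (Nat.mul_pos hai (Nat.mul_pos hW (pow_pos hr.pos e))) (fun p hp hd => by
      have hpp := hP.pr p hp
      rcases (Nat.Prime.dvd_mul hpp).1 hd with h | h
      · exact hP.na p hp i h
      · rcases (Nat.Prime.dvd_mul hpp).1 h with h | h
        · exact hP.nW p hp h
        · have := (Nat.prime_dvd_prime_iff_eq hpp hr).1 (hpp.dvd_of_dvd_pow h)
          exact hrP (this ▸ hp))
  rw [← hS'] at hup
  have herr := err_up k D P (fun p hp => ⟨hP.pr p hp, hkz.trans (hP.big p hp).1.le⟩)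
  have hprodeq : ∏ p ∈ P, (1 - ((Om' p).card : ℝ) * (1 / (p : ℝ))) =
      ∏ p ∈ P, (1 - (((Om a b i p).card : ℝ) + 1) * (1 / (p : ℝ))) := by
    apply prod_congr rfl
    intro p hp
    rw [hcardOm p hp]
    push_cast
    rfl
  rw [hprodeq] at hup
  set V2 := ∏ p ∈ P, (1 - (((Om a b i p).card : ℝ) + 1) * (1 / (p : ℝ))) with hV2
  have hcard : (#S' : ℝ) ≤ (3 / 2) * ((N : ℝ) / ((a i * (W * r ^ e) : ℕ) : ℝ) * V2) +
      ((J : ℝ) + 2) * ((D : ℝ) * D) := by
    have h1 := (abs_le.1 hup).2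
    have h2 : (1 / 2 : ℝ) ^ bb ≤ 1 / 2 := by
      calc (1 / 2 : ℝ) ^ bb ≤ (1 / 2 : ℝ) ^ 1 := pow_le_pow_of_le_one (by norm_num) (by norm_num) hbb
        _ = 1 / 2 := pow_one _
    have h3 : 0 ≤ (N : ℝ) / ((a i * (W * r ^ e) : ℕ) : ℝ) * V2 := mul_nonneg (by positivity) hprod
    have h4 := mul_le_mul_of_nonneg_right h2 h3
    have h5 : ((J : ℝ) + 2) * ∑ T ∈ P.powerset.filter (fun T : Finset ℕ => ∏ p ∈ T, p ≤ (2 ^ 2 ^ J) ^ (C * bb)),
            (k : ℝ) ^ T.card * 1 ≤ ((J : ℝ) + 2) * ((D : ℝ) * D) :=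
      mul_le_mul_of_nonneg_left herr (by positivity)
    linarith
  have hsecond : ∑ m ∈ G.filter (fun m => ¬ m.minFac ∈ P), ArithmeticFunction.vonMangoldt m ≤ #S' * Real.log N := by
    have h1 : ∑ m ∈ G.filter (fun m => ¬ m.minFac ∈ P), ArithmeticFunction.vonMangoldt m =
        ∑ m ∈ (G.filter (fun m => ¬ m.minFac ∈ P)).filter (fun m => IsPrimePow m),
          ArithmeticFunction.vonMangoldt m := by
      rw [sum_filter (s := G.filter (fun m => ¬ m.minFac ∈ P))]
      apply sum_congr rfl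
      intro m _
      split_ifs with h
      · rfl
      · exact ArithmeticFunction.vonMangoldt_eq_zero_iff.2 h
    rw [h1]
    have h2 : (G.filter (fun m => ¬ m.minFac ∈ P)).filter (fun m => IsPrimePow m) ⊆ S' := by
      intro m hm
      rw [mem_filter, mem_filter] at hm
      obtain ⟨⟨hmG, hmP⟩, hpp⟩ := hm
      rw [hS', mem_filter, mem_Icc]
      obtain ⟨h3, h4, h5⟩ := hmem m hmG
      refine ⟨h3, hcl m hmG, ?_⟩
      intro p hp hc
      rw [hOm'] at hc
      rcases mem_insert.1 hc with h | h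
      · have hpm : p ∣ m := Nat.dvd_of_mod_eq_zero h
        apply hmP
        have h6 := hpp.minFac_pow_factorization_eq
        rw [← h6] at hpm
        have h7 := (Nat.prime_dvd_prime_iff_eq (hP.pr p hp) (Nat.minFac_prime hpp.ne_one)).1
          ((hP.pr p hp).dvd_of_dvd_pow hpm)
        rw [← h7]
        exact hp
      · exact h4.2 p hp h
    calc ∑ m ∈ (G.filter (fun m => ¬ m.minFac ∈ P)).filter (fun m => IsPrimePow m),
          ArithmeticFunction.vonMangoldt m ≤ ∑ m ∈ S', ArithmeticFunction.vonMangoldt m :=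
          sum_le_sum_of_subset_of_nonneg h2 (fun _ _ _ => ArithmeticFunction.vonMangoldt_nonneg)
      _ ≤ #S' • Real.log N := by
          apply sum_le_card_nsmul
          intro m hm
          rw [hS', mem_filter, mem_Icc] at hm
          refine ArithmeticFunction.vonMangoldt_le_log.trans ?_
          apply Real.log_le_log
          · have := hm.1.1
            exact_mod_cast this
          · exact_mod_cast hm.1.2
      _ = #S' * Real.log N := by rw [nsmul_eq_mul]
  rw [hsplit]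
  have h9 := mul_le_mul_of_nonneg_right hcard hlogN
  linarith

open Classical in
/-- number of values at which the form `j` is divisible by a large power of `r` -/
theorem upper_two {k : ℕ} (a b : Fin k → ℕ) (i j : Fin k) (W a0 : ℕ)
    (P : Finset ℕ) (hai : 0 < a i) (hbi : b i ≤ a i) (hcop : (b j).Coprime (a j))
    (N r e : ℕ) (hr : r.Prime) (he : 1 ≤ e) :
    (#(((Icc 1 N).filter (fun m => m ≡ a i * a0 + b i [MOD a i * W] ∧ ∀ p ∈ P, m % p ∉ Om a b i p)).filter
      (fun m => r ^ e ∣ a j * ((m - b i) / a i) + b j)) : ℝ) ≤ (N : ℝ) / ((a i * r ^ e : ℕ) : ℝ) + 1 := by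
  set G := ((Icc 1 N).filter (fun m => m ≡ a i * a0 + b i [MOD a i * W] ∧ ∀ p ∈ P, m % p ∉ Om a b i p)).filter
      (fun m => r ^ e ∣ a j * ((m - b i) / a i) + b j) with hG
  rcases G.eq_empty_or_nonempty with hGe | ⟨ms, hms⟩
  · rw [hGe, card_empty]
    push_cast
    positivity
  have hmem : ∀ m ∈ G, (1 ≤ m ∧ m ≤ N) ∧ (m ≡ a i * a0 + b i [MOD a i * W] ∧ ∀ p ∈ P, m % p ∉ Om a b i p) ∧
      r ^ e ∣ a j * ((m - b i) / a i) + b j := by
    intro m hm
    rw [hG, mem_filter, mem_filter, mem_Icc] at hm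
    exact ⟨hm.1.1, hm.1.2, hm.2⟩
  have hsub : G ⊆ (Icc 1 N).filter (fun m => m ≡ ms [MOD a i * r ^ e]) := by
    intro m hm
    obtain ⟨h1, h2, h3⟩ := hmem m hm
    obtain ⟨h1', h2', h3'⟩ := hmem ms hms
    obtain ⟨p1, p2⟩ := param hai hbi h1.1 h2.1
    obtain ⟨p1', p2'⟩ := param hai hbi h1'.1 h2'.1
    rw [mem_filter, mem_Icc]
    refine ⟨h1, ?_⟩
    have := class_lift (ai := a i) (bi := b i) (W := 1) (q := r ^ e) (Nat.coprime_one_left _) (Nat.modEq_one)
      (same_class hr he hcop h3 h3') p1 p1'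
    rwa [one_mul] at this
  have h1 := (abs_le.1 (card_class N (a i * r ^ e) ms (Nat.mul_pos hai (pow_pos hr.pos e)))).2
  have h2 : (#G : ℝ) ≤ #((Icc 1 N).filter (fun m => m ≡ ms [MOD a i * r ^ e])) := by
    exact_mod_cast card_le_card hsub
  linarith

/-- the number of prime factors -/
theorem Omega_bound (N z U : ℕ) (hN : N ≠ 0) (hz : 1 < z) (Eb : Finset ℕ) (hE : ∀ p : ℕ, p.Prime → p ∣ N → p ≤ z → p ∈ Eb)
    (hpow : ∀ r ∈ Eb, ¬ r ^ (Nat.log r U + 1) ∣ N) :
    N.primeFactorsList.length ≤ ∑ r ∈ Eb, #((Icc 1 (Nat.log r U)).filter (fun e => r ^ e ∣ N)) + Nat.log z N := by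
  classical
  rw [← ArithmeticFunction.cardFactors_apply, ArithmeticFunction.cardFactors_eq_sum_factorization, Finsupp.sum,
    Nat.support_factorization]
  rw [← sum_filter_add_sum_filter_not N.primeFactors (fun p => p ≤ z)]
  apply add_le_add
  · calc ∑ p ∈ N.primeFactors.filter (fun p => p ≤ z), N.factorization p ≤
        ∑ p ∈ N.primeFactors.filter (fun p => p ≤ z), #((Icc 1 (Nat.log p U)).filter (fun e => p ^ e ∣ N)) := by
          apply sum_le_sum
          intro p hp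
          rw [mem_filter, Nat.mem_primeFactors] at hp
          obtain ⟨⟨hpp, hpN, _⟩, hpz⟩ := hp
          have hpE := hE p hpp hpN hpz
          have h1 : N.factorization p ≤ Nat.log p U := by
            by_contra hcon
            push Not at hcon
            exact hpow p hpE ((hpp.pow_dvd_iff_le_factorization hN).2 hcon)
          have h2 : Icc 1 (N.factorization p) ⊆ (Icc 1 (Nat.log p U)).filter (fun e => p ^ e ∣ N) := by
            intro e he
            rw [mem_Icc] at he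
            rw [mem_filter, mem_Icc]
            exact ⟨⟨he.1, he.2.trans h1⟩, (hpp.pow_dvd_iff_le_factorization hN).2 he.2⟩
          have h3 := card_le_card h2
          rwa [Nat.card_Icc, Nat.add_sub_cancel] at h3
      _ ≤ ∑ r ∈ Eb, #((Icc 1 (Nat.log r U)).filter (fun e => r ^ e ∣ N)) := by
          apply sum_le_sum_of_subset
          intro p hp
          rw [mem_filter, Nat.mem_primeFactors] at hp
          exact hE p hp.1.1 hp.1.2.1 hp.2
  · apply Nat.le_log_of_pow_le hz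
    calc z ^ (∑ p ∈ N.primeFactors.filter (fun p => ¬ p ≤ z), N.factorization p) =
        ∏ p ∈ N.primeFactors.filter (fun p => ¬ p ≤ z), z ^ (N.factorization p) := by
          rw [prod_pow_eq_pow_sum]
      _ ≤ ∏ p ∈ N.primeFactors.filter (fun p => ¬ p ≤ z), p ^ (N.factorization p) := by
          apply prod_le_prod'
          intro p hp
          rw [mem_filter, not_le] at hp
          exact Nat.pow_le_pow_left hp.2.le _
      _ ≤ ∏ p ∈ N.primeFactors, p ^ (N.factorization p) := by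
          apply prod_le_prod_of_subset_of_one_le' (filter_subset _ _)
          intro p hp _
          exact Nat.one_le_pow _ _ (Nat.prime_of_mem_primeFactors hp).pos
      _ = N := (Nat.prod_primeFactors_pow_factorization hN).symm

end Pool.Agent.H92.F
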